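import Pool.Agent.Lib.QuadThree.PrimesDyadic

set_option autoImplicit false

open Finset

namespace Pool.Agent.Lib.MP_a17b09_nt

lemma harm_low (j0 : ℕ) (h0 : 0 < j0) (J : ℕ) (hJ : j0 ≤ J) :
    Real.log J - Real.log j0 ≤ ∑ j ∈ Finset.Ico j0 J, (1 : ℝ) / j := by
  induction J, hJ using Nat.le_induction with
  | base => simp
  | succ J hJ ih =>
    rw [Finset.sum_Ico_succ_top hJ]
    have hJ0 : (0 : ℝ) < J := by
      have : 0 < J := lt_of_lt_of_le h0 hJ
      exact_mod_cast this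
    have h1 : Real.log ((J + 1 : ℕ) : ℝ) ≤ Real.log J + 1 / J := by
      have e : ((J + 1 : ℕ) : ℝ) = J * (1 + 1 / J) := by push_cast; field_simp
      rw [e, Real.log_mul hJ0.ne' (by positivity)]
      have := Real.log_le_sub_one_of_pos (show (0 : ℝ) < 1 + 1 / J by positivity)
      linarith
    linarith

/-- lower bound for the sum of the reciprocals of the primes in a residue class -/
theorem recip_low (W ρ : ℕ) (hW : 0 < W) (hc : Nat.Coprime ρ W) (C0 : ℕ) :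
    ∃ C : ℝ, ∃ z0 : ℕ, 0 ≤ C ∧ ∀ z : ℕ, z0 ≤ z →
      1 / (4 * (W : ℝ)) * Real.log (Real.log z) - C ≤
        ∑ q ∈ (Finset.Ioc C0 z).filter (fun q => q.Prime ∧ q ≡ ρ [MOD W]), (1 : ℝ) / q := by
  obtain ⟨x0, hx02, hx0⟩ := Pool.Agent.Lib.QuadThree.primes_dyadic W hW ρ hc
  set j0 : ℕ := x0 + C0 + 1 with hj0
  have hWr : (0 : ℝ) < W := by exact_mod_cast hW
  have hφ : (0 : ℝ) < (Nat.totient W : ℝ) := by exact_mod_cast Nat.totient_pos.2 hW
  have hφW : (Nat.totient W : ℝ) ≤ W := by exact_mod_cast Nat.totient_le W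
  have hj0pos : 0 < j0 := by omega
  have hlogj0 : 0 ≤ Real.log j0 := Real.log_natCast_nonneg _
  have hl2 : 0 < Real.log 2 := Real.log_pos (by norm_num)
  have hl2' : Real.log 2 ≤ 1 := by
    have := Real.log_le_sub_one_of_pos (show (0 : ℝ) < 2 by norm_num)
    linarith
  refine ⟨1 / (4 * (W : ℝ)) * (Real.log 2 + Real.log j0), 2 ^ (2 * j0 + 2), by positivity, ?_⟩
  intro z hz
  have hz1 : 1 ≤ z := le_trans (Nat.one_le_two_pow) hz
  have hzpos : (0 : ℝ) < z := by exact_mod_cast hz1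
  set J := Nat.log 2 z with hJ
  have hJlow : 2 * j0 + 2 ≤ J := by
    rw [hJ]
    exact (Nat.le_log_iff_pow_le (by norm_num) (by omega)).2 hz
  have hJ0 : j0 ≤ J := by omega
  have hpowJ : 2 ^ J ≤ z := Nat.pow_log_le_self 2 (by omega)
  -- log z ≤ 2 J
  have hlogz : Real.log z ≤ 2 * J := by
    have h1 : z < 2 ^ (J + 1) := Nat.lt_pow_succ_log_self (by norm_num) z
    have h2 : Real.log z ≤ Real.log ((2 : ℝ) ^ (J + 1)) := by
      apply Real.log_le_log hzpos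
      exact_mod_cast h1.le
    rw [Real.log_pow] at h2
    have h3 : ((J + 1 : ℕ) : ℝ) * Real.log 2 ≤ ((J + 1 : ℕ) : ℝ) * 1 := by gcongr
    have h4 : (1 : ℝ) ≤ J := by exact_mod_cast (by omega : 1 ≤ J)
    push_cast at h2 h3
    linarith
  have hlogz1 : 1 < Real.log z := by
    have h1 : Real.log ((2 : ℝ) ^ (2 * j0 + 2)) ≤ Real.log z := by
      apply Real.log_le_log (by positivity)
      exact_mod_cast hz
    rw [Real.log_pow] at h1
    have h2 := Real.log_two_gt_d9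
    have h3 : (4 : ℝ) ≤ ((2 * j0 + 2 : ℕ) : ℝ) := by exact_mod_cast (by omega : 4 ≤ 2 * j0 + 2)
    nlinarith
  have hJr : (0 : ℝ) < J := by exact_mod_cast (by omega : 0 < J)
  have hlogJ : Real.log (Real.log z) - Real.log 2 ≤ Real.log J := by
    have h1 : Real.log (Real.log z) ≤ Real.log (2 * J) :=
      Real.log_le_log (by linarith) hlogz
    rw [Real.log_mul (by norm_num) hJr.ne'] at h1
    linarith
  -- blocks
  have hblock : ∀ j ∈ Finset.Ico j0 J, 1 / (4 * (W : ℝ)) * (1 / (j : ℝ)) ≤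
      ∑ q ∈ (Finset.Ioc (2 ^ j) (2 * 2 ^ j)).filter (fun q => q.Prime ∧ q ≡ ρ [MOD W]),
        (1 : ℝ) / q := by
    intro j hj
    rw [Finset.mem_Ico] at hj
    have hjx : x0 ≤ 2 ^ j := by
      have : j < 2 ^ j := Nat.lt_two_pow_self
      omega
    have h1 := hx0 (2 ^ j) hjx
    have hjr : (0 : ℝ) < j := by exact_mod_cast (by omega : 0 < j)
    have h2 : ∑ q ∈ (Finset.Ioc (2 ^ j) (2 * 2 ^ j)).filter (fun q => q.Prime ∧ q ≡ ρ [MOD W]),
        (1 : ℝ) / (2 * 2 ^ j) ≤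
        ∑ q ∈ (Finset.Ioc (2 ^ j) (2 * 2 ^ j)).filter (fun q => q.Prime ∧ q ≡ ρ [MOD W]),
        (1 : ℝ) / q := by
      apply sum_le_sum
      intro q hq
      rw [mem_filter, Finset.mem_Ioc] at hq
      have hq0 : (0 : ℝ) < q := by exact_mod_cast hq.2.1.pos
      have hq1 : (q : ℝ) ≤ 2 * 2 ^ j := by exact_mod_cast hq.1.2
      exact one_div_le_one_div_of_le hq0 hq1
    refine le_trans ?_ h2
    rw [sum_const, nsmul_eq_mul]
    have hlogp : Real.log ((2 ^ j : ℕ) : ℝ) = j * Real.log 2 := by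
      push_cast; rw [Real.log_pow]
    rw [hlogp] at h1
    calc 1 / (4 * (W : ℝ)) * (1 / (j : ℝ)) ≤ 1 / (4 * (Nat.totient W : ℝ)) * (1 / (j * Real.log 2)) := by
          gcongr
          calc (j : ℝ) * Real.log 2 ≤ j * 1 := by gcongr
            _ = j := mul_one _
      _ = (((2 ^ j : ℕ) : ℝ) / (2 * (Nat.totient W : ℝ) * (j * Real.log 2))) * (1 / (2 * 2 ^ j)) := by
          push_cast
          field_simp
          norm_num
      _ ≤ _ := by gcongr
  have hsub : (Finset.Ico j0 J).biUnion (fun j =>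
      (Finset.Ioc (2 ^ j) (2 * 2 ^ j)).filter (fun q => q.Prime ∧ q ≡ ρ [MOD W])) ⊆
      (Finset.Ioc C0 z).filter (fun q => q.Prime ∧ q ≡ ρ [MOD W]) := by
    intro q hq
    rw [mem_biUnion] at hq
    obtain ⟨j, hj, hq⟩ := hq
    rw [Finset.mem_Ico] at hj
    rw [mem_filter, Finset.mem_Ioc] at hq ⊢
    refine ⟨⟨?_, ?_⟩, hq.2⟩
    · have : j < 2 ^ j := Nat.lt_two_pow_self
      omega
    · calc q ≤ 2 * 2 ^ j := hq.1.2
        _ = 2 ^ (j + 1) := by ring
        _ ≤ 2 ^ J := Nat.pow_le_pow_right (by norm_num) (by omega)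
        _ ≤ z := hpowJ
  have hdisj : Set.PairwiseDisjoint (↑(Finset.Ico j0 J) : Set ℕ) (fun j =>
      (Finset.Ioc (2 ^ j) (2 * 2 ^ j)).filter (fun q => q.Prime ∧ q ≡ ρ [MOD W])) := by
    have aux : ∀ a b : ℕ, a < b → Disjoint
        ((Finset.Ioc (2 ^ a) (2 * 2 ^ a)).filter (fun q => q.Prime ∧ q ≡ ρ [MOD W]))
        ((Finset.Ioc (2 ^ b) (2 * 2 ^ b)).filter (fun q => q.Prime ∧ q ≡ ρ [MOD W])) := by
      intro a b hab
      rw [Finset.disjoint_left]
      intro q hq hq'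
      rw [mem_filter, Finset.mem_Ioc] at hq hq'
      have h1 : 2 * 2 ^ a = 2 ^ (a + 1) := by ring
      have h2 : 2 ^ (a + 1) ≤ 2 ^ b := Nat.pow_le_pow_right (by norm_num) hab
      have := hq.1.2
      have := hq'.1.1
      omega
    intro a _ b _ hab
    rcases lt_or_gt_of_ne hab with h | h
    · exact aux a b h
    · exact (aux b a h).symm
  calc 1 / (4 * (W : ℝ)) * Real.log (Real.log z) - 1 / (4 * (W : ℝ)) * (Real.log 2 + Real.log j0)
      = 1 / (4 * (W : ℝ)) * ((Real.log (Real.log z) - Real.log 2) - Real.log j0) := by ring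
    _ ≤ 1 / (4 * (W : ℝ)) * (Real.log J - Real.log j0) := by gcongr
    _ ≤ 1 / (4 * (W : ℝ)) * ∑ j ∈ Finset.Ico j0 J, (1 : ℝ) / j := by
        have := harm_low j0 hj0pos J hJ0
        gcongr
    _ = ∑ j ∈ Finset.Ico j0 J, 1 / (4 * (W : ℝ)) * (1 / (j : ℝ)) := by rw [mul_sum]
    _ ≤ ∑ j ∈ Finset.Ico j0 J,
        ∑ q ∈ (Finset.Ioc (2 ^ j) (2 * 2 ^ j)).filter (fun q => q.Prime ∧ q ≡ ρ [MOD W]),
        (1 : ℝ) / q := sum_le_sum hblock
    _ = ∑ q ∈ (Finset.Ico j0 J).biUnion (fun j =>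
        (Finset.Ioc (2 ^ j) (2 * 2 ^ j)).filter (fun q => q.Prime ∧ q ≡ ρ [MOD W])),
        (1 : ℝ) / q := (sum_biUnion hdisj).symm
    _ ≤ _ := sum_le_sum_of_subset_of_nonneg hsub (fun _ _ _ => by positivity)

end Pool.Agent.Lib.MP_a17b09_nt
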