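import Pool.Agent.Lib.MP_a17b09_nt.Z.Win

set_option autoImplicit false

open Finset Filter

namespace Pool.Agent.Lib.MP_a17b09_nt

lemma AT_small' {b c : ℤ} (hD : ¬ IsSquare (b ^ 2 - 4 * c)) (κ : ℕ) (hκ : 0 < κ) (i : ℕ) :
    ((AT b c (κ * Xn (i + 1)) ((i + 1) ^ 8)).card : ℝ) ≤
      192 * (b ^ 2 - 4 * c).natAbs * (κ : ℝ) ^ 2 * (4 + κ) ^ 2 * (4 ^ i / ((i : ℝ) + 1) ^ 4) := by
  have hX : 0 < κ * Xn (i + 1) := by unfold Xn; positivity
  have h := atyp_count hD (κ * Xn (i + 1)) ((i + 1) ^ 8) hX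
  have h1 := log_two_X_le i
  have h2 := Xn_sq_le i
  have hκr : (1 : ℝ) ≤ κ := by exact_mod_cast hκ
  have hXn : (0 : ℝ) < (Xn (i + 1) : ℝ) := by
    have : 0 < Xn (i + 1) := by unfold Xn; positivity
    exact_mod_cast this
  have hn : (1 : ℝ) ≤ (i : ℝ) + 1 := by
    have : (0 : ℝ) ≤ i := by positivity
    linarith
  have hlog : Real.log (2 * ((κ * Xn (i + 1) : ℕ) : ℝ)) =
      Real.log κ + Real.log (2 * (Xn (i + 1) : ℝ)) := by
    push_cast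
    rw [← Real.log_mul (by positivity) (by positivity)]
    congr 1; ring
  have hlogκ : Real.log κ ≤ κ * ((i : ℝ) + 1) := by
    have := Real.log_le_sub_one_of_pos (show (0 : ℝ) < κ by linarith)
    nlinarith
  have h3 : 1 + Real.log (2 * ((κ * Xn (i + 1) : ℕ) : ℝ)) ≤ (4 + κ) * ((i : ℝ) + 1) := by
    rw [hlog]; linarith
  have h0 : (0 : ℝ) ≤ 1 + Real.log (2 * ((κ * Xn (i + 1) : ℕ) : ℝ)) := by
    have : (1 : ℝ) ≤ 2 * ((κ * Xn (i + 1) : ℕ) : ℝ) := by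
      have : (1 : ℝ) ≤ ((κ * Xn (i + 1) : ℕ) : ℝ) := by exact_mod_cast hX
      linarith
    have := Real.log_nonneg this
    linarith
  set E : ℝ := ((b ^ 2 - 4 * c).natAbs : ℝ) with hE
  have hE0 : 0 ≤ E := by rw [hE]; positivity
  have h4 : ((AT b c (κ * Xn (i + 1)) ((i + 1) ^ 8)).card : ℝ) * ((i : ℝ) + 1) ^ 8 ≤
      192 * E * (κ : ℝ) ^ 2 * (4 + κ) ^ 2 * ((i : ℝ) + 1) ^ 4 * 4 ^ i := by
    have e1 : (((i + 1) ^ 8 : ℕ) : ℝ) = ((i : ℝ) + 1) ^ 8 := by push_cast; rfl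
    rw [e1] at h
    have e2 : (((κ * Xn (i + 1) : ℕ) : ℝ)) ^ 2 = (κ : ℝ) ^ 2 * (Xn (i + 1) : ℝ) ^ 2 := by
      push_cast; ring
    calc _ ≤ 12 * E * (((κ * Xn (i + 1) : ℕ) : ℝ)) ^ 2 *
          (1 + Real.log (2 * ((κ * Xn (i + 1) : ℕ) : ℝ))) ^ 2 := h
      _ ≤ 12 * E * ((κ : ℝ) ^ 2 * (16 * ((i : ℝ) + 1) ^ 2 * 4 ^ i)) *
          ((4 + κ) * ((i : ℝ) + 1)) ^ 2 := by
          rw [e2]; gcongr
      _ = _ := by ring
  have h5 : 192 * E * (κ : ℝ) ^ 2 * (4 + κ) ^ 2 * (4 ^ i / ((i : ℝ) + 1) ^ 4) *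
      ((i : ℝ) + 1) ^ 8 =
      192 * E * (κ : ℝ) ^ 2 * (4 + κ) ^ 2 * ((i : ℝ) + 1) ^ 4 * 4 ^ i := by
    field_simp
  rw [← h5] at h4
  exact le_of_mul_le_mul_right h4 (by positivity)

lemma ev_pow_small (C : ℝ) (k : ℕ) : ∀ᶠ i : ℕ in atTop, C * ((i : ℝ) + 1) ^ k ≤ (4 : ℝ) ^ i := by
  have h : Tendsto (fun n : ℕ => ((n : ℝ)) ^ k / (4 : ℝ) ^ n) atTop (nhds 0) :=
    tendsto_pow_const_div_const_pow_of_one_lt k (by norm_num)
  have h2 : Tendsto (fun n : ℕ => (((n + 1 : ℕ) : ℝ)) ^ k / (4 : ℝ) ^ (n + 1)) atTop (nhds 0) :=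
    h.comp (tendsto_add_atTop_nat 1)
  have h3 : Tendsto (fun n : ℕ => (4 * C) * ((((n + 1 : ℕ) : ℝ)) ^ k / (4 : ℝ) ^ (n + 1))) atTop
      (nhds ((4 * C) * 0)) := h2.const_mul _
  rw [mul_zero] at h3
  filter_upwards [h3.eventually_le_const (show (0 : ℝ) < 1 by norm_num)] with i hi
  rw [← mul_div_assoc, div_le_one (by positivity)] at hi
  push_cast at hi
  rw [pow_succ] at hi
  linarith

lemma bs_alg (κ CA q n Dm κ2 : ℝ) (hn : 0 < n) :
    ((5 + 16 * κ) * n ^ 2) * (2 * (CA * (q / n ^ 4)) +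
      6 * Dm ^ 2 * (n ^ 8) ^ 2 * (Dm ^ 2 * (32 * κ2 ^ 2 * q / n ^ 20))) =
      (5 + 16 * κ) * (2 * CA + 192 * Dm ^ 4 * κ2 ^ 2) * (q / n ^ 2) := by
  field_simp
  ring

lemma bs_step {K K' a a' z z' d : ℝ} (hK : K ≤ K') (hK' : 0 ≤ K') (ha : a ≤ a') (hz : z ≤ z')
    (hd : 0 ≤ d) (ha0 : 0 ≤ a) (hz0 : 0 ≤ z) : K * (2 * a + d * z) ≤ K' * (2 * a' + d * z') := by
  have h1 : 2 * a + d * z ≤ 2 * a' + d * z' := by
    have := mul_le_mul_of_nonneg_left hz hd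
    linarith
  have h0 : 0 ≤ 2 * a + d * z := by positivity
  exact mul_le_mul hK h1 h0 hK'

lemma bs_alg2 (κ2 n q : ℝ) (hn : 0 < n) :
    (32 * κ2 ^ 2 * n ^ 2 * q) / n ^ 22 = 32 * κ2 ^ 2 * q / n ^ 20 := by
  field_simp

theorem badS_small {P : Set ℕ} {a b c : ℤ} (ha : 0 < a) {s T0 : ℤ} (hT0 : 0 ≤ T0)
    (H : Hyp P a b c s T0) {D : ℤ} (hD : D = b ^ 2 - 4 * a * c) {m : ℕ} (hc : Ctx D m)
    (h2a : 2 * a ∣ (m : ℤ)) :
    ∃ C : ℝ, ∀ᶠ i : ℕ in atTop, ((badF P (SS D m) 0 (c0 D m) (Xs m) i).card : ℝ) / 4 ^ i ≤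
      C * (1 / ((i + 1 : ℕ) : ℝ) ^ 2) := by
  classical
  have hk := kap_pos hc
  obtain ⟨κ, hκ⟩ : ∃ κ : ℕ, (κ : ℤ) = kap m := ⟨_, Int.toNat_of_nonneg (by linarith)⟩
  have hκ0 : 0 < κ := by omega
  have hκr : (κ : ℝ) = ((kap m : ℤ) : ℝ) := by rw [← hκ]; push_cast; rfl
  have hκ1 : (1 : ℝ) ≤ κ := by exact_mod_cast hκ0
  set κ2 : ℕ := 4 * κ ^ 2 with hκ2
  have hκ20 : 0 < κ2 := by rw [hκ2]; positivity
  set Dm : ℕ := 3 * κ ^ 2 with hDm
  set E : ℝ := (((0 : ℤ) ^ 2 - 4 * c0 D m).natAbs : ℝ) with hE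
  have hE0 : 0 ≤ E := by rw [hE]; positivity
  have ha0 := a0_pos 0 (c0 D m)
  set CA : ℝ := 192 * E * (κ2 : ℝ) ^ 2 * (4 + κ2) ^ 2 with hCA
  have hCA0 : 0 ≤ CA := by rw [hCA]; positivity
  set CT : ℝ := 4096 + (3 + 8 * κ) + 10 + (5 + 16 * κ) * (2 * CA + 192 * (Dm : ℝ) ^ 4 * (κ2 : ℝ) ^ 2)
    with hCT
  refine ⟨CT, ?_⟩
  -- sparse sets
  have hZ : ∀ᶠ M : ℕ in atTop, ∀ y ∈ Finset.Icc 1 Dm,
      ((ZY P D m y M).card : ℝ) ≤ M / (Real.log M) ^ 22 := by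
    rw [Finset.eventually_all]
    intro y hy
    exact ZY_sparse ha hT0 H hD hc h2a 22 (Finset.mem_Icc.1 hy).1
  obtain ⟨M0, hM0⟩ := eventually_atTop.1 hZ
  have hev1 : ∀ᶠ i : ℕ in atTop, 8 ≤ (4 : ℝ) ^ i * a0 0 (c0 D m) := by
    have ht : Tendsto (fun n : ℕ => (4 : ℝ) ^ n * a0 0 (c0 D m)) atTop atTop :=
      (tendsto_pow_atTop_atTop_of_one_lt (by norm_num)).atTop_mul_const ha0
    exact ht.eventually_ge_atTop 8
  have hev2 := ev_pow_small ((4 + 16 * κ) / a0 0 (c0 D m)) 2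
  have hev3 := ev_pow_small 1 4
  filter_upwards [hev1, hev2, hev3, eventually_ge_atTop (M0 + 2)] with i hi1 hi2 hi3 hiM0
  set n : ℝ := (i : ℝ) + 1 with hn
  have hn1 : 1 ≤ n := by
    have : (0 : ℝ) ≤ i := by positivity
    rw [hn]; linarith
  have hn0 : 0 < n := by linarith
  set q : ℝ := (4 : ℝ) ^ i with hq
  have hqpos : 0 < q := by rw [hq]; positivity
  have hfour : ((4 ^ i : ℕ) : ℝ) = q := by rw [hq]; push_cast; rfl
  have hMx : ((Mx 0 (c0 D m) i : ℕ) : ℝ) ≤ q * (a0 0 (c0 D m) / 2) + 1 := by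
    unfold Mx
    rw [hfour]
    have : ((⌊q * (a0 0 (c0 D m) / 2)⌋₊ : ℕ) : ℝ) ≤ q * (a0 0 (c0 D m) / 2) :=
      Nat.floor_le (by positivity)
    push_cast
    linarith
  have hjlt : ∀ j : ℕ, j < Mx 0 (c0 D m) i → (j : ℝ) ≤ q * (a0 0 (c0 D m) / 2) := by
    intro j hj
    have : (j : ℝ) + 1 ≤ (Mx 0 (c0 D m) i : ℕ) := by exact_mod_cast hj
    linarith
  have hKle : Kr m i ≤ (2 + 8 * κ) * n ^ 2 := by
    unfold Kr
    rw [← hκr]
    have : 1 ≤ n ^ 2 := one_le_pow₀ hn1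
    nlinarith
  have hKpos : 0 ≤ Kr m i := by
    unfold Kr
    rw [← hκr]
    positivity
  have hKa : Kr m i ≤ q * (a0 0 (c0 D m) / 2) := by
    rw [div_mul_eq_mul_div, div_le_iff₀ ha0] at hi2
    linarith
  set X : ℤ := Xs m (i + 1) with hX
  have hX0 : 0 ≤ X := Xs_nonneg hc _
  have hX2 : 2 * kap m * X = ((κ2 * Xn (i + 1) : ℕ) : ℤ) := by
    rw [hX, hκ2]; unfold Xs; rw [← hκ]; push_cast; ring
  -- the four sets
  set A := (range (Mx 0 (c0 D m) i)).filter (fun j : ℕ =>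
    ¬ Pop 0 (c0 D m) (2 * 4 ^ i) (Xn i : ℤ) (2 * j) ∨
    ¬ Pop 0 (c0 D m) (2 * 4 ^ i) (Xn i : ℤ) (2 * j + 1)) with hA
  set B := (range (Mx 0 (c0 D m) i)).filter (fun j : ℕ => (j : ℝ) < Kr m i) with hB
  set CC := (range (Mx 0 (c0 D m) i)).filter (fun j : ℕ => ∃ w : ℤ × ℤ, 0 < w.1 ∧
    (j : ℝ) ≤ q * ang 0 (c0 D m) w ∧ q * ang 0 (c0 D m) w < j + 2 ∧
    (i + 1) * w.1 < (2 : ℤ) ^ i) with hCC
  set DD := (range (Mx 0 (c0 D m) i)).filter (fun j : ℕ => Kr m i ≤ (j : ℝ) ∧ ∃ s s' : ℤ × ℤ,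
    Sp D m s ∧ Sp D m s' ∧ s.1 ≤ 2 * kap m * X ∧ s'.1 ≤ 2 * kap m * X ∧
    |q * ang 0 (c0 D m) s - j| ≤ Kr m i ∧ |q * ang 0 (c0 D m) s' - j| ≤ Kr m i ∧
    0 < det s s' ∧ det s s' ≤ 3 * kap m ^ 2 ∧ col P 0 (c0 D m) s ≠ col P 0 (c0 D m) s') with hDD
  have hsub : badF P (SS D m) 0 (c0 D m) (Xs m) i ⊆ A ∪ (B ∪ (CC ∪ DD)) := by
    intro j hj
    unfold badF at hj
    rw [mem_filter] at hj
    obtain ⟨hjr, hjn⟩ := hj
    by_contra hcon
    rw [mem_union, mem_union, mem_union] at hcon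
    push Not at hcon
    obtain ⟨hnA, hnB, hnC, hnD⟩ := hcon
    have hA' : Pop 0 (c0 D m) (2 * 4 ^ i) (Xn i : ℤ) (2 * j) ∧
        Pop 0 (c0 D m) (2 * 4 ^ i) (Xn i : ℤ) (2 * j + 1) := by
      by_contra h
      apply hnA
      rw [hA, mem_filter]
      exact ⟨hjr, by tauto⟩
    have hB' : Kr m i ≤ (j : ℝ) := by
      by_contra h
      apply hnB
      rw [hB, mem_filter]
      exact ⟨hjr, not_le.1 h⟩
    apply hjn
    refine ⟨?_, pop_half hc hA'.1 hA'.2⟩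
    apply mono_of hc (by omega) hX0
    · intro w _ hw0 h1 h2
      by_contra h
      apply hnC
      rw [hCC, mem_filter]
      exact ⟨hjr, w, hw0, h1, h2, not_le.1 h⟩
    · intro s s' h1 h2 h3 h4 h5 h6 h7 h8
      by_contra h
      apply hnD
      rw [hDD, mem_filter]
      exact ⟨hjr, hB', s, s', h1, h2, h3, h4, h5, h6, h7, h8, h⟩
  have hcard : ((badF P (SS D m) 0 (c0 D m) (Xs m) i).card : ℝ) ≤
      A.card + (B.card + (CC.card + DD.card)) := by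
    have h1 := card_le_card hsub
    have h2 := card_union_le A (B ∪ (CC ∪ DD))
    have h3 := card_union_le B (CC ∪ DD)
    have h4 := card_union_le CC DD
    have h5 : (badF P (SS D m) 0 (c0 D m) (Xs m) i).card ≤
      A.card + (B.card + (CC.card + DD.card)) := by omega
    exact_mod_cast h5
  -- bound for A
  have hXn : 0 < Xn i := by unfold Xn; positivity
  have hAc : (A.card : ℝ) ≤ 4096 * (q / n ^ 2) := by
    set U := (range (2 * Mx 0 (c0 D m) i)).filter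
      (fun j => ¬ Pop 0 (c0 D m) (2 * 4 ^ i) (Xn i : ℤ) j) with hU
    have h1 : A.card ≤ U.card := by
      apply card_le_card_of_injOn (fun j =>
        if Pop 0 (c0 D m) (2 * 4 ^ i) (Xn i : ℤ) (2 * j) then 2 * j + 1 else 2 * j)
      · intro j hj
        rw [hA, mem_coe, mem_filter, mem_range] at hj
        rw [hU, mem_coe, mem_filter, mem_range]
        by_cases hp : Pop 0 (c0 D m) (2 * 4 ^ i) (Xn i : ℤ) (2 * j)
        · simp only [if_pos hp]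
          refine ⟨by omega, ?_⟩
          rcases hj.2 with h | h
          · exact absurd hp h
          · exact h
        · simp only [if_neg hp]
          exact ⟨by omega, hp⟩
      · intro j _ j' _ heq
        simp only at heq
        split_ifs at heq <;> omega
    have h2 := unpop_count (b := 0) (c := c0 D m) (L := 2 * 4 ^ i) (X0 := Xn i) (by positivity) hXn
      (2 * Mx 0 (c0 D m) i) (by
        push_cast
        rw [← hq]
        linarith) U (fun j hj => by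
        rw [hU, mem_filter, mem_range] at hj
        exact hj)
    have h3 : (A.card : ℝ) ≤ U.card := by exact_mod_cast h1
    refine (h3.trans h2).trans (le_of_eq ?_)
    have e : ((Xn i : ℕ) : ℝ) ^ 2 = n ^ 2 * q := by
      unfold Xn
      push_cast
      rw [mul_pow, ← pow_mul, mul_comm i 2, pow_mul, hq, hn]
      norm_num
    rw [e]
    push_cast
    rw [← hq]
    field_simp
    ring
  -- bound for B
  have hqn4 : n ^ 4 ≤ q := by
    rw [one_mul] at hi3; exact hi3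
  have hn2q : n ^ 2 ≤ q / n ^ 2 := by
    rw [le_div_iff₀ (by positivity)]
    calc n ^ 2 * n ^ 2 = n ^ 4 := by ring
      _ ≤ q := hqn4
  have hBc : (B.card : ℝ) ≤ (3 + 8 * κ) * (q / n ^ 2) := by
    have h1 : B ⊆ range ⌈Kr m i⌉₊ := by
      intro j hj
      rw [hB, mem_filter] at hj
      rw [mem_range]
      exact Nat.lt_ceil.2 hj.2
    have h2 := card_le_card h1
    rw [card_range] at h2
    have h3 : (B.card : ℝ) ≤ (⌈Kr m i⌉₊ : ℕ) := by exact_mod_cast h2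
    have h4 : ((⌈Kr m i⌉₊ : ℕ) : ℝ) < Kr m i + 1 := Nat.ceil_lt_add_one hKpos
    have h5 : 1 ≤ n ^ 2 := one_le_pow₀ hn1
    calc (B.card : ℝ) ≤ (2 + 8 * κ) * n ^ 2 + n ^ 2 := by linarith
      _ = (3 + 8 * κ) * n ^ 2 := by ring
      _ ≤ (3 + 8 * κ) * (q / n ^ 2) := by gcongr
  -- bound for CC
  have hsecj : ∀ j : ℕ, j < Mx 0 (c0 D m) i → ∀ w : ℤ × ℤ, 0 < w.1 →
      (j : ℝ) ≤ q * ang 0 (c0 D m) w → q * ang 0 (c0 D m) w < j + 2 → Sec 0 (c0 D m) w := by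
    intro j hj w hw h1 h2
    have h3 := hjlt j hj
    apply sec_of_ang hw
    · have : 0 ≤ q * ang 0 (c0 D m) w := le_trans (by positivity) h1
      exact nonneg_of_mul_nonneg_right this hqpos
    · have : q * ang 0 (c0 D m) w ≤ q * a0 0 (c0 D m) := by linarith
      exact le_of_mul_le_mul_left this hqpos
  have hCc : (CC.card : ℝ) ≤ 10 * (q / n ^ 2) := by
    have hex : ∀ j ∈ CC, ∃ w : ℤ × ℤ, 0 < w.1 ∧
        (j : ℝ) ≤ q * ang 0 (c0 D m) w ∧ q * ang 0 (c0 D m) w < j + 2 ∧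
        (i + 1) * w.1 < (2 : ℤ) ^ i := by
      intro j hj
      rw [hCC, mem_filter] at hj
      exact hj.2
    choose! w hw1 hw2 hw3 hw4 using hex
    set N1 : ℕ := 2 ^ i / (i + 1) with hN1
    set V : Finset (ℤ × ℤ) := Finset.Icc (1 : ℤ) N1 ×ˢ Finset.Icc (0 : ℤ) N1 with hV
    have h1 := group_card (b := 0) (c := c0 D m) (L := 4 ^ i) (K := 2) (by norm_num) w CC V (by
      intro j hj
      have hjr : j < Mx 0 (c0 D m) i := by
        have := hj; rw [hCC, mem_filter, mem_range] at this; exact this.1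
      have hsec := hsecj j hjr (w j) (hw1 j hj) (hw2 j hj) (hw3 j hj)
      have hB1 := one_le_BB 0 (c0 D m)
      have h21 : (w j).2 ≤ (w j).1 := by
        have h3 := hsec.2.2
        have h4 := hsec.2.1
        nlinarith
      have h5 : (w j).1 ≤ N1 := by
        have h6 := hw4 j hj
        obtain ⟨x, hx⟩ : ∃ x : ℕ, (x : ℤ) = (w j).1 := ⟨_, Int.toNat_of_nonneg (hw1 j hj).le⟩
        rw [← hx] at h6 ⊢
        have h7 : (i + 1) * x < 2 ^ i := by exact_mod_cast h6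
        have h8 : x ≤ N1 := by
          rw [hN1, Nat.le_div_iff_mul_le (by omega)]
          rw [mul_comm]; exact h7.le
        exact_mod_cast h8
      rw [hV, mem_product, Finset.mem_Icc, Finset.mem_Icc]
      have := hw1 j hj
      exact ⟨⟨by omega, h5⟩, hsec.2.1, by omega⟩) (by
      intro j hj
      rw [hfour, abs_le]
      constructor
      · linarith [hw2 j hj]
      · linarith [hw3 j hj])
    have hVc : (V.card : ℝ) ≤ 2 * (q / n ^ 2) := by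
      have h2 : V.card ≤ 2 * N1 ^ 2 := by
        rw [hV, card_product, Int.card_Icc, Int.card_Icc]
        have e1 : ∀ x : ℕ, ((x : ℤ) + 1 - 1).toNat = x := by intro x; omega
        have e2 : ∀ x : ℕ, ((x : ℤ) + 1 - 0).toNat = x + 1 := by intro x; omega
        rw [e1, e2]
        have : N1 ≤ N1 ^ 2 := Nat.le_self_pow (by norm_num) _
        calc N1 * (N1 + 1) = N1 ^ 2 + N1 := by ring
          _ ≤ 2 * N1 ^ 2 := by omega
      have h3 : (N1 : ℝ) ≤ 2 ^ i / n := by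
        rw [hN1, hn]
        have := @Nat.cast_div_le ℝ _ _ _ (2 ^ i) (i + 1)
        push_cast at this
        exact this
      have h4 : (V.card : ℝ) ≤ 2 * (N1 : ℝ) ^ 2 := by exact_mod_cast h2
      calc (V.card : ℝ) ≤ 2 * (N1 : ℝ) ^ 2 := h4
        _ ≤ 2 * (2 ^ i / n) ^ 2 := by gcongr
        _ = 2 * (q / n ^ 2) := by
            rw [div_pow, ← pow_mul, mul_comm i 2, pow_mul, hq]
            norm_num
    calc (CC.card : ℝ) ≤ V.card * (2 * 2 + 1) := h1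
      _ ≤ (2 * (q / n ^ 2)) * (2 * 2 + 1) := by gcongr
      _ = 10 * (q / n ^ 2) := by ring
  -- bound for DD
  have hDc : (DD.card : ℝ) ≤
      (5 + 16 * κ) * (2 * CA + 192 * (Dm : ℝ) ^ 4 * (κ2 : ℝ) ^ 2) * (q / n ^ 2) := by
    have hex : ∀ j ∈ DD, ∃ s s' : ℤ × ℤ,
        Sp D m s ∧ Sp D m s' ∧ s.1 ≤ 2 * kap m * X ∧ s'.1 ≤ 2 * kap m * X ∧
        |q * ang 0 (c0 D m) s - j| ≤ Kr m i ∧ |q * ang 0 (c0 D m) s' - j| ≤ Kr m i ∧
        0 < det s s' ∧ det s s' ≤ 3 * kap m ^ 2 ∧ col P 0 (c0 D m) s ≠ col P 0 (c0 D m) s' := by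
      intro j hj
      rw [hDD, mem_filter] at hj
      exact hj.2.2
    choose! u v hu hv huX hvX hun hvn hd1 hd2 hcol using hex
    have hjD : ∀ j ∈ DD, j < Mx 0 (c0 D m) i ∧ Kr m i ≤ (j : ℝ) := by
      intro j hj
      rw [hDD, mem_filter, mem_range] at hj
      exact ⟨hj.1, hj.2.1⟩
    have hsec : ∀ j ∈ DD, ∀ w : ℤ × ℤ, 0 < w.1 → |q * ang 0 (c0 D m) w - j| ≤ Kr m i →
        Sec 0 (c0 D m) w := by
      intro j hj w hw hwn
      obtain ⟨h1, h2⟩ := hjD j hj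
      have h3 := hjlt j h1
      have h4 := abs_le.1 hwn
      apply sec_of_ang hw
      · have : 0 ≤ q * ang 0 (c0 D m) w := by linarith [h4.1]
        exact nonneg_of_mul_nonneg_right this hqpos
      · have : q * ang 0 (c0 D m) w ≤ q * a0 0 (c0 D m) := by linarith [h4.2]
        exact le_of_mul_le_mul_left this hqpos
    set M : ℕ := 2 * (κ2 * Xn (i + 1)) ^ 2 with hM
    have hgc := gen_count (b := 0) (c := c0 D m) (L := 4 ^ i) (K := Kr m i) hKpos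
      (κ2 * Xn (i + 1)) ((i + 1) ^ 8) Dm DD u v
      (fun j hj => ⟨hsec j hj _ (hu j hj).2.2.1 (hun j hj), (hu j hj).1, by
        rw [← hX2]; exact huX j hj, by rw [hfour]; exact hun j hj⟩)
      (fun j hj => ⟨hsec j hj _ (hv j hj).2.2.1 (hvn j hj), (hv j hj).1, by
        rw [← hX2]; exact hvX j hj, by rw [hfour]; exact hvn j hj⟩)
      (fun j hj => ⟨hd1 j hj, by
        have := hd2 j hj
        rw [← hκ] at this
        rw [hDm]; push_cast; exact this⟩)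
      (ZP P D m Dm M) (by
        intro j hj
        have hsu := hsec j hj _ (hu j hj).2.2.1 (hun j hj)
        have hsv := hsec j hj _ (hv j hj).2.2.1 (hvn j hj)
        apply pair_ZP hc (hu j hj) (hv j hj) hsu hsv (hd1 j hj) (hcol j hj)
        · have := hd2 j hj
          rw [← hκ] at this
          rw [hDm]; push_cast; exact this
        · have h1 := (lab_bounds hsu hsv).2
          have hu1 := (hu j hj).2.2.1
          have hv1 := (hv j hj).2.2.1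
          have hu2 := huX j hj
          have hv2 := hvX j hj
          rw [hX2] at hu2 hv2
          have h2 : (u j).1 * (v j).1 ≤ ((κ2 * Xn (i + 1) : ℕ) : ℤ) * ((κ2 * Xn (i + 1) : ℕ) : ℤ) := by
            gcongr
          have h3 : 0 < (u j).1 * (v j).1 := mul_pos hu1 hv1
          have h4 : (M : ℤ) = 2 * (((κ2 * Xn (i + 1) : ℕ) : ℤ) * ((κ2 * Xn (i + 1) : ℕ) : ℤ)) := by
            rw [hM]; push_cast; ring
          rw [h4]
          linarith)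
    have hATs := AT_small' hc.nsq' κ2 hκ20 i
    rw [← hE, ← hn, ← hq] at hATs
    have hATs' : ((AT 0 (c0 D m) (κ2 * Xn (i + 1)) ((i + 1) ^ 8)).card : ℝ) ≤ CA * (q / n ^ 4) := by
      rw [hCA]; exact hATs
    have hκ2r : (1 : ℝ) ≤ κ2 := by exact_mod_cast hκ20
    have hMge : M0 ≤ M := by
      rw [hM]
      have h1 : i ≤ κ2 * Xn (i + 1) := by
        unfold Xn
        calc i ≤ 1 * ((i + 1 + 1) * 1) := by omega
          _ ≤ κ2 * ((i + 1 + 1) * 2 ^ (i + 1)) := by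
            gcongr
            · exact hκ20
            · exact Nat.one_le_two_pow
      have h2 : κ2 * Xn (i + 1) ≤ (κ2 * Xn (i + 1)) ^ 2 := Nat.le_self_pow (by norm_num) _
      omega
    have hlog : n ≤ Real.log M := by
      have h1 := log_two_Xsq_ge i
      refine h1.trans ?_
      apply Real.log_le_log
      · have : 0 < 2 * (Xn (i + 1)) ^ 2 := by unfold Xn; positivity
        exact_mod_cast this
      · have : 2 * (Xn (i + 1)) ^ 2 ≤ M := by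
          rw [hM]
          have h2 : Xn (i + 1) ≤ κ2 * Xn (i + 1) := Nat.le_mul_of_pos_left _ hκ20
          gcongr
        exact_mod_cast this
    have hMle : (M : ℝ) ≤ 32 * (κ2 : ℝ) ^ 2 * n ^ 2 * q := by
      have h1 := Xn_sq_le i
      rw [hM]
      push_cast
      rw [← hn, ← hq] at h1
      calc 2 * ((κ2 : ℝ) * (Xn (i + 1) : ℝ)) ^ 2 = 2 * (κ2 : ℝ) ^ 2 * (Xn (i + 1) : ℝ) ^ 2 := by ring
        _ ≤ 2 * (κ2 : ℝ) ^ 2 * (16 * n ^ 2 * q) := by gcongr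
        _ = _ := by ring
    have hMlog0 : 0 ≤ (M : ℝ) / (Real.log M) ^ 22 := by
      have : 0 ≤ Real.log M := Real.log_natCast_nonneg M
      positivity
    have hZPc := ZP_card P D m Dm M _ hMlog0 (hM0 M hMge)
    have hZ2 : ((ZP P D m Dm M).card : ℝ) ≤ (Dm : ℝ) ^ 2 * (32 * (κ2 : ℝ) ^ 2 * q / n ^ 20) := by
      refine hZPc.trans ?_
      have h1 : (M : ℝ) / (Real.log M) ^ 22 ≤ (32 * (κ2 : ℝ) ^ 2 * n ^ 2 * q) / n ^ 22 := by
        gcongr
      have h2 : (32 * (κ2 : ℝ) ^ 2 * n ^ 2 * q) / n ^ 22 = 32 * (κ2 : ℝ) ^ 2 * q / n ^ 20 :=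
        bs_alg2 _ _ _ hn0
      rw [h2] at h1
      gcongr
    refine hgc.trans ?_
    have e1 : (((i + 1) ^ 8 : ℕ) : ℝ) = n ^ 8 := by rw [hn]; push_cast; rfl
    rw [e1]
    have h2K : 2 * Kr m i + 1 ≤ (5 + 16 * κ) * n ^ 2 := by
      have : 1 ≤ n ^ 2 := one_le_pow₀ hn1
      linarith
    calc (2 * Kr m i + 1) * (2 * ((AT 0 (c0 D m) (κ2 * Xn (i + 1)) ((i + 1) ^ 8)).card : ℝ) +
        6 * (Dm : ℝ) ^ 2 * (n ^ 8) ^ 2 * ((ZP P D m Dm M).card : ℝ))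
        ≤ ((5 + 16 * κ) * n ^ 2) * (2 * (CA * (q / n ^ 4)) +
          6 * (Dm : ℝ) ^ 2 * (n ^ 8) ^ 2 * ((Dm : ℝ) ^ 2 * (32 * (κ2 : ℝ) ^ 2 * q / n ^ 20))) :=
          bs_step h2K (by positivity) hATs' hZ2 (by positivity) (Nat.cast_nonneg _)
            (Nat.cast_nonneg _)
      _ = _ := bs_alg _ _ _ _ _ _ hn0
  rw [div_le_iff₀ hqpos]
  have e2 : ((i + 1 : ℕ) : ℝ) = n := by rw [hn]; push_cast; rfl
  rw [e2]
  calc ((badF P (SS D m) 0 (c0 D m) (Xs m) i).card : ℝ)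
      ≤ A.card + (B.card + (CC.card + DD.card)) := hcard
    _ ≤ 4096 * (q / n ^ 2) + ((3 + 8 * κ) * (q / n ^ 2) + (10 * (q / n ^ 2) +
      (5 + 16 * κ) * (2 * CA + 192 * (Dm : ℝ) ^ 4 * (κ2 : ℝ) ^ 2) * (q / n ^ 2))) :=
        add_le_add hAc (add_le_add hBc (add_le_add hCc hDc))
    _ = _ := by rw [hCT]; ring

end Pool.Agent.Lib.MP_a17b09_nt
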