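import Pool.Agent.Lib.QuadParity.Count

set_option autoImplicit false

open Finset Filter

namespace Pool.Agent.Lib.MP_a17b09_nt

open Pool.Agent.Lib.MP_369a91_nt Pool.Agent.Lib.QuadParity

/-- the upper bound of the pure sieve of Brun -/
theorem brun_pure (bad : ℕ → ℕ → Prop) (hper : Per bad) (P : Finset ℕ) (hP : ∀ q ∈ P, q.Prime)
    (r : ℕ) (hr : Even r) (M : ℕ) :
    open Classical in
    (((range M).filter (fun s => ∀ q ∈ P, ¬ bad q s)).card : ℝ) ≤
      M * (Real.exp (-∑ q ∈ P, (nb bad q : ℝ) / q) +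
        (∑ q ∈ P, (nb bad q : ℝ) / q) ^ (r + 1) / ((r + 1).factorial : ℝ)) +
      (1 + ∑ q ∈ P, (nb bad q : ℝ)) ^ r := by
  classical
  set g : ℕ → ℝ := fun q => (nb bad q : ℝ) / q with hg
  have hnb : ∀ q, (nb bad q : ℝ) ≤ q := by
    intro q
    unfold nb
    have := card_filter_le (range q) (fun s => bad q s)
    rw [card_range] at this
    exact_mod_cast this
  have hg0 : ∀ q, 0 ≤ g q := fun q => by rw [hg]; positivity
  have hg1 : ∀ q, g q ≤ 1 := by
    intro q
    rw [hg]
    simp only
    rcases Nat.eq_zero_or_pos q with h | h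
    · subst h; simp
    · rw [div_le_one (by exact_mod_cast h)]; exact hnb q
  set h : ℕ → ℕ → ℝ := fun s q => if bad q s then 1 else 0 with hh
  have hh0 : ∀ s q, 0 ≤ h s q := by
    intro s q; rw [hh]; simp only; split_ifs <;> norm_num
  have hh1 : ∀ s q, h s q ≤ 1 := by
    intro s q; rw [hh]; simp only; split_ifs <;> norm_num
  have hind : ∀ s, (if (∀ q ∈ P, ¬ bad q s) then (1 : ℝ) else 0) = ∏ q ∈ P, (1 - h s q) := by
    intro s
    split_ifs with hc
    · symm
      apply prod_eq_one
      intro q hq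
      rw [hh]; simp only
      rw [if_neg (hc q hq)]; ring
    · push Not at hc
      obtain ⟨q, hq, hb⟩ := hc
      symm
      apply prod_eq_zero hq
      rw [hh]; simp only
      rw [if_pos hb]; ring
  have h1 : (((range M).filter (fun s => ∀ q ∈ P, ¬ bad q s)).card : ℝ) =
      ∑ s ∈ range M, ∏ q ∈ P, (1 - h s q) := by
    rw [card_filter, Nat.cast_sum]
    apply sum_congr rfl
    intro s _
    rw [← hind s]
    split_ifs <;> simp
  have h2 : ∑ s ∈ range M, ∏ q ∈ P, (1 - h s q) ≤ ∑ s ∈ range M, tr P (h s) r :=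
    sum_le_sum (fun s _ => (bonferroni P (h s) (hh0 s) (hh1 s)).1 r hr)
  have hprod : ∀ s (D : Finset ℕ), ∏ q ∈ D, h s q = if (∀ q ∈ D, bad q s) then 1 else 0 := by
    intro s D
    split_ifs with hc
    · apply prod_eq_one
      intro q hq
      rw [hh]; simp only
      rw [if_pos (hc q hq)]
    · push Not at hc
      obtain ⟨q, hq, hb⟩ := hc
      apply prod_eq_zero hq
      rw [hh]; simp only
      rw [if_neg hb]
  have h3 : ∀ j, ∑ s ∈ range M, es P (h s) j = ∑ D ∈ P.powersetCard j,
      (((range M).filter (fun s => ∀ q ∈ D, bad q s)).card : ℝ) := by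
    intro j
    unfold es
    rw [sum_comm]
    apply sum_congr rfl
    intro D _
    rw [card_filter, Nat.cast_sum]
    apply sum_congr rfl
    intro s _
    rw [hprod]
    split_ifs <;> simp
  have h4 : ∀ j, |∑ s ∈ range M, es P (h s) j - M * es P g j| ≤
      es P (fun q => (nb bad q : ℝ)) j := by
    intro j
    rw [h3]
    unfold es
    rw [mul_sum, ← sum_sub_distrib]
    refine (abs_sum_le_sum_abs _ _).trans (sum_le_sum ?_)
    intro D hD
    rw [mem_powersetCard] at hD
    exact count_bad bad hper D (fun q hq => hP q (hD.1 hq)) M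
  have h5 : ∑ s ∈ range M, tr P (h s) r ≤ M * tr P g r +
      ∑ j ∈ range (r + 1), es P (fun q => (nb bad q : ℝ)) j := by
    unfold tr
    rw [sum_comm, mul_sum, ← sum_add_distrib]
    apply sum_le_sum
    intro j _
    rw [← mul_sum]
    have h6 := abs_le.1 (h4 j)
    rcases neg_one_pow_eq_or ℝ j with e | e
    · rw [e]; linarith [h6.2]
    · rw [e]; linarith [h6.1]
  have h6 : tr P g r ≤ Real.exp (-∑ q ∈ P, g q) +
      (∑ q ∈ P, g q) ^ (r + 1) / ((r + 1).factorial : ℝ) := by
    have hodd : Odd (r + 1) := Even.add_one hr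
    have h7 := (bonferroni P g hg0 hg1).2 (r + 1) hodd
    rw [tr_succ, hodd.neg_one_pow] at h7
    have h8 := es_le P g hg0 (r + 1)
    have h9 : ∏ q ∈ P, (1 - g q) ≤ Real.exp (-∑ q ∈ P, g q) := by
      rw [← sum_neg_distrib, Real.exp_sum]
      apply Finset.prod_le_prod
      · intro q _; linarith [hg1 q]
      · intro q _
        have := Real.add_one_le_exp (-g q)
        linarith
    linarith
  have h7 : ∑ j ∈ range (r + 1), es P (fun q => (nb bad q : ℝ)) j ≤
      (1 + ∑ q ∈ P, (nb bad q : ℝ)) ^ r := by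
    have hy : 0 ≤ ∑ q ∈ P, (nb bad q : ℝ) := sum_nonneg (fun q _ => by positivity)
    refine le_trans (sum_le_sum ?_) (geom_le _ hy r)
    intro j _
    have h8 := es_le P (fun q => (nb bad q : ℝ)) (fun q => by positivity) j
    refine h8.trans ?_
    apply div_le_self (by positivity)
    exact_mod_cast Nat.factorial_pos j
  rw [h1]
  have hM : (0 : ℝ) ≤ M := by positivity
  have h8 := mul_le_mul_of_nonneg_left h6 hM
  linarith

end Pool.Agent.Lib.MP_a17b09_nt
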