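import Pool.Agent.Lib.MP_a17b09_nt.Z.Brun
import Pool.Agent.Lib.MP_a17b09_nt.Q.Tau

set_option autoImplicit false

open Finset Filter

namespace Pool.Agent.Lib.MP_a17b09_nt

open Pool.Agent.Lib.MP_369a91_nt Pool.Agent.Lib.QuadParity

/-- sifting level -/
noncomputable def zz (M : ℕ) : ℕ := ⌊Real.exp ((Real.log M) ^ (1 / 3 : ℝ))⌋₊

lemma tendsto_lam : Tendsto (fun M : ℕ => (Real.log M) ^ (1 / 3 : ℝ)) atTop atTop :=
  (tendsto_rpow_atTop (by norm_num)).comp (Real.tendsto_log_atTop.comp tendsto_natCast_atTop_atTop)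

lemma exp_two_le : Real.exp 2 ≤ 8 := by
  have h := Real.exp_one_lt_d9
  have h0 := Real.exp_pos 1
  have e : Real.exp 2 = Real.exp 1 * Real.exp 1 := by rw [← Real.exp_add]; norm_num
  rw [e]
  nlinarith

lemma lam_facts : ∀ᶠ M : ℕ in atTop, ∀ lam : ℝ, lam = (Real.log M) ^ (1 / 3 : ℝ) →
    (M : ℝ) = Real.exp (lam ^ 3) ∧ Real.log M = lam ^ 3 ∧ 2 ≤ lam ∧
    Real.exp (lam / 2) ≤ zz M ∧ (zz M : ℝ) ≤ Real.exp lam := by
  filter_upwards [tendsto_lam.eventually_ge_atTop 2, eventually_gt_atTop 1] with M h1 hM lam hlam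
  rw [← hlam] at h1
  have hMr : (1 : ℝ) < M := by exact_mod_cast hM
  have hlog : 0 < Real.log M := Real.log_pos hMr
  have h3 : Real.log M = lam ^ 3 := by
    rw [hlam, ← Real.rpow_natCast, ← Real.rpow_mul hlog.le]
    norm_num
  have hz : zz M = ⌊Real.exp lam⌋₊ := by unfold zz; rw [hlam]
  refine ⟨?_, h3, h1, ?_, ?_⟩
  · rw [← h3, Real.exp_log (by linarith)]
  · rw [hz]
    have h4 : Real.exp lam < ⌊Real.exp lam⌋₊ + 1 := Nat.lt_floor_add_one _
    have h5 : Real.exp lam = Real.exp (lam / 2) * Real.exp (lam / 2) := by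
      rw [← Real.exp_add]; congr 1; ring
    have h6 : 2 ≤ Real.exp (lam / 2) := by
      have := Real.add_one_le_exp (lam / 2)
      linarith
    nlinarith
  · rw [hz]
    exact Nat.floor_le (Real.exp_pos _).le

theorem brun_log (bad : ℕ → ℕ → Prop) (hper : Per bad) (C0 F : ℕ)
    (hF : ∀ q : ℕ, q.Prime → C0 < q → nb bad q ≤ F) (A : ℕ) (B C : ℝ) (hB : 3 * (A : ℝ) + 1 ≤ B)
    (z0 : ℕ) (hlow : ∀ z : ℕ, z0 ≤ z → B * Real.log (Real.log z) - C ≤
      ∑ q ∈ (Finset.Ioc C0 z).filter (fun q => q.Prime), (nb bad q : ℝ) / q) :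
    open Classical in
    ∀ᶠ M : ℕ in atTop, (((range M).filter (fun s => ∀ q ∈ (Finset.Ioc C0 (zz M)).filter
      (fun q => q.Prime), ¬ bad q s)).card : ℝ) ≤ M / (Real.log M) ^ A := by
  classical
  have hB0 : 0 < B := by
    have : (0 : ℝ) ≤ A := by positivity
    linarith
  set K : ℝ := Real.exp (C + B * Real.log 2) with hK
  have hKpos : 0 < K := Real.exp_pos _
  have ht1 : ∀ᶠ M : ℕ in atTop, 3 * K ≤ (Real.log M) ^ (1 / 3 : ℝ) :=
    tendsto_lam.eventually_ge_atTop _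
  have ht2 : ∀ᶠ M : ℕ in atTop, 18 * ((F : ℝ) + 1) ^ 2 + 1 ≤ (Real.log M) ^ (1 / 3 : ℝ) :=
    tendsto_lam.eventually_ge_atTop _
  have ht3 : ∀ᶠ M : ℕ in atTop, 3 * ((Real.log M) ^ (1 / 3 : ℝ)) ^ (3 * A) ≤
      Real.exp ((Real.log M) ^ (1 / 3 : ℝ)) := by
    have h := Real.tendsto_pow_mul_exp_neg_atTop_nhds_zero (3 * A)
    have h2 : ∀ᶠ x : ℝ in atTop, x ^ (3 * A) * Real.exp (-x) < 1 / 3 :=
      h.eventually_lt_const (by norm_num)
    filter_upwards [tendsto_lam.eventually h2] with M hM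
    rw [Real.exp_neg, ← div_eq_mul_inv, div_lt_iff₀ (Real.exp_pos _)] at hM
    linarith
  have ht4 : ∀ᶠ M : ℕ in atTop, (z0 : ℝ) ≤ (Real.log M) ^ (1 / 3 : ℝ) / 2 := by
    filter_upwards [tendsto_lam.eventually_ge_atTop (2 * (z0 : ℝ))] with M hM
    linarith
  filter_upwards [lam_facts, ht1, ht2, ht3, ht4] with M hlam h1 h2 h3 h4
  obtain ⟨lam, hlameq⟩ : ∃ lam : ℝ, lam = (Real.log M) ^ (1 / 3 : ℝ) := ⟨_, rfl⟩
  rw [← hlameq] at h1 h2 h3 h4
  obtain ⟨hMe, hlogM, hlam2, hz1, hz2⟩ := hlam lam hlameq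
  have hlampos : 0 < lam := by linarith
  set P := (Finset.Ioc C0 (zz M)).filter (fun q => q.Prime) with hP
  set S := ∑ q ∈ P, (nb bad q : ℝ) / q with hS
  have hS0 : 0 ≤ S := sum_nonneg (fun q _ => by positivity)
  have hzpos : (0 : ℝ) < zz M := lt_of_lt_of_le (Real.exp_pos _) hz1
  have hzge : z0 ≤ zz M := by
    have : (z0 : ℝ) ≤ zz M := by
      have := Real.add_one_le_exp (lam / 2)
      linarith
    exact_mod_cast this
  -- bounds for S
  have hSlow : Real.exp (-S) ≤ K * Real.exp (-(B * Real.log lam)) := by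
    have h5 := hlow (zz M) hzge
    have h6 : lam / 2 ≤ Real.log (zz M) := by
      rw [Real.le_log_iff_exp_le hzpos]; exact hz1
    have h7 : Real.log lam - Real.log 2 ≤ Real.log (Real.log (zz M)) := by
      rw [← Real.log_div hlampos.ne' (by norm_num)]
      exact Real.log_le_log (by linarith) h6
    rw [hK, ← Real.exp_add]
    apply Real.exp_le_exp.2
    have h8 : B * (Real.log lam - Real.log 2) ≤ B * Real.log (Real.log (zz M)) := by gcongr
    rw [← hS] at h5
    linarith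
  have hSup : S ≤ F * (1 + lam) := by
    have h5 : S ≤ ∑ q ∈ P, (F : ℝ) * (1 / q) := by
      rw [hS]
      apply sum_le_sum
      intro q hq
      rw [hP, mem_filter, Finset.mem_Ioc] at hq
      have : ((nb bad q : ℕ) : ℝ) ≤ F := by exact_mod_cast hF q hq.2 hq.1.1
      rw [mul_one_div]
      gcongr
    have h6 : ∑ q ∈ P, (1 : ℝ) / q ≤ ∑ q ∈ Finset.Icc 1 (zz M), (1 : ℝ) / q := by
      apply sum_le_sum_of_subset_of_nonneg
      · intro q hq
        rw [hP, mem_filter, Finset.mem_Ioc] at hq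
        rw [Finset.mem_Icc]
        exact ⟨hq.2.pos, hq.1.2⟩
      · intro q _ _; positivity
    have h7 := sum_inv_le (zz M)
    have h8 : Real.log (zz M) ≤ lam := by
      rw [Real.log_le_iff_le_exp hzpos]; exact hz2
    rw [← mul_sum] at h5
    calc S ≤ F * ∑ q ∈ P, (1 : ℝ) / q := h5
      _ ≤ F * (1 + lam) := by
        gcongr
        linarith
  -- choice of r
  set r : ℕ := 2 * ⌈4 * ((F : ℝ) + 1) * (1 + lam)⌉₊ with hr
  have hreven : Even r := ⟨⌈4 * ((F : ℝ) + 1) * (1 + lam)⌉₊, by rw [hr]; ring⟩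
  have hrlow : 8 * ((F : ℝ) + 1) * (1 + lam) ≤ r := by
    have := Nat.le_ceil (4 * ((F : ℝ) + 1) * (1 + lam))
    rw [hr]; push_cast; linarith
  have hrup : (r : ℝ) ≤ 18 * ((F : ℝ) + 1) * lam := by
    have := Nat.ceil_lt_add_one (show 0 ≤ 4 * ((F : ℝ) + 1) * (1 + lam) by positivity)
    rw [hr]; push_cast
    have hF0 : (0 : ℝ) ≤ F := by positivity
    nlinarith
  have hmain := brun_pure bad hper P (fun q hq => (mem_filter.1 hq).2) r hreven M
  -- factorial term
  have hfac : S ^ (r + 1) / ((r + 1).factorial : ℝ) ≤ Real.exp (-lam) := by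
    have h5 := Real.pow_div_factorial_le_exp (8 * S) (by positivity) (r + 1)
    rw [mul_pow] at h5
    have h6 : (8 : ℝ) ^ (r + 1) * (S ^ (r + 1) / ((r + 1).factorial : ℝ)) ≤ Real.exp (8 * S) := by
      rw [← mul_div_assoc]; exact h5
    have h7 : Real.exp (2 * ((r + 1 : ℕ) : ℝ)) ≤ (8 : ℝ) ^ (r + 1) := by
      calc Real.exp (2 * ((r + 1 : ℕ) : ℝ)) = (Real.exp 2) ^ (r + 1) := by
            rw [← Real.exp_nat_mul]; congr 1; ring
        _ ≤ 8 ^ (r + 1) := pow_le_pow_left₀ (Real.exp_pos _).le exp_two_le _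
    have h8 : 0 ≤ S ^ (r + 1) / ((r + 1).factorial : ℝ) := by positivity
    have h9 : Real.exp (2 * ((r + 1 : ℕ) : ℝ)) * (S ^ (r + 1) / ((r + 1).factorial : ℝ)) ≤
        Real.exp (8 * S) := by
      refine le_trans ?_ h6
      gcongr
    have h10 : S ^ (r + 1) / ((r + 1).factorial : ℝ) ≤
        Real.exp (8 * S - 2 * ((r + 1 : ℕ) : ℝ)) := by
      rw [Real.exp_sub, le_div_iff₀ (Real.exp_pos _)]
      linarith
    refine h10.trans (Real.exp_le_exp.2 ?_)
    push_cast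
    have hF0 : (0 : ℝ) ≤ F := by positivity
    nlinarith
  -- error term
  have herr : (1 + ∑ q ∈ P, (nb bad q : ℝ)) ^ r ≤ Real.exp (lam ^ 3) * Real.exp (-lam) := by
    have h5 : 1 + ∑ q ∈ P, (nb bad q : ℝ) ≤ ((F : ℝ) + 1) * Real.exp lam := by
      have h6 : ∑ q ∈ P, (nb bad q : ℝ) ≤ ∑ _q ∈ P, (F : ℝ) := by
        apply sum_le_sum
        intro q hq
        rw [hP, mem_filter, Finset.mem_Ioc] at hq
        exact_mod_cast hF q hq.2 hq.1.1
      rw [sum_const, nsmul_eq_mul] at h6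
      have h7 : (P.card : ℝ) ≤ zz M := by
        have h8 : P.card ≤ (Finset.Ioc C0 (zz M)).card := card_filter_le _ _
        rw [Nat.card_Ioc] at h8
        exact_mod_cast h8.trans (Nat.sub_le _ _)
      have h8 : (1 : ℝ) ≤ Real.exp lam := Real.one_le_exp hlampos.le
      have h9 : (P.card : ℝ) * F ≤ Real.exp lam * F := by
        have := h7.trans hz2
        gcongr
      linarith
    have h6 : ((F : ℝ) + 1) ≤ Real.exp ((F : ℝ) * lam) := by
      have h7 := Real.add_one_le_exp ((F : ℝ) * lam)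
      have hF0 : (0 : ℝ) ≤ F := by positivity
      nlinarith
    have h7 : 0 ≤ 1 + ∑ q ∈ P, (nb bad q : ℝ) := by
      have : 0 ≤ ∑ q ∈ P, (nb bad q : ℝ) := sum_nonneg (fun q _ => by positivity)
      linarith
    calc (1 + ∑ q ∈ P, (nb bad q : ℝ)) ^ r ≤ (Real.exp ((F : ℝ) * lam) * Real.exp lam) ^ r := by
          apply pow_le_pow_left₀ h7
          refine h5.trans ?_
          gcongr
      _ = Real.exp (r * (((F : ℝ) + 1) * lam)) := by
          rw [← Real.exp_add, ← Real.exp_nat_mul]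
          congr 1
          ring
      _ ≤ Real.exp (lam ^ 3 + -lam) := by
          apply Real.exp_le_exp.2
          have h8 : (r : ℝ) * (((F : ℝ) + 1) * lam) ≤ (18 * ((F : ℝ) + 1) * lam) *
              (((F : ℝ) + 1) * lam) := by gcongr
          have h9 : (18 * ((F : ℝ) + 1) * lam) * (((F : ℝ) + 1) * lam) =
              (18 * ((F : ℝ) + 1) ^ 2) * lam ^ 2 := by ring
          have h10 : (18 * ((F : ℝ) + 1) ^ 2) * lam ^ 2 ≤ (lam - 1) * lam ^ 2 := by
            have : 18 * ((F : ℝ) + 1) ^ 2 ≤ lam - 1 := by linarith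
            gcongr
          nlinarith
      _ = _ := by rw [Real.exp_add]
  -- final assembly
  have hlogpow : (Real.log M) ^ A = lam ^ (3 * A) := by rw [hlogM, ← pow_mul]
  have hlpow : 0 < lam ^ (3 * A) := by positivity
  rw [hlogpow, le_div_iff₀ hlpow]
  have h5 : K * Real.exp (-(B * Real.log lam)) * lam ^ (3 * A) ≤ 1 / 3 := by
    have e1 : lam ^ (3 * A) = Real.exp ((3 * A : ℕ) * Real.log lam) := by
      rw [← Real.log_pow, Real.exp_log hlpow]
    have h6 : Real.exp (-(B * Real.log lam)) * lam ^ (3 * A) ≤ Real.exp (-Real.log lam) := by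
      rw [e1, ← Real.exp_add]
      apply Real.exp_le_exp.2
      push_cast
      have h7 : 0 ≤ Real.log lam := Real.log_nonneg (by linarith)
      have h8 : (3 * (A : ℝ) + 1) * Real.log lam ≤ B * Real.log lam := by gcongr
      linarith
    rw [Real.exp_neg (Real.log lam), Real.exp_log hlampos] at h6
    calc K * Real.exp (-(B * Real.log lam)) * lam ^ (3 * A)
        = K * (Real.exp (-(B * Real.log lam)) * lam ^ (3 * A)) := by ring
      _ ≤ K * lam⁻¹ := by gcongr
      _ ≤ 1 / 3 := by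
        rw [← div_eq_mul_inv, div_le_iff₀ hlampos]
        linarith
  have h6 : Real.exp (-lam) * lam ^ (3 * A) ≤ 1 / 3 := by
    rw [Real.exp_neg, inv_mul_eq_div, div_le_iff₀ (Real.exp_pos _)]
    linarith
  have hE : 0 < Real.exp (lam ^ 3) := Real.exp_pos _
  calc _ ≤ (M * (Real.exp (-S) + S ^ (r + 1) / ((r + 1).factorial : ℝ)) +
      (1 + ∑ q ∈ P, (nb bad q : ℝ)) ^ r) * lam ^ (3 * A) := by gcongr
    _ ≤ (Real.exp (lam ^ 3) * (K * Real.exp (-(B * Real.log lam)) + Real.exp (-lam)) +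
      Real.exp (lam ^ 3) * Real.exp (-lam)) * lam ^ (3 * A) := by
        rw [hMe]
        gcongr
    _ = Real.exp (lam ^ 3) * (K * Real.exp (-(B * Real.log lam)) * lam ^ (3 * A) +
        Real.exp (-lam) * lam ^ (3 * A) + Real.exp (-lam) * lam ^ (3 * A)) := by ring
    _ ≤ Real.exp (lam ^ 3) * (1 / 3 + 1 / 3 + 1 / 3) := by gcongr
    _ = M := by rw [hMe]; ring

end Pool.Agent.Lib.MP_a17b09_nt
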