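import Pool.Agent.Lib.MP_a17b09_nt.Z.Spec

set_option autoImplicit false

namespace Pool.Agent.Lib.MP_a17b09_nt

/-- `f(t) > 0` with constant sign for `t ≥ T0` -/
def Hyp (P : Set ℕ) (a b c s T0 : ℤ) : Prop :=
  ∀ t : ℤ, T0 ≤ t → 0 < a * t ^ 2 + b * t + c ∧ sgn P (a * t ^ 2 + b * t + c) = s

lemma core_pat {P : Set ℕ} {a b c : ℤ} (ha : 0 < a) {s T0 : ℤ}
    (H : Hyp P a b c s T0) {D : ℤ} (hD : D = b ^ 2 - 4 * a * c) {m : ℕ} (hc : Ctx D m)
    (h2a : 2 * a ∣ (m : ℤ)) {X Y : ℤ} (hX : 0 < X) (hY : 0 < Y) (hcop : IsCoprime X (m * Y))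
    (hJ : jacobiSym D X.natAbs = 1) (hs : sgn P (X ^ 2 - D * m ^ 2 * Y ^ 2) = -1) (z : ℤ)
    (hbig : b * m * Y + z + 2 * a * m * Y * T0 ≤ X) :
    ∃ W ρ : ℕ, (W : ℤ) = 2 * a * m * Y ∧ 0 < W ∧ ρ < W ∧ Nat.Coprime ρ W ∧
      (∀ q : ℕ, q.Prime → q ≡ ρ [MOD W] → ∃ r : ℤ, (q : ℤ) ∣ r ^ 2 - D) ∧
      ∀ q : ℕ, q.Prime → (q : ℤ) ≤ z → q ≡ ρ [MOD W] → ¬ (q : ℤ) ∣ X ^ 2 - D * m ^ 2 * Y ^ 2 := by
  have hm := hc.mz
  have hWpos : 0 < 2 * a * m * Y := by positivity
  set W : ℕ := (2 * a * m * Y).toNat with hW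
  have hWz : (W : ℤ) = 2 * a * m * Y := Int.toNat_of_nonneg hWpos.le
  have hW0 : 0 < W := by omega
  set R : ℤ := (X - b * m * Y) % (W : ℤ) with hR
  have hWz0 : (0 : ℤ) < W := by exact_mod_cast hW0
  have hR0 : 0 ≤ R := Int.emod_nonneg _ hWz0.ne'
  have hRW : R < W := Int.emod_lt_of_pos _ hWz0
  set ρ : ℕ := R.toNat with hρ
  have hρz : (ρ : ℤ) = R := Int.toNat_of_nonneg hR0
  have hρmod : (W : ℤ) ∣ (X - b * m * Y) - ρ := by
    rw [hρz, hR]; exact Int.dvd_self_sub_emod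
  have hcm : IsCoprime X (m : ℤ) := hcop.of_isCoprime_of_dvd_right ⟨Y, rfl⟩
  -- coprimality
  have hcW : IsCoprime (X - b * m * Y) (W : ℤ) := by
    rw [hWz]
    have h1 : IsCoprime (X - b * m * Y) (m * Y) := by
      have e : X - b * m * Y = X + m * Y * (-b) := by ring
      rw [e]; exact hcop.add_mul_left_left _
    have h2 : IsCoprime (X - b * m * Y) (2 * a) := by
      have h3 : IsCoprime (X - b * m * Y) (m : ℤ) := by
        have e : X - b * m * Y = X + m * (-(b * Y)) := by ring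
        rw [e]; exact hcm.add_mul_left_left _
      exact h3.of_isCoprime_of_dvd_right h2a
    have e : 2 * a * m * Y = (2 * a) * (m * Y) := by ring
    rw [e]; exact h2.mul_right h1
  have hρW : Nat.Coprime ρ W := by
    rw [← Nat.isCoprime_iff_coprime]
    obtain ⟨k, hk⟩ := hρmod
    have e : (ρ : ℤ) = (X - b * m * Y) + W * (-k) := by linarith
    rw [e]; exact hcW.add_mul_left_left _
  have hq1 : ∀ q : ℕ, q ≡ ρ [MOD W] → (W : ℤ) ∣ (X - b * m * Y) - q := by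
    intro q hq
    have h1 : (W : ℤ) ∣ (ρ : ℤ) - q := Nat.modEq_iff_dvd.1 hq
    have h2 := dvd_add hρmod h1
    have e : X - b * m * Y - ρ + ((ρ : ℤ) - q) = (X - b * m * Y) - q := by ring
    rwa [e] at h2
  refine ⟨W, ρ, hWz, hW0, by omega, hρW, ?_, ?_⟩
  · intro q hq hqρ
    apply exists_root_of_jac D q hq
    have h1 : (m : ℤ) ∣ X - q := by
      have h2 : (m : ℤ) ∣ (X - b * m * Y) - q := by
        refine dvd_trans ?_ (hq1 q hqρ)
        rw [hWz]; exact ⟨2 * a * Y, by ring⟩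
      have h3 := dvd_add h2 (Dvd.intro (b * Y) rfl : (m : ℤ) ∣ m * (b * Y))
      have e : X - b * m * Y - q + m * (b * Y) = X - q := by ring
      rwa [e] at h3
    have h2 := jac_congr D hX (show (0 : ℤ) < q by exact_mod_cast hq.pos) (hc.odd hcm) (m : ℤ)
      hc.d4 hc.two h1
    rw [hJ] at h2
    rw [Int.natAbs_natCast] at h2
    exact h2.symm
  · intro q hq hqz hqρ hdvd
    obtain ⟨t, ht⟩ := hq1 q hqρ
    have hqpos : (0 : ℤ) < q := by exact_mod_cast hq.pos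
    have htT : T0 ≤ t := by
      by_contra hcon
      push Not at hcon
      have h1 : (W : ℤ) * t < W * T0 := by
        exact mul_lt_mul_of_pos_left hcon hWz0
      rw [← ht, hWz] at h1
      linarith
    have hqW : IsCoprime (q : ℤ) (2 * a * m * Y) := by
      rw [← hWz]
      have e : (q : ℤ) = (X - b * m * Y) + W * (-t) := by linarith
      rw [e]; exact hcW.add_mul_left_left _
    have hk := K1 (P := P) (a := a) (b := b) (c := c) H hm hY hqpos (by rw [← hD]; exact hdvd) hqW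
      (by rw [← hWz]; linarith) htT
    rw [← hD, hs] at hk
    norm_num at hk

lemma pat_of_mem {P : Set ℕ} {a b c : ℤ} (ha : 0 < a) {s T0 : ℤ} (hT0 : 0 ≤ T0)
    (H : Hyp P a b c s T0) {D : ℤ} (hD : D = b ^ 2 - 4 * a * c) {m : ℕ} (hc : Ctx D m)
    (h2a : 2 * a ∣ (m : ℤ)) {y : ℕ} (hy : 0 < y) {x : ℕ} (hx : 0 < x)
    (hcop : IsCoprime (x : ℤ) ((m : ℤ) * y)) (hJ : jacobiSym D x = 1)
    (hs : sgn P ((x : ℤ) ^ 2 - D * m ^ 2 * y ^ 2) = -1) (F z : ℕ)
    (hb1 : |b| * (m * y) + z + 2 * a * (m * y) * T0 ≤ (x : ℤ)) (G : ℤ) (hG : G = F * m * y ^ 2)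
    (hb2 : |D| * m ^ 2 * y ^ 2 + G * (|b| * m * G + z + 2 * a * m * G * T0) ≤ (x : ℤ) ^ 2)
    (k : ℕ) (hk : k ∈ Finset.Icc 1 F) :
    ∃ W ρ : ℕ, 0 < W ∧ (W : ℤ) ≤ k * (2 * a * m ^ 2 * y ^ 2) ∧ ρ < W ∧ Nat.Coprime ρ W ∧
      (∀ q : ℕ, q.Prime → F + m * y < q → q ≡ ρ [MOD W] → ∃ r : ℤ, (q : ℤ) ∣ r ^ 2 - D) ∧
      ∀ q : ℕ, q.Prime → F + m * y < q → q ≤ z → q ≡ ρ [MOD W] →
        ¬ (q : ℤ) ∣ ((x : ℤ) + k * (m * y : ℕ)) ^ 2 - D * (m * y : ℕ) ^ 2 := by
  rw [Finset.mem_Icc] at hk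
  have hm := hc.mz
  have hm1 : (1 : ℤ) ≤ m := hm
  have hyz : (0 : ℤ) < y := by exact_mod_cast hy
  have hy1 : (1 : ℤ) ≤ y := hyz
  have hkz : (0 : ℤ) < k := by exact_mod_cast hk.1
  have hk1 : (1 : ℤ) ≤ k := hkz
  have hkF : (k : ℤ) ≤ F := by exact_mod_cast hk.2
  have hxz : (0 : ℤ) < x := by exact_mod_cast hx
  set v1 : ℤ := (x : ℤ) + k * (m * y) with hv1
  have hv1pos : 0 < v1 := by rw [hv1]; positivity
  have hxv : (x : ℤ) ≤ v1 := by
    have : (0 : ℤ) ≤ k * (m * y) := by positivity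
    rw [hv1]; linarith
  have hcv : IsCoprime v1 ((m : ℤ) * y) := by
    have e : v1 = x + (m * y) * k := by rw [hv1]; ring
    rw [e]; exact hcop.add_mul_left_left _
  have hxm : IsCoprime (x : ℤ) (m : ℤ) := hcop.of_isCoprime_of_dvd_right ⟨y, rfl⟩
  have hvm : IsCoprime v1 (m : ℤ) := hcv.of_isCoprime_of_dvd_right ⟨y, rfl⟩
  have hxy : IsCoprime (x : ℤ) (y : ℤ) := hcop.of_isCoprime_of_dvd_right ⟨m, mul_comm _ _⟩
  have hvy : IsCoprime v1 (y : ℤ) := hcv.of_isCoprime_of_dvd_right ⟨m, mul_comm _ _⟩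
  have hJx : jacobiSym D (x : ℤ).natAbs = 1 := by rw [Int.natAbs_natCast]; exact hJ
  have hJv : jacobiSym D v1.natAbs = 1 := by
    rw [← hJx]
    apply jac_congr D hv1pos hxz (hc.odd hvm) (m : ℤ) hc.d4 hc.two
    exact ⟨k * y, by rw [hv1]; ring⟩
  have hE : 0 < 2 * a * m ^ 2 * (y : ℤ) ^ 2 := by positivity
  have hform : ((x : ℤ) + k * (m * y : ℕ)) ^ 2 - D * (m * y : ℕ) ^ 2 =
      v1 ^ 2 - D * m ^ 2 * y ^ 2 := by
    rw [hv1]; push_cast; ring
  rcases sgn_eq_or P (v1 ^ 2 - D * m ^ 2 * y ^ 2) with hsv | hsv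
  · -- second case
    set X0 : ℤ := v1 * x + D * m ^ 2 * (-y * y) with hX0
    set Y0 : ℤ := v1 * y + -y * x with hY0
    have hY0eq : Y0 = k * m * y ^ 2 := by rw [hY0, hv1]; ring
    have hFpos : (0 : ℤ) < F := lt_of_lt_of_le hkz hkF
    have hGpos : 0 < G := by rw [hG]; positivity
    have hY0G : Y0 ≤ G := by
      rw [hY0eq, hG]; gcongr
    have hX0low : (x : ℤ) ^ 2 - |D| * m ^ 2 * y ^ 2 ≤ X0 := by
      have h1 : (x : ℤ) * x ≤ v1 * x := by gcongr
      have h2 : D * (m ^ 2 * y ^ 2) ≤ |D| * (m ^ 2 * y ^ 2) := by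
        have := le_abs_self D
        gcongr
      have e1 : X0 = v1 * x - D * (m ^ 2 * y ^ 2) := by rw [hX0]; ring
      have e2 : |D| * m ^ 2 * y ^ 2 = |D| * ((m : ℤ) ^ 2 * (y : ℤ) ^ 2) := by ring
      rw [e1, e2, sq (x : ℤ)]
      linarith
    have hin : 0 ≤ |b| * m * G + z + 2 * a * m * G * T0 := by positivity
    have hX0pos : 0 < X0 := by
      rcases eq_or_lt_of_le hin with h0 | h0
      · -- then z = 0 and so on; use that x is large anyway
        have h1 : 0 ≤ G * (|b| * m * G + z + 2 * a * m * G * T0) := by positivity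
        have hX0nn : 0 ≤ X0 := by linarith
        rcases eq_or_lt_of_le hX0nn with h2 | h2
        · exfalso
          have hcX : IsCoprime X0 (m : ℤ) := by
            have e : X0 = v1 * x + m * (D * m * (-y * y)) := by rw [hX0]; ring
            rw [e]; exact (hvm.mul_left hxm).add_mul_left_left _
          rw [← h2] at hcX
          have h3 := Int.isUnit_iff.1 (isCoprime_zero_left.1 hcX)
          have h8 : (8 : ℤ) ≤ m := by
            have := Nat.le_of_dvd hc.mpos hc.d8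
            exact_mod_cast this
          rcases h3 with h3 | h3 <;> omega
        · exact h2
      · have h1 : 0 < G * (|b| * m * G + z + 2 * a * m * G * T0) := mul_pos hGpos h0
        linarith
    obtain ⟨g, X3, Y3, hg, hX3, hcop3, hXg, hYg⟩ := prim_part (Y := Y0) hX0pos
    have hY3 : 0 < Y3 := by
      have : 0 < Y0 := by rw [hY0eq]; positivity
      rw [hYg] at this
      exact (mul_pos_iff_of_pos_left hg).1 this
    have hgY : g ≤ Y0 := by rw [hYg]; exact le_mul_of_one_le_right hg.le hY3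
    have hY3Y : Y3 ≤ Y0 := by rw [hYg]; exact le_mul_of_one_le_left hY3.le hg
    obtain ⟨hgm, hJg⟩ := content_jac D m hc.Dm (x := v1) (y := -y) (x' := x) (y' := y)
      (hvy.neg_right) hxy hvm hxm hg (by rw [← hX0]; exact ⟨X3, hXg⟩)
      (by rw [← hY0]; exact ⟨Y3, hYg⟩)
    have hX0m : IsCoprime X0 (m : ℤ) := by
      have e : X0 = v1 * x + m * (D * m * (-y * y)) := by rw [hX0]; ring
      rw [e]; exact (hvm.mul_left hxm).add_mul_left_left _
    have hX3m : IsCoprime X3 (m : ℤ) := hX0m.of_isCoprime_of_dvd_left ⟨g, by rw [hXg]; ring⟩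
    have hJ3 : jacobiSym D X3.natAbs = 1 := by
      have h1 : jacobiSym D X0.natAbs = jacobiSym D (v1 * x).natAbs := by
        apply jac_congr D hX0pos (by positivity) (hc.odd hX0m) (m : ℤ) hc.d4 hc.two
        exact ⟨D * m * (-y * y), by rw [hX0]; ring⟩
      rw [jac_mul D hv1pos.ne' hxz.ne', hJv, hJx, hXg, jac_mul D hg.ne' hX3.ne', hJg] at h1
      simpa using h1
    have hprod : g ^ 2 * (X3 ^ 2 - D * m ^ 2 * Y3 ^ 2) =
        ((x : ℤ) ^ 2 - D * m ^ 2 * y ^ 2) * (v1 ^ 2 - D * m ^ 2 * y ^ 2) := by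
      have e : g ^ 2 * (X3 ^ 2 - D * m ^ 2 * Y3 ^ 2) = X0 ^ 2 - D * m ^ 2 * Y0 ^ 2 := by
        rw [hXg, hYg]; ring
      rw [e, hX0, hY0]; ring
    have hne : ∀ x' y' : ℤ, x' ≠ 0 → x' ^ 2 - D * (m : ℤ) ^ 2 * y' ^ 2 ≠ 0 := by
      intro x' y' hx' h0
      have h1 := nrm_ne_zero hc.nsq' (u := (x', y')) (by
        intro h; exact hx' (congrArg Prod.fst h))
      rw [nrm_c0] at h1
      exact h1 h0
    have hs3 : sgn P (X3 ^ 2 - D * m ^ 2 * Y3 ^ 2) = -1 := by
      have h1 := congrArg (sgn P) hprod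
      rw [sgn_sq_mul P hg.ne' (hne X3 Y3 hX3.ne'), sgn_mul P (hne x y hxz.ne')
        (hne v1 y hv1pos.ne'), hs, hsv] at h1
      simpa using h1
    have hbig : b * m * Y3 + z + 2 * a * m * Y3 * T0 ≤ X3 := by
      have h1 : b * m * Y3 + z + 2 * a * m * Y3 * T0 ≤ |b| * m * G + z + 2 * a * m * G * T0 := by
        have h2 : b * m * Y3 ≤ |b| * m * G := by
          calc b * m * Y3 ≤ |b| * m * Y3 := by
                have := le_abs_self b
                gcongr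
            _ ≤ |b| * m * G := by
                have := hY3Y.trans hY0G
                gcongr
        have h3 : 2 * a * m * Y3 * T0 ≤ 2 * a * m * G * T0 := by
          have := hY3Y.trans hY0G
          gcongr
        linarith
      refine h1.trans ?_
      have h2 : g * (|b| * m * G + z + 2 * a * m * G * T0) ≤ g * X3 := by
        rw [← hXg]
        have h3 : g * (|b| * m * G + z + 2 * a * m * G * T0) ≤
            G * (|b| * m * G + z + 2 * a * m * G * T0) := by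
          have := hgY.trans hY0G
          gcongr
        linarith
      exact le_of_mul_le_mul_left h2 hg
    obtain ⟨W, ρ, hWz, hW0, hρ, hρW, hQR, hno⟩ := core_pat ha H hD hc h2a hX3 hY3
      (hX3m.mul_right hcop3) hJ3 hs3 (z : ℤ) hbig
    refine ⟨W, ρ, hW0, ?_, hρ, hρW, fun q hq _ hqρ => hQR q hq hqρ, ?_⟩
    · rw [hWz]
      calc 2 * a * m * Y3 ≤ 2 * a * m * Y0 := by gcongr
        _ = k * (2 * a * m ^ 2 * y ^ 2) := by rw [hY0eq]; ring
    · intro q hq hqF hqz hqρ hdvd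
      apply hno q hq (by exact_mod_cast hqz) hqρ
      have hpp : Prime (q : ℤ) := Nat.prime_iff_prime_int.1 hq
      rw [hform] at hdvd
      have h1 : (q : ℤ) ∣ g ^ 2 * (X3 ^ 2 - D * m ^ 2 * Y3 ^ 2) := by
        rw [hprod]; exact Dvd.dvd.mul_left hdvd _
      have hqbig : (F : ℤ) + m * y < q := by exact_mod_cast hqF
      have hmy : (m : ℤ) ≤ m * y := le_mul_of_one_le_right hm.le hy1
      have hmy' : (y : ℤ) ≤ m * y := le_mul_of_one_le_left hyz.le hm1
      have hF0 : (0 : ℤ) ≤ F := by positivity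
      rcases hpp.dvd_or_dvd h1 with h2 | h2
      · exfalso
        have h3 : (q : ℤ) ∣ g := hpp.dvd_of_dvd_pow h2
        have h4 : (q : ℤ) ∣ k * m * (y : ℤ) ^ 2 := by
          rw [← hY0eq, hYg]; exact Dvd.dvd.mul_right h3 _
        rcases hpp.dvd_or_dvd h4 with h5 | h5
        · rcases hpp.dvd_or_dvd h5 with h6 | h6
          · have := Int.le_of_dvd hkz h6
            linarith
          · have := Int.le_of_dvd hm h6
            linarith
        · have := Int.le_of_dvd hyz (hpp.dvd_of_dvd_pow h5)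
          linarith
      · exact h2
  · -- first case
    have hbig : b * m * y + z + 2 * a * m * y * T0 ≤ v1 := by
      have h1 : b * (m * y) ≤ |b| * (m * y) := by
        have := le_abs_self b
        gcongr
      linarith
    obtain ⟨W, ρ, hWz, hW0, hρ, hρW, hQR, hno⟩ := core_pat ha H hD hc h2a hv1pos hyz hcv hJv hsv
      (z : ℤ) hbig
    refine ⟨W, ρ, hW0, ?_, hρ, hρW, fun q hq _ hqρ => hQR q hq hqρ, ?_⟩
    · rw [hWz]
      calc 2 * a * m * y = 1 * (2 * a * (m * 1) * (y * 1)) := by ring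
        _ ≤ k * (2 * a * (m * m) * (y * y)) := by gcongr
        _ = k * (2 * a * m ^ 2 * y ^ 2) := by ring
    · intro q hq _ hqz hqρ hdvd
      apply hno q hq (by exact_mod_cast hqz) hqρ
      rw [hform] at hdvd
      exact hdvd

end Pool.Agent.Lib.MP_a17b09_nt
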