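import Pool.Agent.Lib.MP_a17b09_nt.Z.Tile

set_option autoImplicit false

open Finset

namespace Pool.Agent.Lib.MP_a17b09_nt

/-- `w` is well inside the region and not small -/
structure Mid (m : ℕ) (lo hi η : ℝ) (w : ℤ × ℤ) : Prop where
  pos : 0 < w.1
  lo : lo + η ≤ slope w
  hi : slope w ≤ hi - η
  two : 2 ≤ w.1
  big : (kap m : ℝ) ≤ η * (w.1 : ℝ) ^ 2

lemma kap_pos {D : ℤ} {m : ℕ} (hc : Ctx D m) : 1 ≤ kap m := by
  have hm := hc.mz
  unfold kap
  have : (1 : ℤ) * 1 ≤ m * (m + 1) := by gcongr <;> omega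
  linarith

lemma small_step {m : ℕ} {η : ℝ} {w s : ℤ × ℤ} (hw : 0 < w.1) (hws : w.1 ≤ s.1)
    (hbig : (kap m : ℝ) ≤ η * (w.1 : ℝ) ^ 2) {β : ℤ} (hβ : 0 ≤ β) (hβk : β ≤ kap m) :
    0 ≤ (β : ℝ) / ((w.1 : ℝ) * s.1) ∧ (β : ℝ) / ((w.1 : ℝ) * s.1) ≤ η := by
  have h1 : (0 : ℝ) < w.1 := by exact_mod_cast hw
  have h2 : (w.1 : ℝ) ≤ s.1 := by exact_mod_cast hws
  have h3 : (0 : ℝ) ≤ β := by exact_mod_cast hβ
  have h4 : (β : ℝ) ≤ kap m := by exact_mod_cast hβk
  have h5 : (0 : ℝ) < (w.1 : ℝ) * s.1 := by nlinarith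
  refine ⟨by positivity, ?_⟩
  rw [div_le_iff₀ h5]
  have hη : 0 ≤ η := by
    by_contra hcon
    push Not at hcon
    have : η * (w.1 : ℝ) ^ 2 < 0 := mul_neg_of_neg_of_pos hcon (by positivity)
    linarith
  calc (β : ℝ) ≤ η * (w.1 : ℝ) ^ 2 := h4.trans hbig
    _ = η * ((w.1 : ℝ) * w.1) := by ring
    _ ≤ η * ((w.1 : ℝ) * s.1) := by gcongr

lemma reg_right {D : ℤ} {m : ℕ} (hc : Ctx D m) {X : ℤ} {lo hi η : ℝ} {w q : ℤ × ℤ}
    (hw : Mid m lo hi η w) (hwX : w.1 ≤ X) (hd : det w q = 1) (hq : 0 < q.1) (hqX : q.1 ≤ X) :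
    Reg (2 * kap m * X) lo hi (tl D m w q) := by
  obtain ⟨α, β, hα1, hα2, hβ1, hβ2, hs, hsp⟩ := tl_spec hc hd hw.pos hq
  have hk := kap_pos hc
  set s := tl D m w q with hsdef
  have hs1 : s.1 = α * w.1 + β * q.1 := by rw [hs]
  have hs2 : s.2 = α * w.2 + β * q.2 := by rw [hs]
  have hwp := hw.pos
  have hβq : 0 < β * q.1 := by positivity
  have hws : w.1 ≤ s.1 := by
    rw [hs1]
    have : 1 * w.1 ≤ α * w.1 := by gcongr
    linarith
  have hdet : det w s = β := by
    simp only [det] at hd ⊢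
    rw [hs1, hs2]
    linear_combination β * hd
  have hsl := slope_sub hw.pos hsp.2.2.1
  rw [hdet] at hsl
  obtain ⟨h1, h2⟩ := small_step hw.pos hws hw.big (by linarith : 0 ≤ β) hβ2
  refine ⟨?_, ?_, ?_⟩
  · rw [hs1]
    have h3 : α * w.1 ≤ kap m * X := by gcongr
    have h4 : β * q.1 ≤ kap m * X := by gcongr
    linarith
  · have hη : 0 ≤ η := h1.trans h2
    linarith [hw.lo]
  · linarith [hw.hi]

lemma reg_left {D : ℤ} {m : ℕ} (hc : Ctx D m) {X : ℤ} {lo hi η : ℝ} {w p : ℤ × ℤ}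
    (hw : Mid m lo hi η w) (hwX : w.1 ≤ X) (hd : det p w = 1) (hp : 0 < p.1) (hpX : p.1 ≤ X) :
    Reg (2 * kap m * X) lo hi (tl D m p w) := by
  obtain ⟨α, β, hα1, hα2, hβ1, hβ2, hs, hsp⟩ := tl_spec hc hd hp hw.pos
  have hk := kap_pos hc
  set s := tl D m p w with hsdef
  have hs1 : s.1 = α * p.1 + β * w.1 := by rw [hs]
  have hs2 : s.2 = α * p.2 + β * w.2 := by rw [hs]
  have hwp := hw.pos
  have hαp : 0 < α * p.1 := by positivity
  have hws : w.1 ≤ s.1 := by
    rw [hs1]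
    have : 1 * w.1 ≤ β * w.1 := by gcongr
    linarith
  have hdet : det s w = α := by
    simp only [det] at hd ⊢
    rw [hs1, hs2]
    linear_combination α * hd
  have hsl := slope_sub hsp.2.2.1 hw.pos
  rw [hdet] at hsl
  obtain ⟨h1, h2⟩ := small_step hw.pos hws hw.big (by linarith : 0 ≤ α) hα2
  rw [mul_comm] at h1 h2
  refine ⟨?_, ?_, ?_⟩
  · rw [hs1]
    have h3 : α * p.1 ≤ kap m * X := by gcongr
    have h4 : β * w.1 ≤ kap m * X := by gcongr
    linarith
  · linarith [hw.lo]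
  · have hη : 0 ≤ η := h1.trans h2
    linarith [hw.hi]

section fan

variable {P : Set ℕ} {D : ℤ} {m : ℕ} (hc : Ctx D m) {X : ℤ} {lo hi η : ℝ}
  (hNC : NC P D m (2 * kap m * X) lo hi) {w : ℤ × ℤ} (hw : Mid m lo hi η w) (hwX : w.1 ≤ X)

include hc hNC hw hwX

lemma fan_right_step {q : ℤ × ℤ} (hd : det w q = 1) (hq : 0 < q.1) (hqX : q.1 + w.1 ≤ X) :
    col P 0 (c0 D m) (tl D m w q) = col P 0 (c0 D m) (tl D m w (q.1 + w.1, q.2 + w.2)) := by
  have hwp := hw.pos
  have hd' : det w (q.1 + w.1, q.2 + w.2) = 1 := by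
    simp only [det] at hd ⊢; linear_combination hd
  have hq' : 0 < (q.1 + w.1, q.2 + w.2).1 := by simp only; linarith
  obtain ⟨α, β, hα1, hα2, hβ1, hβ2, hs, hsp⟩ := tl_spec hc hd hw.pos hq
  obtain ⟨α', β', hα1', hα2', hβ1', hβ2', hs', hsp'⟩ := tl_spec hc hd' hw.pos hq'
  have hr := reg_right hc hw hwX hd hq (by linarith)
  have hr' := reg_right hc hw hwX hd' hq' (by simp only; linarith)
  apply hNC.abs hsp hsp' hr hr'
  have hk := kap_pos hc
  rw [hs, hs']
  have e : det (α * w.1 + β * q.1, α * w.2 + β * q.2)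
      (α' * w.1 + β' * (q.1 + w.1), α' * w.2 + β' * (q.2 + w.2)) = α * β' - β * (α' + β') := by
    simp only [det] at hd ⊢
    linear_combination (α * β' - β * (α' + β')) * hd
  rw [e, abs_le]
  have h1 : α * β' ≤ kap m * kap m := by gcongr
  have h2 : β * (α' + β') ≤ kap m * (kap m + kap m) := by gcongr
  have h3 : 0 ≤ α * β' := by positivity
  have h4 : 0 ≤ β * (α' + β') := by positivity
  constructor <;> nlinarith

lemma fan_left_step {p : ℤ × ℤ} (hd : det p w = 1) (hp : 0 < p.1) (hpX : p.1 + w.1 ≤ X) :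
    col P 0 (c0 D m) (tl D m p w) = col P 0 (c0 D m) (tl D m (p.1 + w.1, p.2 + w.2) w) := by
  have hwp := hw.pos
  have hd' : det (p.1 + w.1, p.2 + w.2) w = 1 := by
    simp only [det] at hd ⊢; linear_combination hd
  have hp' : 0 < (p.1 + w.1, p.2 + w.2).1 := by simp only; linarith
  obtain ⟨α, β, hα1, hα2, hβ1, hβ2, hs, hsp⟩ := tl_spec hc hd hp hw.pos
  obtain ⟨α', β', hα1', hα2', hβ1', hβ2', hs', hsp'⟩ := tl_spec hc hd' hp' hw.pos
  have hr := reg_left hc hw hwX hd hp (by linarith)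
  have hr' := reg_left hc hw hwX hd' hp' (by simp only; linarith)
  apply hNC.abs hsp hsp' hr hr'
  have hk := kap_pos hc
  rw [hs, hs']
  have e : det (α * p.1 + β * w.1, α * p.2 + β * w.2)
      (α' * (p.1 + w.1) + β' * w.1, α' * (p.2 + w.2) + β' * w.2) = α * (α' + β') - β * α' := by
    simp only [det] at hd ⊢
    linear_combination (α * (α' + β') - β * α') * hd
  rw [e, abs_le]
  have h1 : β * α' ≤ kap m * kap m := by gcongr
  have h2 : α * (α' + β') ≤ kap m * (kap m + kap m) := by gcongr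
  have h3 : 0 ≤ β * α' := by positivity
  have h4 : 0 ≤ α * (α' + β') := by positivity
  constructor <;> nlinarith

lemma fan_right (n : ℕ) : ∀ q : ℤ × ℤ, det w q = 1 → 0 < q.1 → q.1 + n * w.1 ≤ X →
    col P 0 (c0 D m) (tl D m w q) =
      col P 0 (c0 D m) (tl D m w (q.1 + n * w.1, q.2 + n * w.2)) := by
  induction n with
  | zero => intro q _ _ _; simp
  | succ n ih =>
    intro q hd hq hqX
    have hwp := hw.pos
    push_cast at hqX
    have hn : (0 : ℤ) ≤ n * w.1 := by positivity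
    rw [fan_right_step hc hNC hw hwX hd hq (by linarith)]
    rw [ih (q.1 + w.1, q.2 + w.2) (by simp only [det] at hd ⊢; linear_combination hd)
      (by simp only; linarith) (by simp only; linarith)]
    congr 2
    apply Prod.ext
    · simp only; push_cast; ring
    · simp only; push_cast; ring

lemma fan_left (n : ℕ) : ∀ p : ℤ × ℤ, det p w = 1 → 0 < p.1 → p.1 + n * w.1 ≤ X →
    col P 0 (c0 D m) (tl D m p w) =
      col P 0 (c0 D m) (tl D m (p.1 + n * w.1, p.2 + n * w.2) w) := by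
  induction n with
  | zero => intro p _ _ _; simp
  | succ n ih =>
    intro p hd hp hpX
    have hwp := hw.pos
    push_cast at hpX
    have hn : (0 : ℤ) ≤ n * w.1 := by positivity
    rw [fan_left_step hc hNC hw hwX hd hp (by linarith)]
    rw [ih (p.1 + w.1, p.2 + w.2) (by simp only [det] at hd ⊢; linear_combination hd)
      (by simp only; linarith) (by simp only; linarith)]
    congr 2
    apply Prod.ext
    · simp only; push_cast; ring
    · simp only; push_cast; ring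

/-- walking around `w` -/
theorem around {p q : ℤ × ℤ} (hdp : det p w = 1) (hp : 0 < p.1) (hpX : p.1 ≤ X)
    (hdq : det w q = 1) (hq : 0 < q.1) (hqX : q.1 ≤ X) :
    col P 0 (c0 D m) (tl D m p w) = col P 0 (c0 D m) (tl D m w q) := by
  have hwp := hw.pos
  have hw2 := hw.two
  set n : ℤ := (q.1 - 1) / w.1 with hn
  have hn0 : 0 ≤ n := Int.ediv_nonneg (by linarith) hwp.le
  have hmod := Int.emod_add_mul_ediv (q.1 - 1) w.1
  rw [← hn] at hmod
  have hmod0 := Int.emod_nonneg (q.1 - 1) hwp.ne'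
  have hmod1 := Int.emod_lt_of_pos (q.1 - 1) hwp
  set q0 : ℤ × ℤ := (q.1 - n * w.1, q.2 - n * w.2) with hq0
  have hq01 : 0 < q0.1 := by
    rw [hq0]; simp only; linarith
  have hq0w : q0.1 ≤ w.1 := by
    rw [hq0]; simp only; linarith
  have hdq0 : det w q0 = 1 := by
    rw [hq0]; simp only [det] at hdq ⊢; linear_combination hdq
  have hq0lt : q0.1 < w.1 := by
    rcases lt_or_eq_of_le hq0w with h | h
    · exact h
    · exfalso
      simp only [det] at hdq0
      rw [h] at hdq0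
      have : w.1 ∣ 1 := ⟨q0.2 - w.2, by linarith⟩
      have := Int.le_of_dvd one_pos this
      linarith
  set p1 : ℤ × ℤ := (w.1 - q0.1, w.2 - q0.2) with hp1
  have hp11 : 0 < p1.1 := by rw [hp1]; simp only; linarith
  have hdp1 : det p1 w = 1 := by
    rw [hp1]; simp only [det] at hdq0 ⊢; linear_combination hdq0
  have hdpq : det p1 q0 = 1 := by
    rw [hp1]; simp only [det] at hdq0 ⊢; linear_combination hdq0
  -- right part
  obtain ⟨nn, hnn⟩ : ∃ nn : ℕ, (nn : ℤ) = n := ⟨_, Int.toNat_of_nonneg hn0⟩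
  have hR := fan_right hc hNC hw hwX nn q0 hdq0 hq01 (by
    rw [hnn, hq0]; simp only; linarith)
  have eR : (q0.1 + (nn : ℤ) * w.1, q0.2 + (nn : ℤ) * w.2) = q := by
    rw [hnn, hq0]
    apply Prod.ext
    · simp only; ring
    · simp only; ring
  rw [eR] at hR
  -- left part
  obtain ⟨k, hk1, hk2⟩ : ∃ k : ℤ, p.1 = p1.1 + k * w.1 ∧ p.2 = p1.2 + k * w.2 := by
    have h0 : (p.1 - p1.1) * w.2 = (p.2 - p1.2) * w.1 := by
      simp only [det] at hdp hdp1
      linear_combination hdp - hdp1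
    have hcop : IsCoprime w.1 w.2 := by
      simp only [det] at hdq
      exact ⟨q.2, -q.1, by linarith⟩
    have h1 : w.1 ∣ (p.1 - p1.1) := by
      have : w.1 ∣ w.2 * (p.1 - p1.1) := ⟨p.2 - p1.2, by linarith⟩
      exact hcop.dvd_of_dvd_mul_left this
    obtain ⟨k, hk⟩ := h1
    refine ⟨k, by linarith, ?_⟩
    rw [hk] at h0
    have h2 : w.1 * (p.2 - p1.2) = w.1 * (k * w.2) := by linear_combination -h0
    have := mul_left_cancel₀ hwp.ne' h2
    linarith
  have hk0 : 0 ≤ k := by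
    by_contra hcon
    push Not at hcon
    have h1 : k ≤ -1 := by omega
    have h2 : k * w.1 ≤ -1 * w.1 := by gcongr
    have h3 : p1.1 < w.1 := by rw [hp1]; simp only; linarith
    linarith
  obtain ⟨kk, hkk⟩ : ∃ kk : ℕ, (kk : ℤ) = k := ⟨_, Int.toNat_of_nonneg hk0⟩
  have hL := fan_left hc hNC hw hwX kk p1 hdp1 hp11 (by rw [hkk]; linarith)
  have eL : (p1.1 + (kk : ℤ) * w.1, p1.2 + (kk : ℤ) * w.2) = p := by
    rw [hkk]
    apply Prod.ext
    · simp only; linarith
    · simp only; linarith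
  rw [eL] at hL
  -- crossing
  have hcross : col P 0 (c0 D m) (tl D m p1 w) = col P 0 (c0 D m) (tl D m w q0) := by
    obtain ⟨α, β, hα1, hα2, hβ1, hβ2, hs, hsp⟩ := tl_spec hc hdp1 hp11 hw.pos
    obtain ⟨α', β', hα1', hα2', hβ1', hβ2', hs', hsp'⟩ := tl_spec hc hdq0 hw.pos hq01
    have hr := reg_left hc hw hwX hdp1 hp11 (by rw [hp1]; simp only; linarith)
    have hr' := reg_right hc hw hwX hdq0 hq01 (by linarith)
    apply hNC.abs hsp hsp' hr hr'
    have hk := kap_pos hc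
    rw [hs, hs']
    have e : det (α * p1.1 + β * w.1, α * p1.2 + β * w.2)
        (α' * w.1 + β' * q0.1, α' * w.2 + β' * q0.2) = α * α' + α * β' + β * β' := by
      simp only [det] at hdp1 hdpq hdq0 ⊢
      linear_combination (α * α') * hdp1 + (α * β') * hdpq + (β * β') * hdq0
    rw [e, abs_of_pos (by positivity)]
    have h1 : α * α' ≤ kap m * kap m := by gcongr
    have h2 : α * β' ≤ kap m * kap m := by gcongr
    have h3 : β * β' ≤ kap m * kap m := by gcongr
    linarith [show 3 * kap m ^ 2 = kap m * kap m + kap m * kap m + kap m * kap m by ring]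
  rw [← hL, ← hR, hcross]

end fan

end Pool.Agent.Lib.MP_a17b09_nt
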