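import Pool.Agent.Lib.MP_a17b09_nt.Basic

set_option autoImplicit false

namespace Pool.Agent.Lib.MP_a17b09_nt

lemma jac_prime_one (D : ℤ) (n : ℕ) (hn : n ≠ 0)
    (h : ∀ p : ℕ, p.Prime → p ∣ n → jacobiSym D p = 1) : jacobiSym D n = 1 := by
  induction n using Nat.recOnMul with
  | zero => exact absurd rfl hn
  | one => exact jacobiSym.one_right D
  | prime p hp => exact h p hp (dvd_refl p)
  | mul a b iha ihb =>
    have ha : a ≠ 0 := fun h0 => hn (by rw [h0, zero_mul])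
    have hb : b ≠ 0 := fun h0 => hn (by rw [h0, mul_zero])
    have : NeZero a := ⟨ha⟩
    have : NeZero b := ⟨hb⟩
    rw [jacobiSym.mul_right, iha ha (fun p hp hpa => h p hp (Dvd.dvd.mul_right hpa b)),
      ihb hb (fun p hp hpb => h p hp (Dvd.dvd.mul_left hpb a)), one_mul]

lemma jac_mul (D : ℤ) {x y : ℤ} (hx : x ≠ 0) (hy : y ≠ 0) :
    jacobiSym D (x * y).natAbs = jacobiSym D x.natAbs * jacobiSym D y.natAbs := by
  have : NeZero x.natAbs := ⟨Int.natAbs_ne_zero.2 hx⟩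
  have : NeZero y.natAbs := ⟨Int.natAbs_ne_zero.2 hy⟩
  rw [Int.natAbs_mul, jacobiSym.mul_right]

lemma jac_congr (D : ℤ) {x y : ℤ} (hx : 0 < x) (hy : 0 < y) (hodd : ¬ (2 : ℤ) ∣ x) (m : ℤ)
    (hm : ((4 * D.natAbs : ℕ) : ℤ) ∣ m) (h2 : (2 : ℤ) ∣ m) (h : m ∣ x - y) :
    jacobiSym D x.natAbs = jacobiSym D y.natAbs := by
  have hoddy : ¬ (2 : ℤ) ∣ y := by
    intro hy2
    apply hodd
    have h3 := dvd_add (dvd_trans h2 h) hy2
    rwa [sub_add_cancel] at h3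
  have e1 : ((x.natAbs : ℕ) : ℤ) = x := Int.natAbs_of_nonneg hx.le
  have e2 : ((y.natAbs : ℕ) : ℤ) = y := Int.natAbs_of_nonneg hy.le
  have ox : Odd x.natAbs := by
    rw [← Nat.not_even_iff_odd, even_iff_two_dvd]
    intro h3
    apply hodd
    rw [← e1]; exact_mod_cast h3
  have oy : Odd y.natAbs := by
    rw [← Nat.not_even_iff_odd, even_iff_two_dvd]
    intro h3
    apply hoddy
    rw [← e2]; exact_mod_cast h3
  rw [jacobiSym.mod_right D ox, jacobiSym.mod_right D oy]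
  congr 1
  have h4 : ((4 * D.natAbs : ℕ) : ℤ) ∣ ((x.natAbs : ℕ) : ℤ) - ((y.natAbs : ℕ) : ℤ) := by
    rw [e1, e2]
    exact dvd_trans hm h
  exact ((Nat.modEq_iff_dvd.2 h4).symm)

/-- A prime dividing the norm of a primitive vector, prime to `m`, splits. -/
lemma jac_of_dvd_norm (D : ℤ) (m : ℤ) (hDm : D ∣ m) {x y : ℤ}
    (hxy : IsCoprime x y) (p : ℕ) (hp : p.Prime) (hpm : ¬ (p : ℤ) ∣ m)
    (hpn : (p : ℤ) ∣ x ^ 2 - D * m ^ 2 * y ^ 2) : jacobiSym D p = 1 := by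
  have : Fact p.Prime := ⟨hp⟩
  have hpp : Prime (p : ℤ) := Nat.prime_iff_prime_int.1 hp
  have hpD : ¬ (p : ℤ) ∣ D := fun h => hpm (dvd_trans h hDm)
  have hpy : ¬ (p : ℤ) ∣ y := by
    intro h
    have h1 : (p : ℤ) ∣ x ^ 2 := by
      have := dvd_add hpn (Dvd.dvd.mul_left (dvd_pow h (two_ne_zero)) (D * m ^ 2))
      rwa [sub_add_cancel] at this
    have h2 : (p : ℤ) ∣ x := hpp.dvd_of_dvd_pow h1
    obtain ⟨r, s, hrs⟩ := hxy
    have h3 : (p : ℤ) ∣ 1 := by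
      rw [← hrs]
      exact dvd_add (Dvd.dvd.mul_left h2 r) (Dvd.dvd.mul_left h s)
    exact hpp.not_isUnit (isUnit_of_dvd_one h3)
  rw [← jacobiSym.legendreSym.to_jacobiSym]
  have hD0 : ((D : ℤ) : ZMod p) ≠ 0 := by
    rw [Ne, ZMod.intCast_zmod_eq_zero_iff_dvd]; exact hpD
  have hm0 : ((m : ℤ) : ZMod p) ≠ 0 := by
    rw [Ne, ZMod.intCast_zmod_eq_zero_iff_dvd]; exact hpm
  have hy0 : ((y : ℤ) : ZMod p) ≠ 0 := by
    rw [Ne, ZMod.intCast_zmod_eq_zero_iff_dvd]; exact hpy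
  rw [legendreSym.eq_one_iff p hD0]
  have h1 : (x : ZMod p) ^ 2 - D * (m : ZMod p) ^ 2 * (y : ZMod p) ^ 2 = 0 := by
    have := (ZMod.intCast_zmod_eq_zero_iff_dvd _ p).2 hpn
    push_cast at this
    exact this
  refine ⟨(x : ZMod p) / ((m : ZMod p) * (y : ZMod p)), ?_⟩
  have h2 : (x : ZMod p) ^ 2 = D * (m : ZMod p) ^ 2 * (y : ZMod p) ^ 2 := by
    linear_combination h1
  field_simp
  rw [h2]

/-- square root modulo a split prime -/
lemma exists_root_of_jac (D : ℤ) (p : ℕ) (hp : p.Prime) (h : jacobiSym D p = 1) :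
    ∃ r : ℤ, (p : ℤ) ∣ r ^ 2 - D := by
  have : Fact p.Prime := ⟨hp⟩
  obtain ⟨r0, hr0⟩ := ZMod.isSquare_of_jacobiSym_eq_one h
  obtain ⟨r, rfl⟩ := ZMod.intCast_surjective r0
  refine ⟨r, ?_⟩
  rw [← ZMod.intCast_zmod_eq_zero_iff_dvd]
  push_cast
  rw [hr0]; ring

/-- content of a product of primitive vectors -/
lemma content_jac (D m : ℤ) (hDm : D ∣ m) {x y x' y' : ℤ}
    (hxy : IsCoprime x y) (hxy' : IsCoprime x' y') (hxm : IsCoprime x m) (hxm' : IsCoprime x' m)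
    {g : ℤ} (hg : 0 < g) (h1 : g ∣ x * x' + D * m ^ 2 * (y * y')) (h2 : g ∣ x * y' + y * x') :
    IsCoprime g m ∧ jacobiSym D g.natAbs = 1 := by
  have hX : IsCoprime (x * x' + D * m ^ 2 * (y * y')) m := by
    have h3 : IsCoprime (x * x') m := hxm.mul_left hxm'
    have e : x * x' + D * m ^ 2 * (y * y') = x * x' + m * (D * m * (y * y')) := by ring
    rw [e]
    exact h3.add_mul_left_left _
  have hgm : IsCoprime g m := hX.of_isCoprime_of_dvd_left h1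
  refine ⟨hgm, ?_⟩
  apply jac_prime_one D g.natAbs (Int.natAbs_ne_zero.2 hg.ne')
  intro p hp hpg
  have hpg' : (p : ℤ) ∣ g := Int.natCast_dvd.2 hpg
  have hpp : Prime (p : ℤ) := Nat.prime_iff_prime_int.1 hp
  have hpm : ¬ (p : ℤ) ∣ m := by
    intro h
    obtain ⟨r, s, hrs⟩ := hgm
    have h3 : (p : ℤ) ∣ 1 := by
      rw [← hrs]
      exact dvd_add (Dvd.dvd.mul_left hpg' r) (Dvd.dvd.mul_left h s)
    exact hpp.not_isUnit (isUnit_of_dvd_one h3)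
  have h3 : (p : ℤ) ∣ (x ^ 2 - D * m ^ 2 * y ^ 2) * (x' ^ 2 - D * m ^ 2 * y' ^ 2) := by
    have e : (x ^ 2 - D * m ^ 2 * y ^ 2) * (x' ^ 2 - D * m ^ 2 * y' ^ 2) =
        (x * x' + D * m ^ 2 * (y * y')) * (x * x' + D * m ^ 2 * (y * y')) -
        (x * y' + y * x') * (D * m ^ 2 * (x * y' + y * x')) := by ring
    rw [e]
    exact dvd_sub (Dvd.dvd.mul_right (dvd_trans hpg' h1) _)
      (Dvd.dvd.mul_right (dvd_trans hpg' h2) _)
  rcases hpp.dvd_or_dvd h3 with h4 | h4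
  · exact jac_of_dvd_norm D m hDm hxy p hp hpm h4
  · exact jac_of_dvd_norm D m hDm hxy' p hp hpm h4

end Pool.Agent.Lib.MP_a17b09_nt
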