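import Pool.Agent.Lib.MP_a17b09_nt.Z.Neg3
import Pool.Agent.Lib.MP_a17b09_nt.Z.BadS

set_option autoImplicit false

open Finset Filter

namespace Pool.Agent.Lib.MP_a17b09_nt

lemma ctx_of {D : ℤ} (hD : ¬ IsSquare D) {a : ℤ} (ha : 0 < a) :
    ∃ m : ℕ, Ctx D m ∧ 2 * a ∣ (m : ℤ) := by
  have hD0 : D ≠ 0 := by rintro rfl; exact hD ⟨0, by simp⟩
  have hd0 : 0 < D.natAbs := Int.natAbs_pos.2 hD0
  have ha0 : 0 < a.natAbs := Int.natAbs_pos.2 ha.ne'
  have ea : ((a.natAbs : ℕ) : ℤ) = a := Int.natAbs_of_nonneg ha.le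
  refine ⟨8 * a.natAbs * D.natAbs, ⟨hD, by positivity, ?_, ?_⟩, ?_⟩
  · have : 4 * D.natAbs ∣ 8 * a.natAbs * D.natAbs := ⟨2 * a.natAbs, by ring⟩
    exact_mod_cast this
  · exact ⟨a.natAbs * D.natAbs, by ring⟩
  · refine ⟨4 * D.natAbs, ?_⟩
    push_cast [ea]
    ring

/-- vectors `(X, z)` with `X ≡ 1 (mod m)` prime are special -/
lemma SS_prime {D : ℤ} {m : ℕ} (hc : Ctx D m) {X : ℕ} (hX : X.Prime) (hXm : X ≡ 1 [MOD m])
    {z : ℤ} (hz : 0 ≤ z) (hzX : z < X) : SS D m (X, z) := by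
  have hXpos : (0 : ℤ) < X := by exact_mod_cast hX.pos
  have hmX : (m : ℤ) ∣ (X : ℤ) - 1 := by
    have := Nat.modEq_iff_dvd.1 hXm.symm
    exact_mod_cast this
  have hcop : IsCoprime (X : ℤ) (m : ℤ) := by
    obtain ⟨q, hq⟩ := hmX
    exact ⟨1, -q, by linarith⟩
  rcases eq_or_lt_of_le hz with h | h
  · refine ⟨X, hXpos, (1, 0), ⟨isCoprime_one_left, isCoprime_one_left, one_pos, ?_⟩, ?_⟩
    · simp
    · rw [← h]; simp
  · refine ⟨1, one_pos, (X, z), ⟨?_, hcop, hXpos, ?_⟩, by simp⟩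
    · have hXp : Prime (X : ℤ) := Nat.prime_iff_prime_int.1 hX
      simp only
      rw [hXp.coprime_iff_not_dvd]
      intro hd
      have := Int.le_of_dvd h hd
      linarith
    · simp only
      have h1 := jac_congr D (y := 1) hXpos one_pos (hc.odd hcop) (m : ℤ) hc.d4 hc.two hmX
      rw [h1]
      simp

/-- Rigidity forces all special vectors of small angle to have colour `1`. -/
theorem all_pos {P : Set ℕ} {D : ℤ} {m : ℕ} (hc : Ctx D m) {ε : ℝ} (hε : 0 < ε)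
    (hrig : ∀ w w' : ℤ × ℤ, Sec 0 (c0 D m) w → Sec 0 (c0 D m) w' → SS D m w → SS D m w' →
      ang 0 (c0 D m) w ≤ a0 0 (c0 D m) / 4 → ang 0 (c0 D m) w' ≤ a0 0 (c0 D m) / 4 →
      |ang 0 (c0 D m) w - ang 0 (c0 D m) w'| ≤ ε → col P 0 (c0 D m) w = col P 0 (c0 D m) w')
    {v : ℤ × ℤ} (hv : SS D m v) (hsv : Sec 0 (c0 D m) v)
    (hav : ang 0 (c0 D m) v ≤ a0 0 (c0 D m) / 4) : col P 0 (c0 D m) v = 1 := by
  obtain ⟨X0, hX0⟩ := exists_nat_gt (8 / ε)
  have hmne : m ≠ 0 := hc.mpos.ne'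
  obtain ⟨X, hX, hXbig, hXm⟩ := Nat.exists_prime_gt_modEq_one (k := m) X0 hmne
  have hXr : (0 : ℝ) < X := by exact_mod_cast hX.pos
  have hXz : (0 : ℤ) < X := by exact_mod_cast hX.pos
  have hXε : 8 / (X : ℝ) ≤ ε := by
    have h1 : (X0 : ℝ) ≤ X := by exact_mod_cast hXbig.le
    rw [div_lt_iff₀ hε] at hX0
    rw [div_le_iff₀ hXr]
    calc (8 : ℝ) ≤ X0 * ε := hX0.le
      _ ≤ X * ε := by gcongr
      _ = ε * X := by ring
  have hs0 := slope_nonneg hsv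
  have hs1 := slope_le hsv
  have ha0 := a0_pos 0 (c0 D m)
  have hB := BBr_one 0 (c0 D m)
  have hslt : slope v < 1 := by
    refine lt_of_le_of_lt hs1 ?_
    rw [div_lt_one (by positivity)]
    linarith
  -- all vectors (X, z) below v
  have hslz : ∀ z : ℕ, slope ((X : ℤ), (z : ℤ)) = (z : ℝ) / X := by
    intro z; unfold slope; push_cast; rfl
  have hle : ∀ z : ℕ, (z : ℝ) ≤ X * slope v → slope ((X : ℤ), (z : ℤ)) ≤ slope v := by
    intro z hz
    rw [hslz, div_le_iff₀ hXr]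
    linarith
  have hzX : ∀ z : ℕ, (z : ℝ) ≤ X * slope v → (z : ℤ) < X := by
    intro z hz
    have h1 : (z : ℝ) < X * 1 := lt_of_le_of_lt hz (by gcongr)
    rw [mul_one] at h1
    exact_mod_cast h1
  have hsec : ∀ z : ℕ, (z : ℝ) ≤ X * slope v → Sec 0 (c0 D m) ((X : ℤ), (z : ℤ)) := by
    intro z hz
    exact sec_of_slope hXz (by simp) ((hle z hz).trans hs1)
  have hang : ∀ z : ℕ, (z : ℝ) ≤ X * slope v →
      ang 0 (c0 D m) ((X : ℤ), (z : ℤ)) ≤ a0 0 (c0 D m) / 4 := by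
    intro z hz
    exact (ang_mono (hle z hz)).trans hav
  have hcol : ∀ z : ℕ, (z : ℝ) ≤ X * slope v → col P 0 (c0 D m) ((X : ℤ), (z : ℤ)) = 1 := by
    intro z
    induction z with
    | zero =>
      intro _
      unfold col
      rw [nrm_c0]
      simp only [Nat.cast_zero]
      have e : (X : ℤ) ^ 2 - D * (m : ℤ) ^ 2 * 0 ^ 2 = (X : ℤ) * X := by ring
      rw [e, sgn_mul P hXz.ne' hXz.ne', sgn_mul_self]
    | succ z ih =>
      intro hz
      have hz' : (z : ℝ) ≤ X * slope v := by push_cast at hz; linarith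
      rw [← ih hz']
      apply hrig _ _ (hsec _ hz) (hsec _ hz') (SS_prime hc hX hXm (by positivity) (hzX _ hz))
        (SS_prime hc hX hXm (by simp) (hzX _ hz')) (hang _ hz) (hang _ hz')
      have h := AA_lipschitz ((0 : ℤ) : ℝ) (c0 D m : ℝ) (slope ((X : ℤ), (z : ℤ)))
        (slope ((X : ℤ), ((z + 1 : ℕ) : ℤ)))
      unfold ang
      refine h.trans ?_
      rw [hslz, hslz]
      have e : (((z + 1 : ℕ) : ℝ)) / X - (z : ℝ) / X = 1 / X := by
        push_cast; field_simp; ring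
      rw [e, abs_of_pos (by positivity), mul_one_div]
      exact hXε
  set z : ℕ := ⌊(X : ℝ) * slope v⌋₊ with hz
  have hz1 : (z : ℝ) ≤ X * slope v := Nat.floor_le (by positivity)
  have hz2 : (X : ℝ) * slope v < z + 1 := Nat.lt_floor_add_one _
  rw [← hcol z hz1]
  apply hrig _ _ hsv (hsec _ hz1) hv (SS_prime hc hX hXm (by simp) (hzX _ hz1)) hav (hang _ hz1)
  have h := AA_lipschitz ((0 : ℤ) : ℝ) (c0 D m : ℝ) (slope ((X : ℤ), (z : ℤ))) (slope v)
  unfold ang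
  refine h.trans ?_
  rw [hslz]
  have h1 : 0 ≤ slope v - (z : ℝ) / X := by
    rw [sub_nonneg, div_le_iff₀ hXr]; linarith
  have h2 : slope v - (z : ℝ) / X ≤ 1 / X := by
    rw [sub_le_iff_le_add, ← add_div, le_div_iff₀ hXr]; linarith
  rw [abs_of_nonneg h1]
  calc 8 * (slope v - (z : ℝ) / X) ≤ 8 * (1 / X) := by gcongr
    _ = 8 / X := by ring
    _ ≤ ε := hXε

/-- **Sign changes for every quadratic.** -/
theorem no_const_sign {P : Set ℕ} (hP : Dense P) {a b c : ℤ} (ha : 0 < a)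
    (hD : ¬ IsSquare (b ^ 2 - 4 * a * c)) (s T0 : ℤ) : ¬ Hyp P a b c s T0 := by
  intro H0
  obtain ⟨m, hc, h2a⟩ := ctx_of hD ha
  have H : Hyp P a b c s (max T0 0) := fun t ht => H0 t ((le_max_left _ _).trans ht)
  obtain ⟨C, hC⟩ := badS_small ha (le_max_right T0 0) H rfl hc h2a
  have hsum : Summable fun i : ℕ =>
      ((badF P (SS (b ^ 2 - 4 * a * c) m) 0 (c0 (b ^ 2 - 4 * a * c) m) (Xs m) i).card : ℝ) /
        4 ^ i := by
    have h1 : Summable fun i : ℕ => C * (1 / ((i + 1 : ℕ) : ℝ) ^ 2) := by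
      apply Summable.mul_left
      exact (summable_nat_add_iff (f := fun n : ℕ => 1 / (n : ℝ) ^ 2) 1).2
        (Real.summable_one_div_nat_pow.2 (by norm_num))
    apply Summable.of_norm_bounded_eventually_nat h1
    filter_upwards [hC] with i hi
    rw [Real.norm_eq_abs, abs_of_nonneg (by positivity)]
    exact hi
  obtain ⟨ε, hε, hrig⟩ := rig hc.nsq' (S := SS (b ^ 2 - 4 * a * c) m)
    (fun u v hu hv hSu hSv => SS_mul hc hu hv hSu hSv) (Xs m) (Xs_mono hc) (Xs_nonneg hc 0)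
    (Xs_growth hc) hsum
  have ha0 := a0_pos 0 (c0 (b ^ 2 - 4 * a * c) m)
  obtain ⟨v, hSp, hsv, hav, hcv⟩ := neg_vec hP hc (δ := a0 0 (c0 (b ^ 2 - 4 * a * c) m) / 4)
    (by positivity) (by linarith)
  have h := all_pos (P := P) hc hε hrig (v := v) ⟨1, one_pos, v, hSp, by simp⟩ hsv hav
  rw [hcv] at h
  norm_num at h

end Pool.Agent.Lib.MP_a17b09_nt
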