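import Pool.Agent.Lib.MP_a17b09_nt.Z.Spec
import Pool.Agent.Lib.MP_a17b09_nt.Delta

set_option autoImplicit false

open Finset

namespace Pool.Agent.Lib.MP_a17b09_nt

lemma not_pow_dvd_mul {r : ℤ} (hr : Prime r) {A B : ℕ} {u v : ℤ} (hu : ¬ r ^ A ∣ u)
    (hv : ¬ r ^ B ∣ v) : ¬ r ^ (A + B) ∣ u * v := by
  rw [pow_dvd_iff_le_emultiplicity, not_le] at hu hv ⊢
  rw [emultiplicity_mul hr]
  push_cast
  exact ENat.add_lt_add hu hv

lemma pow_dvd_of_mul {r : ℤ} (hr : Prime r) {A B : ℕ} {g y : ℤ} (hg : ¬ r ^ A ∣ g)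
    (h : r ^ (A + B) ∣ g * y) : r ^ B ∣ y := by
  by_contra hy
  exact not_pow_dvd_mul hr hg hy h

lemma not_pow_dvd_of_small {r : ℕ} (hr : 2 ≤ r) {A : ℕ} {n : ℤ} (hn : n ≠ 0)
    (hA : n.natAbs ≤ A) : ¬ (r : ℤ) ^ A ∣ n := by
  intro h
  have h1 : r ^ A ∣ n.natAbs := by
    have := Int.natAbs_dvd_natAbs.2 h
    rwa [Int.natAbs_pow, Int.natAbs_natCast] at this
  have h2 := Nat.le_of_dvd (Int.natAbs_pos.2 hn) h1
  have h3 : A < r ^ A := Nat.lt_pow_self hr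
  omega

/-- the signs, glued by the Chinese remainder theorem -/
lemma exists_sign (S : Finset ℕ) (hS : ∀ r ∈ S, r.Prime) (good : ℕ → Prop) (B : ℕ) :
    ∃ e : ℤ, ∀ r ∈ S, (good r → (r : ℤ) ^ B ∣ e - 1) ∧ (¬ good r → (r : ℤ) ^ B ∣ e + 1) := by
  classical
  set Sp := S.filter good with hSp
  set Sm := S.filter (fun r => ¬ good r) with hSm
  have hcop : Nat.Coprime (∏ r ∈ Sp, r) (∏ r ∈ Sm, r) := by
    apply Nat.Coprime.prod_left
    intro r hr
    apply Nat.Coprime.prod_right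
    intro r' hr'
    rw [hSp, mem_filter] at hr
    rw [hSm, mem_filter] at hr'
    rw [Nat.coprime_primes (hS r hr.1) (hS r' hr'.1)]
    rintro rfl
    exact hr'.2 hr.2
  have hcop' : IsCoprime (((∏ r ∈ Sp, r : ℕ) : ℤ) ^ B) (((∏ r ∈ Sm, r : ℕ) : ℤ) ^ B) :=
    (Nat.isCoprime_iff_coprime.2 hcop).pow
  obtain ⟨u, v, huv⟩ := hcop'
  set Pp : ℤ := ((∏ r ∈ Sp, r : ℕ) : ℤ) ^ B with hPp
  set Pm : ℤ := ((∏ r ∈ Sm, r : ℕ) : ℤ) ^ B with hPm
  refine ⟨v * Pm - u * Pp, ?_⟩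
  intro r hr
  constructor
  · intro hg
    have h1 : (r : ℤ) ^ B ∣ Pp := by
      rw [hPp]
      apply pow_dvd_pow_of_dvd
      have : r ∣ ∏ r ∈ Sp, r := dvd_prod_of_mem _ (by rw [hSp, mem_filter]; exact ⟨hr, hg⟩)
      exact_mod_cast this
    have e : v * Pm - u * Pp - 1 = Pp * (-2 * u) := by linear_combination huv
    rw [e]; exact Dvd.dvd.mul_right h1 _
  · intro hg
    have h1 : (r : ℤ) ^ B ∣ Pm := by
      rw [hPm]
      apply pow_dvd_pow_of_dvd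
      have : r ∣ ∏ r ∈ Sm, r := dvd_prod_of_mem _ (by rw [hSm, mem_filter]; exact ⟨hr, hg⟩)
      exact_mod_cast this
    have e : v * Pm - u * Pp + 1 = Pm * (2 * v) := by linear_combination -huv
    rw [e]; exact Dvd.dvd.mul_right h1 _

lemma dvd_of_prime_pow {m : ℕ} (hm : 0 < m) {Y : ℤ}
    (h : ∀ r : ℕ, r.Prime → r ∣ m → (r : ℤ) ^ m ∣ Y) : (m : ℤ) ∣ Y := by
  rw [Int.natCast_dvd, Nat.dvd_iff_prime_pow_dvd_dvd]
  intro r k hr hk
  rcases Nat.eq_zero_or_pos k with h0 | h0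
  · rw [h0]; simp
  · have hrm : r ∣ m := (dvd_pow_self r h0.ne').trans hk
    have h1 := h r hr hrm
    have h2 : r ^ m ∣ Y.natAbs := by
      have := Int.natAbs_dvd_natAbs.2 h1
      rwa [Int.natAbs_pow, Int.natAbs_natCast] at this
    have h3 : k ≤ m := by
      have h4 : r ^ k ≤ m := Nat.le_of_dvd hm hk
      have h5 : k < r ^ k := Nat.lt_pow_self hr.one_lt
      omega
    exact (pow_dvd_pow r h3).trans h2

/-- A special vector (up to the value of the Jacobi symbol) of norm `p k²`. -/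
theorem neg_part1 {P : Set ℕ} (hP : Dense P) {D : ℤ} {m : ℕ} (hc : Ctx D m) (ε : ℝ) (hε : 0 < ε) :
    ∃ p : ℕ, p ∈ P ∧ p.Prime ∧ ((m : ℤ) ^ 2 ∣ (p : ℤ) - 1) ∧ ∃ X y k : ℤ, IsCoprime X y ∧
      IsCoprime X (m : ℤ) ∧ 0 < X ∧ 0 ≤ y ∧ slope (X, y) ≤ ε ∧ 0 < k ∧
      X ^ 2 - D * (m : ℤ) ^ 2 * y ^ 2 = p * k ^ 2 := by
  classical
  have hmz := hc.mz
  have hD0 : D ≠ 0 := by rintro rfl; exact hc.nsq ⟨0, by simp⟩
  set d : ℕ := D.natAbs with hd
  have hd0 : 0 < d := Int.natAbs_pos.2 hD0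
  set A : ℕ := 8 * d ^ 2 with hA
  set B : ℕ := (A + A) + m with hB
  set β : ℕ := m ^ B with hβ
  have hβ0 : 0 < β := by rw [hβ]; exact Nat.pow_pos hc.mpos
  obtain ⟨T, hT⟩ := exists_nat_gt (((β : ℝ) + 3 * β * d / ε) ^ 2)
  have hT0 : 0 < T := by
    have : (0 : ℝ) < T := lt_of_le_of_lt (by positivity) hT
    exact_mod_cast this
  obtain ⟨p, hpP, hp, hpm⟩ := hP (β * T) (Nat.mul_pos hβ0 hT0)
  have hpz : (0 : ℤ) < p := by exact_mod_cast hp.pos
  -- p is large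
  have hpbig : β * T ≤ p := by
    have h1 := (Nat.modEq_iff_dvd' hp.one_lt.le).1 hpm.symm
    have h2 := Nat.le_of_dvd (Nat.sub_pos_of_lt hp.one_lt) h1
    omega
  have hpβ : (β : ℤ) ∣ (p : ℤ) - 1 := by
    have h1 := Nat.modEq_iff_dvd.1 hpm.symm
    push_cast at h1
    exact dvd_trans (Dvd.intro _ rfl) h1
  have hm2 : (m : ℤ) ^ 2 ∣ (p : ℤ) - 1 := by
    refine dvd_trans ?_ hpβ
    rw [hβ]
    push_cast
    apply pow_dvd_pow
    have : 1 ≤ d ^ 2 := Nat.one_le_pow _ _ hd0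
    omega
  -- p = 1 mod 4 |D|
  have hp4 : p % (4 * D.natAbs) = 1 := by
    have h1 : ((4 * D.natAbs : ℕ) : ℤ) ∣ (p : ℤ) - 1 := by
      refine dvd_trans hc.d4 (dvd_trans ?_ hm2)
      exact Dvd.intro_left _ (by ring : (m : ℤ) * m = m ^ 2)
    have h2 : 1 ≡ p [MOD 4 * D.natAbs] := Nat.modEq_iff_dvd.2 (by push_cast at h1 ⊢; exact h1)
    have h3 : 1 % (4 * D.natAbs) = 1 := Nat.mod_eq_of_lt (by omega)
    rw [← h3]; exact h2.symm
  obtain ⟨x0, y0, z0, hz0, hxyz0, -, hy0b, hz0b⟩ := exists_small_norm_eq D hc.nsq p hp hp4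
  -- normalise signs
  obtain ⟨x1, y1, z, hx1, hy1, hz, hxyz, hy1b, hzb⟩ : ∃ x1 y1 z : ℤ, 0 ≤ x1 ∧ 0 ≤ y1 ∧ 0 < z ∧
      x1 ^ 2 - D * y1 ^ 2 = p * z ^ 2 ∧ y1 ^ 2 ≤ 4 * p * d ∧ z ≤ 2 * d :=
    ⟨|x0|, |y0|, |z0|, abs_nonneg _, abs_nonneg _, abs_pos.2 hz0, by
      rw [sq_abs, sq_abs, sq_abs]; exact hxyz0, by rw [sq_abs]; exact hy0b, hz0b⟩
  set N : ℤ := p * z ^ 2 with hN
  have hNpos : 0 < N := by rw [hN]; positivity
  have hz1 : 1 ≤ z := hz
  -- valuations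
  have hzA : (2 * z ^ 2).natAbs ≤ A := by
    have h1 : 2 * z ^ 2 ≤ 2 * (2 * (d : ℤ)) ^ 2 := by gcongr
    have h2 : ((2 * z ^ 2).natAbs : ℤ) = 2 * z ^ 2 := Int.natAbs_of_nonneg (by positivity)
    have h3 : ((2 * z ^ 2).natAbs : ℤ) ≤ (A : ℤ) := by
      rw [h2, hA]; push_cast; linarith [show 2 * (2 * (d : ℤ)) ^ 2 = 8 * (d : ℤ) ^ 2 by ring]
    exact_mod_cast h3
  have hzA' : (2 * z).natAbs ≤ A := by
    have h1 : 2 * z ≤ 2 * z ^ 2 := by
      have := le_self_pow₀ hz1 (two_ne_zero)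
      linarith
    omega
  have hval2 : ∀ r : ℕ, r.Prime → ¬ (r : ℤ) ^ A ∣ 2 * z ^ 2 := fun r hr =>
    not_pow_dvd_of_small hr.two_le (by positivity) hzA
  have hval1 : ∀ r : ℕ, r.Prime → ¬ (r : ℤ) ^ A ∣ 2 * z := fun r hr =>
    not_pow_dvd_of_small hr.two_le (by positivity) hzA'
  -- the signs
  obtain ⟨e, he⟩ := exists_sign m.primeFactors (fun r hr => Nat.prime_of_mem_primeFactors hr)
    (fun r => ¬ (r : ℤ) ^ A ∣ x1 + z) B
  -- choice of w
  obtain ⟨s0, hs0⟩ : ∃ s0 : ℕ, s0 = Nat.sqrt N.toNat := ⟨_, rfl⟩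
  have hNn : ((N.toNat : ℕ) : ℤ) = N := Int.toNat_of_nonneg hNpos.le
  have hs1 : (s0 : ℤ) * s0 ≤ N := by
    rw [← hNn, hs0]; exact_mod_cast Nat.sqrt_le _
  have hs2 : N < ((s0 : ℤ) + 1) * (s0 + 1) := by
    rw [← hNn, hs0]; exact_mod_cast Nat.lt_succ_sqrt _
  have hβz : (0 : ℤ) < β := by exact_mod_cast hβ0
  set w : ℤ := s0 + 1 + (e * z - s0 - 1) % β with hw
  have hw0 : (s0 : ℤ) + 1 ≤ w := by
    have := Int.emod_nonneg (e * z - s0 - 1) hβz.ne'
    rw [hw]; linarith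
  have hw1 : w ≤ s0 + β := by
    have := Int.emod_lt_of_pos (e * z - s0 - 1) hβz
    rw [hw]; linarith
  have hwmod : (β : ℤ) ∣ w - e * z := by
    have h := (Int.dvd_self_sub_emod : (β : ℤ) ∣ (e * z - s0 - 1) - (e * z - s0 - 1) % β)
    have e1 : w - e * z = -((e * z - s0 - 1) - (e * z - s0 - 1) % β) := by rw [hw]; ring
    rw [e1]; exact (dvd_neg).2 h
  have hs00 : (0 : ℤ) ≤ s0 := by positivity
  have hwpos : 0 < w := by linarith
  have hwN : N < w ^ 2 := by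
    calc N < ((s0 : ℤ) + 1) * (s0 + 1) := hs2
      _ ≤ w * w := by gcongr
      _ = w ^ 2 := by ring
  set X2 : ℤ := (N + w ^ 2) * x1 + 2 * w * N with hX2
  set Y2 : ℤ := (w ^ 2 - N) * y1 with hY2
  have hX2pos : 0 < X2 := by
    have h1 : 0 ≤ (N + w ^ 2) * x1 := by positivity
    have h2 : 0 < 2 * w * N := by positivity
    rw [hX2]; linarith
  have hY2nn : 0 ≤ Y2 := by
    have : 0 ≤ w ^ 2 - N := by linarith
    rw [hY2]; positivity
  have hnorm2 : X2 ^ 2 - D * Y2 ^ 2 = p * (z * (N + 2 * w * x1 + w ^ 2)) ^ 2 := by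
    have h1 : N = x1 ^ 2 - D * y1 ^ 2 := hxyz.symm
    have h2 : X2 ^ 2 - D * Y2 ^ 2 = N * (N + 2 * w * x1 + w ^ 2) ^ 2 := by
      rw [hX2, hY2, h1]; ring
    rw [h2]
    nth_rewrite 1 [hN]
    ring
  obtain ⟨g, X, Y, hg, hX, hcop, hXg, hYg⟩ := prim_part (Y := Y2) hX2pos
  have hYnn : 0 ≤ Y := by
    rw [hYg] at hY2nn
    exact nonneg_of_mul_nonneg_right hY2nn hg
  -- m divides Y
  have hmY : (m : ℤ) ∣ Y := by
    apply dvd_of_prime_pow hc.mpos
    intro r hr hrm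
    have hrp : Prime (r : ℤ) := Nat.prime_iff_prime_int.1 hr
    have hrS : r ∈ m.primeFactors := Nat.mem_primeFactors.2 ⟨hr, hrm, hc.mpos.ne'⟩
    have hrβ : (r : ℤ) ^ B ∣ (β : ℤ) := by
      rw [hβ]; push_cast
      exact pow_dvd_pow_of_dvd (by exact_mod_cast hrm) B
    -- there is a sign
    obtain ⟨s, hs, hse, hsx⟩ : ∃ s : ℤ, s ^ 2 = 1 ∧ (r : ℤ) ^ B ∣ e - s ∧
        ¬ (r : ℤ) ^ A ∣ x1 + s * z := by
      by_cases hgood : ¬ (r : ℤ) ^ A ∣ x1 + z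
      · exact ⟨1, by norm_num, (he r hrS).1 hgood, by rw [one_mul]; exact hgood⟩
      · refine ⟨-1, by norm_num, ?_, ?_⟩
        · have := (he r hrS).2 hgood
          rwa [sub_neg_eq_add]
        · intro h
          push Not at hgood
          apply hval1 r hr
          have := dvd_sub hgood h
          have e1 : x1 + z - (x1 + -1 * z) = 2 * z := by ring
          rwa [e1] at this
    have hws : (r : ℤ) ^ B ∣ w - s * z := by
      have h1 := dvd_trans hrβ hwmod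
      have h2 := Dvd.dvd.mul_right hse z
      have h3 := dvd_add h1 h2
      have e1 : w - e * z + (e - s) * z = w - s * z := by ring
      rwa [e1] at h3
    have hpr : (r : ℤ) ^ B ∣ (p : ℤ) - 1 := dvd_trans hrβ hpβ
    have hwN' : (r : ℤ) ^ B ∣ w ^ 2 - N := by
      have e1 : w ^ 2 - N = (w - s * z) * (w + s * z) - ((p : ℤ) - 1) * z ^ 2 := by
        rw [hN]; linear_combination z ^ 2 * hs
      rw [e1]
      exact dvd_sub (Dvd.dvd.mul_right hws _) (Dvd.dvd.mul_right hpr _)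
    have hY2r : (r : ℤ) ^ B ∣ Y2 := by rw [hY2]; exact Dvd.dvd.mul_right hwN' _
    have hX2r : ¬ (r : ℤ) ^ (A + A) ∣ X2 := by
      intro h
      apply not_pow_dvd_mul hrp (hval2 r hr) hsx
      have hAB : (r : ℤ) ^ (A + A) ∣ (r : ℤ) ^ B := pow_dvd_pow _ (by omega)
      have e1 : 2 * z ^ 2 * (x1 + s * z) = X2 - ((w ^ 2 - N) * x1 + 2 * N * (w - s * z) +
          2 * ((p : ℤ) - 1) * z ^ 2 * (x1 + s * z)) := by
        rw [hX2, hN]; ring
      rw [e1]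
      apply dvd_sub h
      apply dvd_add
      · apply dvd_add
        · exact Dvd.dvd.mul_right (dvd_trans hAB hwN') _
        · exact Dvd.dvd.mul_left (dvd_trans hAB hws) _
      · have h5 : (r : ℤ) ^ (A + A) ∣ (p : ℤ) - 1 := dvd_trans hAB hpr
        have e2 : 2 * ((p : ℤ) - 1) * z ^ 2 * (x1 + s * z) =
            ((p : ℤ) - 1) * (2 * z ^ 2 * (x1 + s * z)) := by ring
        rw [e2]
        exact Dvd.dvd.mul_right h5 _
    have hgr : ¬ (r : ℤ) ^ (A + A) ∣ g := by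
      intro h
      exact hX2r (by rw [hXg]; exact Dvd.dvd.mul_right h _)
    apply pow_dvd_of_mul hrp hgr
    rw [← hYg]
    exact hY2r
  obtain ⟨y, hy⟩ := hmY
  have hynn : 0 ≤ y := by
    rw [hy] at hYnn
    exact nonneg_of_mul_nonneg_right hYnn hmz
  refine ⟨p, hpP, hp, hm2, X, y, ?_⟩
  -- k
  set n' : ℤ := X ^ 2 - D * (m : ℤ) ^ 2 * y ^ 2 with hn'
  set L : ℤ := z * (N + 2 * w * x1 + w ^ 2) with hL
  have hgn : g ^ 2 * n' = p * L ^ 2 := by
    rw [← hnorm2, hXg, hYg, hn', hy]; ring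
  have hLpos : 0 < L := by
    rw [hL]
    have : 0 ≤ 2 * w * x1 := by positivity
    positivity
  have hn'pos : 0 < n' := by
    have h1 : 0 < g ^ 2 * n' := by rw [hgn]; positivity
    exact (mul_pos_iff_of_pos_left (by positivity)).1 h1
  obtain ⟨k, hk, hkn⟩ : ∃ k : ℤ, 0 < k ∧ n' = p * k ^ 2 := by
    have h1 : IsSquare ((p : ℤ) * n') := by
      apply isSquare_of_sq_eq_mul_sq' _ (p * L) g hg.ne'
      linear_combination -(p : ℤ) * hgn
    obtain ⟨l, hl⟩ := h1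
    have hpp : Prime (p : ℤ) := Nat.prime_iff_prime_int.1 hp
    have h2 : (p : ℤ) ∣ l := by
      have : (p : ℤ) ∣ l * l := ⟨n', hl.symm⟩
      rcases hpp.dvd_or_dvd this with h | h <;> exact h
    obtain ⟨l', rfl⟩ := h2
    have h3 : n' = p * l' ^ 2 := by
      have : (p : ℤ) * n' = p * (p * l' ^ 2) := by rw [hl]; ring
      exact mul_left_cancel₀ hpz.ne' this
    refine ⟨|l'|, ?_, by rw [sq_abs]; exact h3⟩
    apply abs_pos.2
    rintro rfl
    rw [h3] at hn'pos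
    simp at hn'pos
  refine ⟨k, ?_, ?_, hX, hynn, ?_, hk, hkn⟩
  · exact hcop.of_isCoprime_of_dvd_right ⟨m, by rw [hy]; ring⟩
  · exact hcop.of_isCoprime_of_dvd_right ⟨y, hy⟩
  · -- slope
    set σ : ℝ := Real.sqrt (N : ℝ) with hσ
    have hNr : (0 : ℝ) < N := by exact_mod_cast hNpos
    have hσpos : 0 < σ := Real.sqrt_pos.2 hNr
    have hσsq : σ ^ 2 = N := Real.sq_sqrt hNr.le
    have hs0σ : (s0 : ℝ) ≤ σ := by
      apply Real.le_sqrt_of_sq_le
      have : ((s0 : ℤ) : ℝ) * ((s0 : ℤ) : ℝ) ≤ (N : ℝ) := by exact_mod_cast hs1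
      push_cast at this
      rw [sq]; exact this
    have hσw : σ ≤ w := by
      rw [hσ]
      apply Real.sqrt_le_iff.2
      refine ⟨by exact_mod_cast hwpos.le, by exact_mod_cast hwN.le⟩
    have hσbig : (β : ℝ) + 3 * β * d / ε ≤ σ := by
      rw [hσ]
      apply Real.le_sqrt_of_sq_le
      have h1 : (T : ℝ) ≤ p := by
        have : T ≤ p := le_trans (Nat.le_mul_of_pos_left T hβ0) hpbig
        exact_mod_cast this
      have h2 : (p : ℝ) ≤ N := by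
        have h3 : (p : ℤ) ≤ N := by
          rw [hN]
          have h4 : (1 : ℤ) ≤ z ^ 2 := one_le_pow₀ hz1
          exact le_mul_of_one_le_right hpz.le h4
        exact_mod_cast h3
      linarith
    have hβr : (0 : ℝ) < β := by exact_mod_cast hβ0
    have hdr : (1 : ℝ) ≤ d := by exact_mod_cast hd0
    have hβσ : (β : ℝ) ≤ σ := by
      have : 0 ≤ 3 * (β : ℝ) * d / ε := by positivity
      linarith
    have hy1r : (y1 : ℝ) ≤ 2 * σ * d := by
      have h1 : (y1 : ℝ) ^ 2 ≤ (2 * σ * d) ^ 2 := by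
        have h2 : (y1 : ℝ) ^ 2 ≤ 4 * p * d := by exact_mod_cast hy1b
        have h3 : (p : ℝ) ≤ N := by
          have h3 : (p : ℤ) ≤ N := by
            rw [hN]
            have h4 : (1 : ℤ) ≤ z ^ 2 := one_le_pow₀ hz1
            exact le_mul_of_one_le_right hpz.le h4
          exact_mod_cast h3
        calc (y1 : ℝ) ^ 2 ≤ 4 * p * d := h2
          _ ≤ 4 * N * (d * d) := by
            have : (d : ℝ) ≤ d * d := le_mul_of_one_le_left (by linarith) hdr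
            gcongr
          _ = (2 * σ * d) ^ 2 := by rw [← hσsq]; ring
      exact abs_le_of_sq_le_sq' h1 (by positivity) |>.2
    have hY2r : (Y2 : ℝ) ≤ β * (3 * σ) * (2 * σ * d) := by
      have h1 : ((w : ℝ) ^ 2 - N) ≤ β * (3 * σ) := by
        have h2 : (w : ℝ) ≤ s0 + β := by exact_mod_cast hw1
        have h3 : (s0 : ℝ) * s0 ≤ N := by
          have : ((s0 : ℤ) : ℝ) * ((s0 : ℤ) : ℝ) ≤ (N : ℝ) := by exact_mod_cast hs1
          push_cast at this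
          exact this
        have hw0r : (0 : ℝ) < w := by exact_mod_cast hwpos
        have h4 : (w : ℝ) ^ 2 ≤ (s0 + β) ^ 2 := by gcongr
        have h5 : ((s0 : ℝ) + β) ^ 2 - N ≤ β * (2 * s0 + β) := by
          have h7 : ((s0 : ℝ) + β) ^ 2 = s0 * s0 + β * (2 * s0 + β) := by ring
          linarith
        have h6 : (β : ℝ) * (2 * s0 + β) ≤ β * (3 * σ) := by
          gcongr; linarith
        linarith
      have h0 : 0 ≤ (w : ℝ) ^ 2 - N := by
        have : (N : ℝ) < (w : ℝ) ^ 2 := by exact_mod_cast hwN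
        linarith
      have hy10 : (0 : ℝ) ≤ y1 := by exact_mod_cast hy1
      rw [hY2]
      push_cast
      gcongr
    have hX2r : 2 * σ ^ 3 ≤ (X2 : ℝ) := by
      have h1 : 2 * w * N ≤ X2 := by
        have : 0 ≤ (N + w ^ 2) * x1 := by positivity
        rw [hX2]; linarith
      have h2 : 2 * (w : ℝ) * N ≤ X2 := by exact_mod_cast h1
      have h3 : 2 * σ ^ 3 ≤ 2 * (w : ℝ) * N := by
        rw [← hσsq]
        calc 2 * σ ^ 3 = 2 * σ * σ ^ 2 := by ring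
          _ ≤ 2 * w * σ ^ 2 := by gcongr
      linarith
    have hX2r0 : (0 : ℝ) < X2 := by exact_mod_cast hX2pos
    -- slope (X, y) ≤ Y2 / X2
    have hsl : slope (X, y) ≤ (Y2 : ℝ) / X2 := by
      unfold slope
      simp only
      have hXr : (0 : ℝ) < X := by exact_mod_cast hX
      have hgr : (0 : ℝ) < g := by exact_mod_cast hg
      have hyr : (0 : ℝ) ≤ y := by exact_mod_cast hynn
      have hmr : (1 : ℝ) ≤ m := by exact_mod_cast hc.mpos
      rw [hXg, hYg, hy]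
      push_cast
      rw [mul_div_mul_left _ _ hgr.ne']
      gcongr
      exact le_mul_of_one_le_left hyr hmr
    refine hsl.trans ?_
    rw [div_le_iff₀ hX2r0]
    have h1 : 3 * β * d / ε ≤ σ := by linarith
    rw [div_le_iff₀ hε] at h1
    calc (Y2 : ℝ) ≤ β * (3 * σ) * (2 * σ * d) := hY2r
      _ = (3 * β * d) * (2 * σ ^ 2) := by ring
      _ ≤ (σ * ε) * (2 * σ ^ 2) := by gcongr
      _ = ε * (2 * σ ^ 3) := by ring
      _ ≤ ε * X2 := by gcongr

end Pool.Agent.Lib.MP_a17b09_nt
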