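import Pool.Agent.Lib.MP_a17b09_nt.Z.Neg1

set_option autoImplicit false

open Finset

namespace Pool.Agent.Lib.MP_a17b09_nt

/-- a vector of square norm with negative Jacobi symbol -/
lemma jn {D X v w : ℤ} (hX : 0 < X) (h3 : X % 4 = 3) (hv : IsCoprime v X) (hw : IsCoprime w X)
    (h : X ∣ D * v ^ 2 - -(w ^ 2)) : jacobiSym D X.natAbs = -1 := by
  have e1 : ((X.natAbs : ℕ) : ℤ) = X := Int.natAbs_of_nonneg hX.le
  have h4 : X.natAbs % 4 = 3 := by omega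
  have hodd : Odd X.natAbs := by rw [Nat.odd_iff]; omega
  have h1 : jacobiSym (D * v ^ 2) X.natAbs = jacobiSym (-(w ^ 2)) X.natAbs := by
    apply jacobiSym.mod_left'
    rw [e1]
    exact ((Int.modEq_iff_dvd).2 h).symm
  rw [jacobiSym.mul_left, jacobiSym.neg _ hodd, ZMod.χ₄_nat_three_mod_four h4,
    jacobiSym.sq_one' (by rw [e1]; exact Int.isCoprime_iff_gcd_eq_one.1 hv),
    jacobiSym.sq_one' (by rw [e1]; exact Int.isCoprime_iff_gcd_eq_one.1 hw)] at h1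
  linarith

/-- the auxiliary vectors `κ` -/
def IsKap (D : ℤ) (m : ℕ) (x y : ℤ) : Prop :=
  0 < x ∧ 0 ≤ y ∧ IsCoprime x y ∧ IsCoprime x (m : ℤ) ∧ jacobiSym D x.natAbs = -1 ∧
    ∃ l : ℤ, l ≠ 0 ∧ x ^ 2 - D * (m : ℤ) ^ 2 * y ^ 2 = l ^ 2

lemma exists_kappa_neg {D : ℤ} {m : ℕ} (hc : Ctx D m) (hD : D < 0) {ε : ℝ} (hε : 0 < ε) :
    ∃ x y : ℤ, IsKap D m x y ∧ slope (x, y) ≤ ε := by
  obtain ⟨n, hn⟩ := exists_nat_gt (2 / ε)
  have hn0 : (0 : ℝ) < n := lt_trans (by positivity) hn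
  have hnz : (0 : ℤ) < n := by exact_mod_cast hn0
  have hm := hc.mz
  obtain ⟨m', hm'⟩ : (4 : ℤ) ∣ (m : ℤ) := by
    have : 4 ∣ m := dvd_trans (by norm_num) hc.d8
    exact_mod_cast this
  have hm8 : (8 : ℤ) ≤ m := by
    have := Nat.le_of_dvd hc.mpos hc.d8
    exact_mod_cast this
  set X : ℤ := (-D) * (m : ℤ) ^ 2 * n ^ 2 - 1 with hX
  have hDD : 1 ≤ -D := by omega
  have hbig : (n : ℤ) ^ 2 ≤ X := by
    have h1 : (8 : ℤ) ^ 2 ≤ (m : ℤ) ^ 2 := by gcongr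
    have h2 : (1 : ℤ) ≤ (n : ℤ) ^ 2 := one_le_pow₀ hnz
    have h3 : 1 * 8 ^ 2 * (n : ℤ) ^ 2 ≤ (-D) * (m : ℤ) ^ 2 * n ^ 2 := by gcongr
    rw [hX]; linarith
  have hXpos : 0 < X := lt_of_lt_of_le (by positivity) hbig
  refine ⟨X, 2 * n, ⟨hXpos, by positivity, ?_, ?_, ?_, ?_⟩, ?_⟩
  · refine ⟨-1, (-D) * (2 * m' * m) * n, ?_⟩
    rw [hX, hm']; ring
  · refine ⟨-1, (-D) * m * n ^ 2, ?_⟩
    rw [hX]; ring
  · apply jn (v := 1) (w := D * m * n) hXpos
    · have : X = 4 * ((-D) * (m' * m) * n ^ 2) - 1 := by rw [hX, sq, hm']; ring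
      omega
    · exact isCoprime_one_left
    · refine ⟨-(m * n), -1, ?_⟩
      rw [hX]; ring
    · refine ⟨-D, ?_⟩
      rw [hX]; ring
  · refine ⟨(-D) * (m : ℤ) ^ 2 * n ^ 2 + 1, ?_, ?_⟩
    · have : 0 < (-D) * (m : ℤ) ^ 2 * n ^ 2 + 1 := by
        have : 0 ≤ (-D) * (m : ℤ) ^ 2 * n ^ 2 := by
          have : 0 ≤ -D := by omega
          positivity
        linarith
      exact this.ne'
    · rw [hX]; ring
  · unfold slope
    simp only
    have hXr : (0 : ℝ) < X := by exact_mod_cast hXpos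
    rw [div_le_iff₀ hXr]
    have hbigr : (n : ℝ) ^ 2 ≤ X := by exact_mod_cast hbig
    rw [div_lt_iff₀ hε] at hn
    push_cast
    calc (2 : ℝ) * n ≤ (n * ε) * n := by gcongr
      _ = ε * (n : ℝ) ^ 2 := by ring
      _ ≤ ε * X := by gcongr

lemma exists_kappa_three {D : ℤ} {m : ℕ} (hc : Ctx D m) {r : ℕ} (hr : r.Prime) (hr3 : r % 4 = 3)
    {i : ℕ} {D1 : ℤ} (hD1 : 0 < D1) (hrD1 : ¬ (r : ℤ) ∣ D1) (hD : D = (r : ℤ) ^ (2 * i + 1) * D1)
    {ε : ℝ} (hε : 0 < ε) : ∃ x y : ℤ, IsKap D m x y ∧ slope (x, y) ≤ ε := by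
  obtain ⟨k, hk⟩ := exists_nat_gt (2 / ε)
  have hk0 : (0 : ℝ) < k := lt_trans (by positivity) hk
  obtain ⟨s, m1, hrm1, hm⟩ := Nat.exists_eq_pow_mul_and_not_dvd hc.mpos.ne' r hr.one_lt.ne'
  have hrodd : Odd (r : ℤ) := by
    have : Odd r := by rw [Nat.odd_iff]; omega
    exact_mod_cast this
  have hm1pos : 0 < m1 := Nat.pos_of_ne_zero (by rintro rfl; rw [mul_zero] at hm; exact hc.mpos.ne' hm)
  have h8 : (8 : ℤ) ∣ (m1 : ℤ) := by
    have h1 : (8 : ℤ) ∣ (r : ℤ) ^ s * m1 := by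
      have := hc.d8
      rw [hm] at this
      exact_mod_cast this
    refine IsCoprime.dvd_of_dvd_mul_left ?_ h1
    apply IsCoprime.pow_right
    have h2 : IsCoprime (2 : ℤ) (r : ℤ) := by
      rw [Int.isCoprime_iff_gcd_eq_one]
      have h3 : Nat.Coprime 2 r := by
        rw [Nat.coprime_two_left]; exact_mod_cast hrodd
      exact_mod_cast h3
    have := h2.pow_left (m := 3)
    norm_num at this
    exact this
  obtain ⟨m2, hm2⟩ := h8
  have hrp : Prime (r : ℤ) := Nat.prime_iff_prime_int.1 hr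
  have hrm1z : ¬ (r : ℤ) ∣ (m1 : ℤ) := by
    intro h; exact hrm1 (by exact_mod_cast h)
  have hm1z : (0 : ℤ) < m1 := by exact_mod_cast hm1pos
  have hmz : (m : ℤ) = (r : ℤ) ^ s * m1 := by rw [hm]; push_cast; ring
  set R : ℤ := (r : ℤ) ^ (2 * i + 1 + 2 * s) with hR
  set Q : ℤ := D1 * (m1 : ℤ) ^ 2 * (2 ^ k) ^ 2 with hQ
  have hRpos : 0 < R := by
    have : (0 : ℤ) < r := by exact_mod_cast hr.pos
    rw [hR]; positivity
  have hQpos : 0 < Q := by rw [hQ]; positivity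
  have hR4 : R % 4 = 3 := by
    have h1 : (r : ℤ) % 4 = 3 := by omega
    have h2 : (r : ℤ) ^ (2 * (i + s)) ≡ 1 [ZMOD 4] := by
      rw [pow_mul]
      have h3 : (r : ℤ) ^ 2 ≡ 1 [ZMOD 4] := by
        have h4 : (r : ℤ) ≡ 3 [ZMOD 4] := h1
        have h5 := h4.pow 2
        exact h5.trans (by decide)
      have h6 := h3.pow (i + s)
      rwa [one_pow] at h6
    have h3 : R = (r : ℤ) ^ (2 * (i + s)) * r := by rw [hR]; ring
    have h4 : R ≡ 1 * 3 [ZMOD 4] := by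
      rw [h3]; exact h2.mul (by exact h1)
    exact h4
  have hX4 : (R + Q) % 4 = 3 := by
    have : Q = 4 * (16 * D1 * m2 ^ 2 * (2 ^ k) ^ 2) := by rw [hQ, hm2]; ring
    omega
  have hXpos : 0 < R + Q := by positivity
  have hXodd : IsCoprime (2 : ℤ) (R + Q) := by
    refine ⟨-((R + Q) / 2), 1, ?_⟩
    omega
  -- coprimalities
  have hrX : IsCoprime (r : ℤ) (R + Q) := by
    rw [hrp.coprime_iff_not_dvd]
    intro h
    have h1 : (r : ℤ) ∣ R := by rw [hR]; exact dvd_pow_self _ (by omega)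
    have h2 : (r : ℤ) ∣ Q := (dvd_add_right h1).1 h
    rw [hQ] at h2
    rcases hrp.dvd_or_dvd h2 with h3 | h3
    · rcases hrp.dvd_or_dvd h3 with h4 | h4
      · exact hrD1 h4
      · exact hrm1z (hrp.dvd_of_dvd_pow h4)
    · have h4 := hrp.dvd_of_dvd_pow (hrp.dvd_of_dvd_pow h3)
      have h5 : r ∣ 2 := by exact_mod_cast h4
      have := Nat.le_of_dvd (by norm_num) h5
      have := hr.two_le
      omega
  have hm1X : IsCoprime (m1 : ℤ) (R + Q) := by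
    have h1 : IsCoprime (m1 : ℤ) R := by
      rw [hR]
      exact ((hrp.coprime_iff_not_dvd).2 hrm1z).symm.pow_right
    have e : R + Q = R + m1 * (D1 * m1 * (2 ^ k) ^ 2) := by rw [hQ]; ring
    rw [e]
    exact h1.add_mul_left_right _
  have hmX : IsCoprime (m : ℤ) (R + Q) := by
    rw [hmz]
    exact (hrX.pow_left).mul_left hm1X
  have hvX : IsCoprime ((m1 : ℤ) * 2 ^ k) (R + Q) := hm1X.mul_left hXodd.pow_left
  refine ⟨R + Q, 2 ^ (k + 1), ⟨hXpos, by positivity, (hXodd.pow_left).symm, hmX.symm, ?_, ?_⟩, ?_⟩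
  · apply jn (v := (m1 : ℤ) * 2 ^ k) (w := (r : ℤ) ^ (2 * i + 1 + s)) hXpos hX4 hvX hrX.pow_left
    refine ⟨(r : ℤ) ^ (2 * i + 1), ?_⟩
    rw [hD, hR, hQ]; ring
  · refine ⟨R - Q, ?_, ?_⟩
    · intro h
      have h1 : Q = 4 * (16 * D1 * m2 ^ 2 * (2 ^ k) ^ 2) := by rw [hQ, hm2]; ring
      omega
    · have h1 : D * (m : ℤ) ^ 2 * (2 ^ (k + 1)) ^ 2 = 4 * R * Q := by
        rw [hD, hmz, hR, hQ]; ring
      rw [h1]; ring
  · unfold slope
    simp only
    have hXr : (0 : ℝ) < ((R + Q : ℤ) : ℝ) := by exact_mod_cast hXpos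
    rw [div_le_iff₀ hXr]
    have hbig : (2 ^ k) ^ 2 ≤ R + Q := by
      have h1 : 1 * (1 : ℤ) ^ 2 * (2 ^ k) ^ 2 ≤ Q := by
        rw [hQ]
        have h2 : (1 : ℤ) ≤ D1 := hD1
        have h3 : (1 : ℤ) ≤ m1 := hm1z
        gcongr
      linarith
    have hbigr : ((2 : ℝ) ^ k) ^ 2 ≤ ((R + Q : ℤ) : ℝ) := by exact_mod_cast hbig
    rw [div_lt_iff₀ hε] at hk
    have h2k : (k : ℝ) ≤ 2 ^ k := by
      have : k < 2 ^ k := Nat.lt_two_pow_self
      exact_mod_cast this.le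
    push_cast at hbigr ⊢
    calc (2 : ℝ) ^ (k + 1) = 2 * 2 ^ k := by ring
      _ ≤ (k * ε) * 2 ^ k := by gcongr
      _ ≤ (2 ^ k * ε) * 2 ^ k := by gcongr
      _ = ε * (2 ^ k) ^ 2 := by ring
      _ ≤ _ := by gcongr

/-- Case B: the Jacobi symbol is automatically `1`. -/
lemma jac_eq_of_sq (a : ℕ) (ha0 : a ≠ 0) {n l : ℕ} (hn : Odd n) (hl : Odd l)
    (h16 : (16 : ℤ) ∣ (n : ℤ) ^ 2 - (l : ℤ) ^ 2)
    (ha : ∀ r : ℕ, r.Prime → r ∣ a → r % 4 ≠ 3)
    (har : ∀ r : ℕ, r.Prime → r ∣ a → (r : ℤ) ∣ (n : ℤ) ^ 2 - (l : ℤ) ^ 2) :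
    jacobiSym a n = jacobiSym a l := by
  induction a using Nat.recOnMul with
  | zero => exact absurd rfl ha0
  | one => simp
  | prime r hr =>
    have hr4 := ha r hr (dvd_refl r)
    rcases hr.eq_two_or_odd with h2 | h2
    · subst h2
      have key : ∀ n : ℕ, Odd n → ((n % 8 = 1 ∨ n % 8 = 7) ↔ n ^ 2 % 16 = 1) := by
        intro n hn
        obtain ⟨q, s, hs, hq⟩ : ∃ q s : ℕ, s < 8 ∧ n = 8 * q + s :=
          ⟨n / 8, n % 8, Nat.mod_lt _ (by norm_num), by omega⟩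
        have h1 : n ^ 2 % 16 = s ^ 2 % 16 := by
          have : n ^ 2 = s ^ 2 + 16 * (4 * q ^ 2 + q * s) := by rw [hq]; ring
          rw [this, Nat.add_mul_mod_self_left]
        have h2 : n % 8 = s := by omega
        rw [Nat.odd_iff] at hn
        rw [h1, h2]
        interval_cases s <;> simp_all <;> omega
      have hnl : n ^ 2 % 16 = l ^ 2 % 16 := by
        have h5 : ((l ^ 2 : ℕ) : ℤ) ≡ ((n ^ 2 : ℕ) : ℤ) [ZMOD ((16 : ℕ) : ℤ)] := by
          apply (Int.modEq_iff_dvd).2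
          push_cast
          exact h16
        have h6 := Int.natCast_modEq_iff.1 h5
        exact h6.symm
      have e1 := jacobiSym.at_two hn
      have e2 := jacobiSym.at_two hl
      push_cast
      rw [e1, e2, ZMod.χ₈_nat_eq_if_mod_eight, ZMod.χ₈_nat_eq_if_mod_eight]
      have hn' : n % 2 = 1 := Nat.odd_iff.1 hn
      have hl' : l % 2 = 1 := Nat.odd_iff.1 hl
      rw [hn', hl']
      have k1 := key n hn
      have k2 := key l hl
      have hne : ¬ ((1 : ℕ) = 0) := by norm_num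
      simp only [if_neg hne]
      by_cases hh : n ^ 2 % 16 = 1
      · rw [if_pos (k1.2 hh), if_pos (k2.2 (by rw [← hnl]; exact hh))]
      · rw [if_neg (fun h => hh (k1.1 h)), if_neg (fun h => hh (by rw [hnl]; exact k2.1 h))]
    · have hr1 : r % 4 = 1 := by omega
      rw [jacobiSym.quadratic_reciprocity_one_mod_four hr1 hn,
        jacobiSym.quadratic_reciprocity_one_mod_four hr1 hl]
      have hrp : Prime (r : ℤ) := Nat.prime_iff_prime_int.1 hr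
      have h1 := har r hr (dvd_refl r)
      have h2 : (r : ℤ) ∣ ((n : ℤ) - l) * (n + l) := by
        have : ((n : ℤ) - l) * (n + l) = (n : ℤ) ^ 2 - (l : ℤ) ^ 2 := by ring
        rw [this]; exact h1
      rcases hrp.dvd_or_dvd h2 with h3 | h3
      · apply jacobiSym.mod_left'
        exact ((Int.modEq_iff_dvd).2 h3).symm
      · have e1 : jacobiSym (n : ℤ) r = jacobiSym (-(l : ℤ)) r := by
          apply jacobiSym.mod_left'
          have h4 : (r : ℤ) ∣ (n : ℤ) - -(l : ℤ) := by rw [sub_neg_eq_add]; exact h3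
          exact ((Int.modEq_iff_dvd).2 h4).symm
        rw [e1, jacobiSym.neg _ (Nat.odd_iff.2 (by omega)), ZMod.χ₄_nat_one_mod_four hr1, one_mul]
  | mul a b iha ihb =>
    have ha0' : a ≠ 0 := fun h0 => ha0 (by rw [h0, zero_mul])
    have hb0' : b ≠ 0 := fun h0 => ha0 (by rw [h0, mul_zero])
    push_cast
    rw [jacobiSym.mul_left, jacobiSym.mul_left,
      iha ha0' (fun r hr h => ha r hr (Dvd.dvd.mul_right h b))
        (fun r hr h => har r hr (Dvd.dvd.mul_right h b)),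
      ihb hb0' (fun r hr h => ha r hr (Dvd.dvd.mul_left h a))
        (fun r hr h => har r hr (Dvd.dvd.mul_left h a))]

lemma caseB {D : ℤ} {m : ℕ} (hc : Ctx D m) {a b : ℕ} (hab : D = (b : ℤ) ^ 2 * a) (ha0 : a ≠ 0)
    (ha : ∀ r : ℕ, r.Prime → r ∣ a → r % 4 ≠ 3) {p : ℕ} (hpm : (m : ℤ) ^ 2 ∣ (p : ℤ) - 1)
    {X y k : ℤ} (hXy : IsCoprime X y) (hXm : IsCoprime X (m : ℤ)) (hX : 0 < X) (hk : 0 < k)
    (hn : X ^ 2 - D * (m : ℤ) ^ 2 * y ^ 2 = p * k ^ 2) : jacobiSym D X.natAbs = 1 := by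
  have e1 : ((X.natAbs : ℕ) : ℤ) = X := Int.natAbs_of_nonneg hX.le
  have e2 : ((k.natAbs : ℕ) : ℤ) = k := Int.natAbs_of_nonneg hk.le
  -- k is coprime to m
  have hnm : IsCoprime (X ^ 2 - D * (m : ℤ) ^ 2 * y ^ 2) (m : ℤ) := by
    have h1 : IsCoprime (X ^ 2) (m : ℤ) := hXm.pow_left
    have e : X ^ 2 - D * (m : ℤ) ^ 2 * y ^ 2 = X ^ 2 + m * (-(D * m * y ^ 2)) := by ring
    rw [e]
    exact h1.add_mul_left_left _
  have hkm : IsCoprime k (m : ℤ) := by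
    apply hnm.of_isCoprime_of_dvd_left
    rw [hn]
    exact ⟨p * k, by ring⟩
  have hm2 : (m : ℤ) ^ 2 ∣ X ^ 2 - k ^ 2 := by
    have e : X ^ 2 - k ^ 2 = (m : ℤ) ^ 2 * (D * y ^ 2) + ((p : ℤ) - 1) * k ^ 2 := by
      linear_combination hn
    rw [e]
    exact dvd_add (Dvd.intro _ rfl) (Dvd.dvd.mul_right hpm _)
  have hXodd : Odd X.natAbs := by
    rw [← Nat.not_even_iff_odd, even_iff_two_dvd]
    intro h3
    apply hc.odd hXm
    rw [← e1]; exact_mod_cast h3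
  have hkodd : Odd k.natAbs := by
    rw [← Nat.not_even_iff_odd, even_iff_two_dvd]
    intro h3
    apply hc.odd hkm
    rw [← e2]; exact_mod_cast h3
  have hbm : (b : ℤ) ∣ (m : ℤ) := by
    refine dvd_trans ?_ hc.Dm
    rw [hab]; exact ⟨b * a, by ring⟩
  have ham : (a : ℤ) ∣ (m : ℤ) := by
    refine dvd_trans ?_ hc.Dm
    rw [hab]; exact ⟨b ^ 2, by ring⟩
  have hmm : (m : ℤ) ∣ (m : ℤ) ^ 2 := ⟨m, by ring⟩
  have h1 : jacobiSym a X.natAbs = jacobiSym a k.natAbs := by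
    apply jac_eq_of_sq a ha0 hXodd hkodd
    · rw [e1, e2]
      refine dvd_trans ?_ hm2
      obtain ⟨q, hq⟩ := hc.d8
      refine ⟨4 * q ^ 2, ?_⟩
      rw [hq]; push_cast; ring
    · exact ha
    · intro r hr hra
      rw [e1, e2]
      refine dvd_trans (dvd_trans ?_ (dvd_trans ham hmm)) hm2
      exact_mod_cast hra
  have h2 : jacobiSym D X.natAbs = jacobiSym a X.natAbs := by
    rw [hab, jacobiSym.mul_left, jacobiSym.sq_one', one_mul]
    rw [e1]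
    exact Int.isCoprime_iff_gcd_eq_one.1 (hXm.symm.of_isCoprime_of_dvd_left hbm)
  have h3 : jacobiSym D k.natAbs = jacobiSym a k.natAbs := by
    rw [hab, jacobiSym.mul_left, jacobiSym.sq_one', one_mul]
    rw [e2]
    exact Int.isCoprime_iff_gcd_eq_one.1 (hkm.symm.of_isCoprime_of_dvd_left hbm)
  have h4 : jacobiSym D k.natAbs = 1 := by
    apply jac_prime_one D k.natAbs (Int.natAbs_ne_zero.2 hk.ne')
    intro q hq hqk
    have hqk' : (q : ℤ) ∣ k := Int.natCast_dvd.2 hqk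
    apply jac_of_dvd_norm D m hc.Dm hXy q hq
    · intro hqm
      obtain ⟨u, v, huv⟩ := hkm
      have h3 : (q : ℤ) ∣ 1 := by
        rw [← huv]
        exact dvd_add (Dvd.dvd.mul_left hqk' u) (Dvd.dvd.mul_left hqm v)
      exact (Nat.prime_iff_prime_int.1 hq).not_isUnit (isUnit_of_dvd_one h3)
    · rw [hn]
      exact Dvd.dvd.mul_left (dvd_pow hqk' (two_ne_zero)) _
  rw [h2, h1, ← h3, h4]

/-- either auxiliary vectors exist or the symbol is automatically `1` -/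
lemma kappa_or {D : ℤ} {m : ℕ} (hc : Ctx D m) {ε : ℝ} (hε : 0 < ε) :
    (∃ x y : ℤ, IsKap D m x y ∧ slope (x, y) ≤ ε) ∨
    (∀ p : ℕ, (m : ℤ) ^ 2 ∣ (p : ℤ) - 1 → ∀ X y k : ℤ, IsCoprime X y → IsCoprime X (m : ℤ) →
      0 < X → 0 < k → X ^ 2 - D * (m : ℤ) ^ 2 * y ^ 2 = p * k ^ 2 →
      jacobiSym D X.natAbs = 1) := by
  have hD0 : D ≠ 0 := by rintro rfl; exact hc.nsq ⟨0, by simp⟩
  rcases lt_or_gt_of_ne hD0 with h | h
  · exact Or.inl (exists_kappa_neg hc h hε)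
  · obtain ⟨a, b, hab, hsq⟩ := Nat.sq_mul_squarefree D.natAbs
    have eD : ((D.natAbs : ℕ) : ℤ) = D := Int.natAbs_of_nonneg h.le
    have hab' : D = (b : ℤ) ^ 2 * a := by rw [← eD, ← hab]; push_cast; ring
    have ha0 : a ≠ 0 := hsq.ne_zero
    by_cases hex : ∃ r : ℕ, r.Prime ∧ r ∣ a ∧ r % 4 = 3
    · left
      obtain ⟨r, hr, hra, hr3⟩ := hex
      obtain ⟨a', ha'⟩ := hra
      have hb0 : b ≠ 0 := by
        rintro rfl
        rw [hab'] at h
        simp at h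
      obtain ⟨i, b', hb', hb⟩ := Nat.exists_eq_pow_mul_and_not_dvd hb0 r hr.one_lt.ne'
      have hra' : ¬ r ∣ a' := by
        rintro ⟨a2, ha2⟩
        rw [ha', ha2] at hsq
        have h1 := hsq r ⟨a2, by ring⟩
        exact hr.one_lt.ne' (Nat.isUnit_iff.1 h1)
      have hb'0 : 0 < b' := Nat.pos_of_ne_zero (by rintro rfl; exact hb' (dvd_zero r))
      have ha'0 : 0 < a' := Nat.pos_of_ne_zero (by rintro rfl; exact hra' (dvd_zero r))
      have hrp : Prime (r : ℤ) := Nat.prime_iff_prime_int.1 hr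
      apply exists_kappa_three hc hr hr3 (i := i) (D1 := (b' : ℤ) ^ 2 * a') _ _ _ hε
      · have h1 : (0 : ℤ) < b' := by exact_mod_cast hb'0
        have h2 : (0 : ℤ) < a' := by exact_mod_cast ha'0
        positivity
      · intro hd
        rcases hrp.dvd_or_dvd hd with h3 | h3
        · exact hb' (by exact_mod_cast hrp.dvd_of_dvd_pow h3)
        · exact hra' (by exact_mod_cast h3)
      · rw [hab', hb, ha']; push_cast; ring
    · right
      push Not at hex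
      intro p hpm X y k hXy hXm hX hk hn
      exact caseB hc hab' ha0 hex hpm hXy hXm hX hk hn

end Pool.Agent.Lib.MP_a17b09_nt
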