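import Pool.Agent.Lib.MP_a17b09_nt.Z.PairZ

set_option autoImplicit false

open Finset Filter

namespace Pool.Agent.Lib.MP_a17b09_nt

/-- sizes of the special vectors -/
def Xs (m : ℕ) (i : ℕ) : ℤ := 2 * kap m * (Xn i : ℤ)

lemma Xs_mono {D : ℤ} {m : ℕ} (hc : Ctx D m) : Monotone (Xs m) := by
  intro i j hij
  have h := Xq_mono hij
  have hk := kap_pos hc
  unfold Xq at h
  unfold Xs
  gcongr

lemma Xs_nonneg {D : ℤ} {m : ℕ} (hc : Ctx D m) (i : ℕ) : 0 ≤ Xs m i := by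
  have hk := kap_pos hc
  unfold Xs
  positivity

lemma Xs_growth {D : ℤ} {m : ℕ} (hc : Ctx D m) (h : ℕ) :
    ∃ e : ℕ, ∀ i, (h : ℤ) * Xs m i ≤ Xs m (i + e) := by
  obtain ⟨e, he⟩ := Xq_growth h
  refine ⟨e, fun i => ?_⟩
  have hk := kap_pos hc
  have h1 := he i
  unfold Xq at h1
  unfold Xs
  calc (h : ℤ) * (2 * kap m * (Xn i : ℤ)) = 2 * kap m * ((h : ℤ) * (Xn i : ℤ)) := by ring
    _ ≤ 2 * kap m * (Xn (i + e) : ℤ) := by gcongr

lemma ang_of_slope_eq {b c : ℤ} {u v : ℤ × ℤ} (h : slope u = slope v) : ang b c u = ang b c v := by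
  unfold ang; rw [h]

lemma slope_smul {g : ℤ} (hg : 0 < g) (u : ℤ × ℤ) : slope (g * u.1, g * u.2) = slope u := by
  unfold slope
  have h2 : (g : ℝ) ≠ 0 := by exact_mod_cast hg.ne'
  push_cast
  rw [mul_div_mul_left _ _ h2]

lemma pop_half {D : ℤ} {m : ℕ} (hc : Ctx D m) {i j : ℕ}
    (h0 : Pop 0 (c0 D m) (2 * 4 ^ i) (Xn i : ℤ) (2 * j))
    (h1 : Pop 0 (c0 D m) (2 * 4 ^ i) (Xn i : ℤ) (2 * j + 1)) :
    Pp (SS D m) 0 (c0 D m) i (Xs m i) j := by
  obtain ⟨u0, hu1, hu2, hu3, hu4⟩ := h0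
  obtain ⟨v0, hv1, hv2, hv3, hv4⟩ := h1
  obtain ⟨u, hcu, hup, huX, hus, -⟩ := exists_primitive (∅ : Set ℕ) hc.nsq' hu1
  obtain ⟨v, hcv, hvp, hvX, hvs, -⟩ := exists_primitive (∅ : Set ℕ) hc.nsq' hv1
  have eu := ang_of_slope_eq (b := 0) (c := c0 D m) hus
  have ev := ang_of_slope_eq (b := 0) (c := c0 D m) hvs
  rw [← eu] at hu3 hu4
  rw [← ev] at hv3 hv4
  have hq : (0 : ℝ) < 4 ^ i := by positivity
  push_cast at hu3 hu4 hv3 hv4
  have hlt : ang 0 (c0 D m) u < ang 0 (c0 D m) v := by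
    have : 2 * (4 : ℝ) ^ i * ang 0 (c0 D m) u < 2 * (4 : ℝ) ^ i * ang 0 (c0 D m) v := by linarith
    exact lt_of_mul_lt_mul_left this (by positivity)
  have hslt : slope u < slope v := (strictMono_AA _ _).lt_iff_lt.1 hlt
  have hdet : 0 < det u v := by
    have h := slope_sub hup hvp
    have h2 : (0 : ℝ) < (det u v : ℝ) / ((u.1 : ℝ) * v.1) := by rw [← h]; linarith
    have h3 : (0 : ℝ) < (u.1 : ℝ) * v.1 := by
      have : (0 : ℝ) < u.1 := by exact_mod_cast hup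
      have : (0 : ℝ) < v.1 := by exact_mod_cast hvp
      positivity
    have h4 : (0 : ℝ) < (det u v : ℝ) := by
      rw [div_pos_iff] at h2
      rcases h2 with h2 | h2
      · exact h2.1
      · linarith [h2.2]
    exact_mod_cast h4
  obtain ⟨w, hw1, hw2, hw3, hw4⟩ := exists_edge hdet hcu hcv hup hvp (huX.trans hu2)
    (hvX.trans hv2)
  obtain ⟨α, β, hα1, hα2, hβ1, hβ2, hs, hsp⟩ := tl_spec hc hw1 hup hw2
  set s := tl D m u w with hsdef
  have hs1 : s.1 = α * u.1 + β * w.1 := by rw [hs]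
  have hs2 : s.2 = α * u.2 + β * w.2 := by rw [hs]
  have hk := kap_pos hc
  have hdus : det u s = β := by
    simp only [det] at hw1 ⊢; rw [hs1, hs2]; linear_combination β * hw1
  have hdsw : det s w = α := by
    simp only [det] at hw1 ⊢; rw [hs1, hs2]; linear_combination α * hw1
  have hsl1 : slope u ≤ slope s := slope_le_of_det hup hsp.2.2.1 (by rw [hdus]; linarith)
  have hsl2 : slope s ≤ slope w := slope_le_of_det hsp.2.2.1 hw2 (by rw [hdsw]; linarith)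
  have ha1 : ang 0 (c0 D m) u ≤ ang 0 (c0 D m) s := ang_mono hsl1
  have ha2 : ang 0 (c0 D m) s ≤ ang 0 (c0 D m) v := ang_mono (hsl2.trans hw4)
  refine ⟨s, ⟨1, one_pos, s, hsp, by simp⟩, hsp.2.2.1, ?_, ?_, ?_⟩
  · rw [hs1]
    unfold Xs
    have h5 : α * u.1 ≤ kap m * (Xn i : ℤ) := by
      have := huX.trans hu2
      gcongr
    have h6 : β * w.1 ≤ kap m * (Xn i : ℤ) := by gcongr
    linarith
  · push_cast
    have h7 : (4 : ℝ) ^ i * ang 0 (c0 D m) u ≤ (4 : ℝ) ^ i * ang 0 (c0 D m) s := by gcongr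
    linarith
  · push_cast
    have h7 : (4 : ℝ) ^ i * ang 0 (c0 D m) s ≤ (4 : ℝ) ^ i * ang 0 (c0 D m) v := by gcongr
    linarith

lemma AA_ge {b c x a η : ℝ} (hη : 0 ≤ η) (h : a - η ≤ x) : AA b c a - 8 * η ≤ AA b c x := by
  have h1 := AA_lipschitz b c (a - η) a
  have h2 : |a - (a - η)| = η := by rw [sub_sub_cancel, abs_of_nonneg hη]
  rw [h2] at h1
  have h3 := (strictMono_AA b c).monotone h
  have := (abs_le.1 h1).2
  linarith

lemma AA_le {b c x a η : ℝ} (hη : 0 ≤ η) (h : x ≤ a + η) : AA b c x ≤ AA b c a + 8 * η := by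
  have h1 := AA_lipschitz b c a (a + η)
  have h2 : |a + η - a| = η := by rw [add_sub_cancel_left, abs_of_nonneg hη]
  rw [h2] at h1
  have h3 := (strictMono_AA b c).monotone h
  have := (abs_le.1 h1).2
  linarith

/-- enlargement of the windows -/
noncomputable def Kr (m i : ℕ) : ℝ := 2 + 8 * (kap m : ℝ) * ((i : ℝ) + 1) ^ 2

lemma two_pow_gt : ∀ i : ℕ, 2 ≤ i → i + 1 < 2 ^ i := by
  intro i hi
  induction i, hi using Nat.le_induction with
  | base => norm_num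
  | succ n hn ih => rw [pow_succ]; omega

lemma mono_of {P : Set ℕ} {D : ℤ} {m : ℕ} (hc : Ctx D m) {i j : ℕ} (hi : 2 ≤ i) {X : ℤ}
    (hX : 0 ≤ X)
    (hNSm : ∀ w : ℤ × ℤ, IsCoprime w.1 w.2 → 0 < w.1 → (j : ℝ) ≤ (4 : ℝ) ^ i * ang 0 (c0 D m) w →
      (4 : ℝ) ^ i * ang 0 (c0 D m) w < j + 2 → (2 : ℤ) ^ i ≤ (i + 1) * w.1)
    (hNCj : ∀ s s' : ℤ × ℤ, Sp D m s → Sp D m s' → s.1 ≤ 2 * kap m * X → s'.1 ≤ 2 * kap m * X →
      |(4 : ℝ) ^ i * ang 0 (c0 D m) s - j| ≤ Kr m i →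
      |(4 : ℝ) ^ i * ang 0 (c0 D m) s' - j| ≤ Kr m i → 0 < det s s' → det s s' ≤ 3 * kap m ^ 2 →
      col P 0 (c0 D m) s = col P 0 (c0 D m) s') :
    Mn P (SS D m) 0 (c0 D m) i X j := by
  intro u v hu hv
  obtain ⟨⟨g, hg, u0, hu0, rfl⟩, hu1, huX, hu3, hu4⟩ := hu
  obtain ⟨⟨g', hg', v0, hv0, rfl⟩, hv1, hvX, hv3, hv4⟩ := hv
  have hne : ∀ w : ℤ × ℤ, 0 < w.1 → w ≠ 0 := by
    intro w hw h; rw [h] at hw; simp at hw
  rw [col_smul P hc.nsq' hg.ne' (hne u0 hu0.2.2.1), col_smul P hc.nsq' hg'.ne' (hne v0 hv0.2.2.1)]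
  have eu := ang_of_slope_eq (b := 0) (c := c0 D m) (slope_smul hg u0)
  have ev := ang_of_slope_eq (b := 0) (c := c0 D m) (slope_smul hg' v0)
  rw [eu] at hu3 hu4
  rw [ev] at hv3 hv4
  push_cast at hu3 hu4 hv3 hv4
  have hk := kap_pos hc
  have hkr : (1 : ℝ) ≤ kap m := by exact_mod_cast hk
  have hq : (0 : ℝ) < (4 : ℝ) ^ i := by positivity
  set η : ℝ := (kap m : ℝ) * ((i : ℝ) + 1) ^ 2 / 4 ^ i with hη
  have hη0 : 0 ≤ η := by rw [hη]; positivity
  set sm := min (slope u0) (slope v0) with hsm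
  set sM := max (slope u0) (slope v0) with hsM
  have hsmj : (j : ℝ) ≤ (4 : ℝ) ^ i * AA ((0 : ℤ) : ℝ) (c0 D m : ℝ) sm := by
    rcases min_choice (slope u0) (slope v0) with h | h
    · rw [hsm, h]; exact hu3
    · rw [hsm, h]; exact hv3
  have hsMj : (4 : ℝ) ^ i * AA ((0 : ℤ) : ℝ) (c0 D m : ℝ) sM < j + 2 := by
    rcases max_choice (slope u0) (slope v0) with h | h
    · rw [hsM, h]; exact hu4
    · rw [hsM, h]; exact hv4
  have h8 : (4 : ℝ) ^ i * (8 * η) = 8 * (kap m : ℝ) * ((i : ℝ) + 1) ^ 2 := by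
    rw [hη]; field_simp
  -- no colour change
  have hNC : NC P D m (2 * kap m * X) (sm - η) (sM + η) := by
    intro s s' hs hs' hr hr' hd hd'
    have near : ∀ z : ℤ × ℤ, Reg (2 * kap m * X) (sm - η) (sM + η) z →
        |(4 : ℝ) ^ i * ang 0 (c0 D m) z - j| ≤ Kr m i := by
      intro z hz
      obtain ⟨-, h1, h2⟩ := hz
      have h3 := AA_ge (b := ((0 : ℤ) : ℝ)) (c := (c0 D m : ℝ)) hη0 h1
      have h4 := AA_le (b := ((0 : ℤ) : ℝ)) (c := (c0 D m : ℝ)) hη0 h2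
      have h5 := mul_le_mul_of_nonneg_left h3 hq.le
      have h6 := mul_le_mul_of_nonneg_left h4 hq.le
      rw [mul_sub, h8] at h5
      rw [mul_add, h8] at h6
      have e : ang 0 (c0 D m) z = AA ((0 : ℤ) : ℝ) (c0 D m : ℝ) (slope z) := rfl
      rw [e, abs_le]
      unfold Kr
      constructor
      · linarith
      · linarith
    exact hNCj s s' hs hs' hr.1 hr'.1 (near s hr) (near s' hr') hd hd'
  have hNS : ∀ w : ℤ × ℤ, IsCoprime w.1 w.2 → 0 < w.1 → (sm - η) + η ≤ slope w →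
      slope w ≤ (sM + η) - η → Mid m (sm - η) (sM + η) η w := by
    intro w hw hw0 h1 h2
    have h1' : sm ≤ slope w := by linarith
    have h2' : slope w ≤ sM := by linarith
    have h3 : AA ((0 : ℤ) : ℝ) (c0 D m : ℝ) sm ≤ ang 0 (c0 D m) w :=
      (strictMono_AA _ _).monotone h1'
    have h4 : ang 0 (c0 D m) w ≤ AA ((0 : ℤ) : ℝ) (c0 D m : ℝ) sM :=
      (strictMono_AA _ _).monotone h2'
    have h5 := mul_le_mul_of_nonneg_left h3 hq.le
    have h6 := mul_le_mul_of_nonneg_left h4 hq.le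
    have hbig := hNSm w hw hw0 (by linarith) (by linarith)
    refine ⟨hw0, h1, h2, ?_, ?_⟩
    · by_contra hcon
      push Not at hcon
      have hw1 : w.1 = 1 := by omega
      rw [hw1, mul_one] at hbig
      have := two_pow_gt i hi
      have : ((i : ℤ) + 1) < 2 ^ i := by exact_mod_cast this
      linarith
    · have hbr : (2 : ℝ) ^ i ≤ ((i : ℝ) + 1) * w.1 := by exact_mod_cast hbig
      have hsq : (4 : ℝ) ^ i ≤ (((i : ℝ) + 1) * w.1) ^ 2 := by
        calc (4 : ℝ) ^ i = (2 ^ i) ^ 2 := by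
              rw [← pow_mul, mul_comm, pow_mul]; norm_num
          _ ≤ _ := by gcongr
      rw [hη, div_mul_eq_mul_div, le_div_iff₀ hq]
      calc (kap m : ℝ) * 4 ^ i ≤ (kap m : ℝ) * (((i : ℝ) + 1) * w.1) ^ 2 := by gcongr
        _ = _ := by ring
  have huX0 : u0.1 ≤ X := by
    simp only at huX
    have h1 := hu0.2.2.1
    have : u0.1 ≤ g * u0.1 := le_mul_of_one_le_left h1.le hg
    linarith
  have hvX0 : v0.1 ≤ X := by
    simp only at hvX
    have h1 := hv0.2.2.1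
    have : v0.1 ≤ g' * v0.1 := le_mul_of_one_le_left h1.le hg'
    linarith
  have m1 : sm ≤ slope u0 := min_le_left _ _
  have m2 : sm ≤ slope v0 := min_le_right _ _
  have m3 : slope u0 ≤ sM := le_max_left _ _
  have m4 : slope v0 ≤ sM := le_max_right _ _
  exact window_mono hc hNC hNS hX hu0 hv0 huX0 hvX0 (by linarith) (by linarith) (by linarith)
    (by linarith)

end Pool.Agent.Lib.MP_a17b09_nt
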