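import Pool.Agent.Lib.MP_a17b09_nt.Z.Neg2
import Pool.Agent.Lib.MP_a17b09_nt.Z.Win
import Pool.Agent.Lib.MP_a17b09_nt.Misc

set_option autoImplicit false

open Finset

namespace Pool.Agent.Lib.MP_a17b09_nt

/-- A special vector of colour `-1` with small angle. -/
theorem neg_vec {P : Set ℕ} (hP : Dense P) {D : ℤ} {m : ℕ} (hc : Ctx D m) {δ : ℝ} (hδ : 0 < δ)
    (hδ' : δ ≤ a0 0 (c0 D m)) : ∃ v : ℤ × ℤ, Sp D m v ∧ Sec 0 (c0 D m) v ∧
      ang 0 (c0 D m) v ≤ δ ∧ col P 0 (c0 D m) v = -1 := by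
  have hB := BBr_one 0 (c0 D m)
  set ε : ℝ := min (δ / 16) (1 / (8 * (BB 0 (c0 D m) : ℝ))) with hε
  have hε0 : 0 < ε := by
    rw [hε]; exact lt_min (by positivity) (by positivity)
  have hε1 : ε ≤ δ / 16 := min_le_left _ _
  have hε2 : ε ≤ 1 / (8 * (BB 0 (c0 D m) : ℝ)) := min_le_right _ _
  obtain ⟨p, hpP, hp, hpm, X, y, k, hXy, hXm, hX, hy, hsl, hk, hn⟩ := neg_part1 hP hc ε hε0
  have hsec : Sec 0 (c0 D m) (X, y) := sec_of_slope hX hy (hsl.trans hε2)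
  have hang : ang 0 (c0 D m) (X, y) ≤ δ / 2 := by
    have h := ang_le_slope 0 (c0 D m) (slope_nonneg hsec)
    linarith
  have hcol : col P 0 (c0 D m) (X, y) = -1 := by
    unfold col
    rw [nrm_c0, hn, mul_comm, sgn_sq_mul P hk.ne' (by exact_mod_cast hp.pos.ne')]
    exact sgn_prime hp hpP
  rcases kappa_or hc hε0 with ⟨x', y', ⟨hx', hy', hcop', hxm', hJ', l, hl, hn'⟩, hsl'⟩ | hB'
  swap
  · exact ⟨(X, y), ⟨hXy, hXm, hX, hB' p hpm X y k hXy hXm hX hk hn⟩, hsec, by linarith, hcol⟩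
  by_cases hJ : jacobiSym D X.natAbs = 1
  · exact ⟨(X, y), ⟨hXy, hXm, hX, hJ⟩, hsec, by linarith, hcol⟩
  have hJneg : jacobiSym D X.natAbs = -1 := by
    rcases jacobiSym.eq_one_or_neg_one (a := D) (b := X.natAbs) (by
      have e1 : ((X.natAbs : ℕ) : ℤ) = X := Int.natAbs_of_nonneg hX.le
      rw [e1]
      exact Int.isCoprime_iff_gcd_eq_one.1
        (hXm.symm.of_isCoprime_of_dvd_left hc.Dm)) with h | h
    · exact absurd h hJ
    · exact h
  have hsec' : Sec 0 (c0 D m) (x', y') := sec_of_slope hx' hy' (hsl'.trans hε2)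
  have hang' : ang 0 (c0 D m) (x', y') ≤ δ / 2 := by
    have h := ang_le_slope 0 (c0 D m) (slope_nonneg hsec')
    linarith
  have hcol' : col P 0 (c0 D m) (x', y') = 1 := by
    unfold col
    rw [nrm_c0, hn', sq, sgn_mul P hl hl, sgn_mul_self]
  obtain ⟨g, hg, -, w, hw1, hw2, hw3, hw4, hw5⟩ := mul_prim hc (u := (X, y)) (v := (x', y')) hXy hXm
    hX hcop' hxm' hx' (mulp_fst_bounds hsec hsec').1
  have hangm := ang_mulp hsec hsec'
  have hangw : ang 0 (c0 D m) w = ang 0 (c0 D m) (X, y) + ang 0 (c0 D m) (x', y') := by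
    rw [← hangm, hw5]
    exact (ang_of_slope_eq (slope_smul hg w)).symm
  have hn1 := ang_nonneg hsec
  have hn2 := ang_nonneg hsec'
  have hsw : Sec 0 (c0 D m) w := sec_of_ang hw3 (by rw [hangw]; positivity) (by linarith)
  refine ⟨w, ⟨hw1, hw2, hw3, ?_⟩, hsw, by linarith, ?_⟩
  · rw [hw4]
    simp only
    rw [hJneg, hJ']; norm_num
  · have h1 := col_mulp P hc.nsq' hsec.ne_zero hsec'.ne_zero
    rw [hw5, col_smul P hc.nsq' hg.ne' hsw.ne_zero, hcol, hcol'] at h1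
    rw [h1]; norm_num

end Pool.Agent.Lib.MP_a17b09_nt
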