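import Pool.Agent.Lib.MP_a17b09_nt.Z.BrunLog
import Pool.Agent.Lib.MP_a17b09_nt.Z.Recip

set_option autoImplicit false

open Finset Filter

namespace Pool.Agent.Lib.MP_a17b09_nt

open Pool.Agent.Lib.MP_369a91_nt Pool.Agent.Lib.QuadParity

open Classical in
/-- a square root of `D` modulo `q` -/
noncomputable def rt (D : ℤ) (q : ℕ) : ℤ :=
  if h : ∃ r : ℤ, (q : ℤ) ∣ r ^ 2 - D then h.choose else 0

lemma rt_spec {D : ℤ} {q : ℕ} (h : ∃ r : ℤ, (q : ℤ) ∣ r ^ 2 - D) : (q : ℤ) ∣ (rt D q) ^ 2 - D := by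
  classical
  unfold rt
  rw [dif_pos h]
  exact h.choose_spec

/-- forbidden residues -/
def bd (D : ℤ) (μ F : ℕ) (W ρ : ℕ → ℕ) (q s : ℕ) : Prop :=
  ∃ k ∈ Finset.Icc 1 F, q ≡ ρ k [MOD W k] ∧ (q : ℤ) ∣ (s : ℤ) + k * μ - rt D q * μ

lemma bd_per (D : ℤ) (μ F : ℕ) (W ρ : ℕ → ℕ) : Per (bd D μ F W ρ) := by
  intro q s
  unfold bd
  have h : ∀ k : ℕ, ((q : ℤ) ∣ (s : ℤ) + k * μ - rt D q * μ ↔
      (q : ℤ) ∣ ((s % q : ℕ) : ℤ) + k * μ - rt D q * μ) := by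
    intro k
    have h1 : (q : ℤ) ∣ (s : ℤ) - ((s % q : ℕ) : ℤ) := by
      push_cast
      exact Int.dvd_self_sub_emod
    constructor
    · intro h2
      have := dvd_sub h2 h1
      have e : (s : ℤ) + k * μ - rt D q * μ - ((s : ℤ) - ((s % q : ℕ) : ℤ)) =
          ((s % q : ℕ) : ℤ) + k * μ - rt D q * μ := by ring
      rwa [e] at this
    · intro h2
      have := dvd_add h2 h1
      have e : ((s % q : ℕ) : ℤ) + k * μ - rt D q * μ + ((s : ℤ) - ((s % q : ℕ) : ℤ)) =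
          (s : ℤ) + k * μ - rt D q * μ := by ring
      rwa [e] at this
  simp only [h]

lemma res_eq {q s : ℕ} (hs : s < q) {a : ℤ} (h : (q : ℤ) ∣ (s : ℤ) - a) :
    s = (a % (q : ℤ)).toNat := by
  have h1 : (s : ℤ) % q = a % q := Int.emod_eq_emod_iff_emod_sub_eq_zero.2 (Int.emod_eq_zero_of_dvd h)
  rw [Int.emod_eq_of_lt (by positivity) (by exact_mod_cast hs)] at h1
  omega

lemma nb_le (D : ℤ) (μ F : ℕ) (W ρ : ℕ → ℕ) (q : ℕ) : nb (bd D μ F W ρ) q ≤ F := by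
  classical
  unfold nb
  have hsub : (range q).filter (fun s => bd D μ F W ρ q s) ⊆
      (Finset.Icc 1 F).image (fun k : ℕ => ((rt D q * μ - k * μ) % (q : ℤ)).toNat) := by
    intro s hs
    rw [mem_filter, mem_range] at hs
    obtain ⟨hsq, k, hk, -, hd⟩ := hs
    rw [mem_image]
    refine ⟨k, hk, ?_⟩
    symm
    apply res_eq hsq
    have e : (s : ℤ) - (rt D q * μ - k * μ) = (s : ℤ) + k * μ - rt D q * μ := by ring
    rw [e]; exact hd
  calc _ ≤ _ := card_le_card hsub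
    _ ≤ (Finset.Icc 1 F).card := card_image_le
    _ = F := by rw [Nat.card_Icc]; omega

lemma le_nb (D : ℤ) (μ F : ℕ) (hμ : 0 < μ) (W ρ : ℕ → ℕ) (q : ℕ) (hq : q.Prime) (hqF : F + μ < q) :
    open Classical in
    ((Finset.Icc 1 F).filter (fun k => q ≡ ρ k [MOD W k])).card ≤ nb (bd D μ F W ρ) q := by
  classical
  unfold nb
  have hqpos : (0 : ℤ) < q := by exact_mod_cast hq.pos
  apply card_le_card_of_injOn (fun k : ℕ => ((rt D q * μ - k * μ) % (q : ℤ)).toNat)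
  · intro k hk
    rw [mem_coe, mem_filter] at hk
    rw [mem_coe, mem_filter, mem_range]
    have h0 : 0 ≤ (rt D q * μ - k * μ) % (q : ℤ) := Int.emod_nonneg _ hqpos.ne'
    have h1 : (rt D q * μ - k * μ) % (q : ℤ) < q := Int.emod_lt_of_pos _ hqpos
    beta_reduce
    refine ⟨by omega, k, hk.1, hk.2, ?_⟩
    rw [Int.toNat_of_nonneg h0]
    have h2 : (q : ℤ) ∣ (rt D q * μ - k * μ) - (rt D q * μ - k * μ) % (q : ℤ) :=
      Int.dvd_self_sub_emod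
    have e : (rt D q * μ - k * μ) % (q : ℤ) + k * μ - rt D q * μ =
        -((rt D q * μ - k * μ) - (rt D q * μ - k * μ) % (q : ℤ)) := by ring
    rw [e]
    exact (dvd_neg).2 h2
  · intro k hk k' hk' heq
    rw [mem_coe, mem_filter, Finset.mem_Icc] at hk hk'
    simp only at heq
    have h0 : 0 ≤ (rt D q * μ - k * μ) % (q : ℤ) := Int.emod_nonneg _ hqpos.ne'
    have h0' : 0 ≤ (rt D q * μ - k' * μ) % (q : ℤ) := Int.emod_nonneg _ hqpos.ne'
    have h1 : (rt D q * μ - k * μ) % (q : ℤ) = (rt D q * μ - k' * μ) % (q : ℤ) := by omega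
    have h2 : (q : ℤ) ∣ (rt D q * μ - k * μ) - (rt D q * μ - k' * μ) :=
      Int.dvd_of_emod_eq_zero (Int.emod_eq_emod_iff_emod_sub_eq_zero.1 h1)
    have e : (rt D q * μ - k * μ) - (rt D q * μ - k' * μ) = ((k' : ℤ) - k) * μ := by ring
    rw [e] at h2
    have hp : Prime (q : ℤ) := Nat.prime_iff_prime_int.1 hq
    rcases hp.dvd_or_dvd h2 with h3 | h3
    · have h4 : (k' : ℤ) - k = 0 := by
        apply Int.eq_zero_of_abs_lt_dvd h3
        rw [abs_lt]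
        constructor <;> omega
      omega
    · exfalso
      have : (q : ℤ) ≤ μ := Int.le_of_dvd (by exact_mod_cast hμ) h3
      omega

theorem pattern_count (D : ℤ) (μ F : ℕ) (hμ : 0 < μ) (W ρ : ℕ → ℕ)
    (hW : ∀ k ∈ Finset.Icc 1 F, 0 < W k ∧ Nat.Coprime (ρ k) (W k) ∧
      ∀ q : ℕ, q.Prime → F + μ < q → q ≡ ρ k [MOD W k] → ∃ r : ℤ, (q : ℤ) ∣ r ^ 2 - D)
    (A : ℕ) (hA : 3 * (A : ℝ) + 1 ≤ ∑ k ∈ Finset.Icc 1 F, 1 / (4 * (W k : ℝ))) :
    open Classical in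
    ∀ᶠ M : ℕ in atTop, (((range M).filter (fun s : ℕ => ∀ k ∈ Finset.Icc 1 F, ∀ q : ℕ, q.Prime →
      F + μ < q → q ≤ zz M → q ≡ ρ k [MOD W k] →
      ¬ (q : ℤ) ∣ ((s : ℤ) + k * μ) ^ 2 - D * μ ^ 2)).card : ℝ) ≤ M / (Real.log M) ^ A := by
  classical
  set C0 := F + μ with hC0
  have hrec : ∀ k ∈ Finset.Icc 1 F, ∃ C : ℝ, ∃ z0 : ℕ, 0 ≤ C ∧ ∀ z : ℕ, z0 ≤ z →
      1 / (4 * (W k : ℝ)) * Real.log (Real.log z) - C ≤
        ∑ q ∈ (Finset.Ioc C0 z).filter (fun q => q.Prime ∧ q ≡ ρ k [MOD W k]), (1 : ℝ) / q :=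
    fun k hk => recip_low (W k) (ρ k) (hW k hk).1 (hW k hk).2.1 C0
  choose! Ck z0k hrec using hrec
  set z0 := ∑ k ∈ Finset.Icc 1 F, z0k k with hz0
  have hz0k : ∀ k ∈ Finset.Icc 1 F, z0k k ≤ z0 := fun k hk =>
    single_le_sum (f := z0k) (fun i _ => Nat.zero_le _) hk
  have hlow : ∀ z : ℕ, z0 ≤ z → (∑ k ∈ Finset.Icc 1 F, 1 / (4 * (W k : ℝ))) *
      Real.log (Real.log z) - ∑ k ∈ Finset.Icc 1 F, Ck k ≤
      ∑ q ∈ (Finset.Ioc C0 z).filter (fun q => q.Prime), (nb (bd D μ F W ρ) q : ℝ) / q := by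
    intro z hz
    have h1 : ∀ q ∈ (Finset.Ioc C0 z).filter (fun q => q.Prime),
        ∑ k ∈ Finset.Icc 1 F, (if q ≡ ρ k [MOD W k] then (1 : ℝ) / q else 0) ≤
        (nb (bd D μ F W ρ) q : ℝ) / q := by
      intro q hq
      rw [mem_filter, Finset.mem_Ioc] at hq
      have h2 := le_nb D μ F hμ W ρ q hq.2 hq.1.1
      rw [← sum_filter, sum_const, nsmul_eq_mul, mul_one_div]
      have h3 : ((((Finset.Icc 1 F).filter (fun k => q ≡ ρ k [MOD W k])).card : ℕ) : ℝ) ≤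
          (nb (bd D μ F W ρ) q : ℝ) := by exact_mod_cast h2
      gcongr
    calc (∑ k ∈ Finset.Icc 1 F, 1 / (4 * (W k : ℝ))) *
      Real.log (Real.log z) - ∑ k ∈ Finset.Icc 1 F, Ck k
        = ∑ k ∈ Finset.Icc 1 F, (1 / (4 * (W k : ℝ)) * Real.log (Real.log z) - Ck k) := by
          rw [sum_mul, sum_sub_distrib]
      _ ≤ ∑ k ∈ Finset.Icc 1 F,
          ∑ q ∈ (Finset.Ioc C0 z).filter (fun q => q.Prime ∧ q ≡ ρ k [MOD W k]), (1 : ℝ) / q :=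
          sum_le_sum (fun k hk => (hrec k hk).2 z ((hz0k k hk).trans hz))
      _ = ∑ k ∈ Finset.Icc 1 F, ∑ q ∈ (Finset.Ioc C0 z).filter (fun q => q.Prime),
          (if q ≡ ρ k [MOD W k] then (1 : ℝ) / q else 0) := by
          apply sum_congr rfl
          intro k _
          rw [← sum_filter, filter_filter]
      _ = ∑ q ∈ (Finset.Ioc C0 z).filter (fun q => q.Prime), ∑ k ∈ Finset.Icc 1 F,
          (if q ≡ ρ k [MOD W k] then (1 : ℝ) / q else 0) := sum_comm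
      _ ≤ _ := sum_le_sum h1
  have hmain := brun_log (bd D μ F W ρ) (bd_per D μ F W ρ) C0 F
    (fun q _ _ => nb_le D μ F W ρ q) A _ _ hA z0 hlow
  filter_upwards [hmain] with M hM
  refine le_trans ?_ hM
  have hsub : (range M).filter (fun s : ℕ => ∀ k ∈ Finset.Icc 1 F, ∀ q : ℕ, q.Prime →
      F + μ < q → q ≤ zz M → q ≡ ρ k [MOD W k] →
      ¬ (q : ℤ) ∣ ((s : ℤ) + k * μ) ^ 2 - D * μ ^ 2) ⊆
      (range M).filter (fun s => ∀ q ∈ (Finset.Ioc C0 (zz M)).filter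
      (fun q => q.Prime), ¬ bd D μ F W ρ q s) := by
    intro s hs
    rw [mem_filter] at hs ⊢
    refine ⟨hs.1, ?_⟩
    intro q hq hb
    rw [mem_filter, Finset.mem_Ioc] at hq
    obtain ⟨k, hk, hqk, hd⟩ := hb
    apply hs.2 k hk q hq.2 hq.1.1 hq.1.2 hqk
    have hr := rt_spec ((hW k hk).2.2 q hq.2 hq.1.1 hqk)
    have e : ((s : ℤ) + k * μ) ^ 2 - D * μ ^ 2 =
        ((s : ℤ) + k * μ - rt D q * μ) * ((s : ℤ) + k * μ + rt D q * μ) +
        ((rt D q) ^ 2 - D) * μ ^ 2 := by ring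
    rw [e]
    exact dvd_add (Dvd.dvd.mul_right hd _) (Dvd.dvd.mul_right hr _)
  exact_mod_cast card_le_card hsub

end Pool.Agent.Lib.MP_a17b09_nt
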