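import Pool.Agent.Lib.MP_a17b09_nt.Z.Core
import Pool.Agent.Lib.MP_a17b09_nt.Z.Pat

set_option autoImplicit false

open Finset Filter

namespace Pool.Agent.Lib.MP_a17b09_nt

/-- exceptional integers -/
noncomputable def ZY (P : Set ℕ) (D : ℤ) (m y M : ℕ) : Finset ℕ := by
  classical
  exact (Finset.Icc 1 M).filter (fun x : ℕ => IsCoprime (x : ℤ) ((m : ℤ) * y) ∧
    jacobiSym D x = 1 ∧ sgn P ((x : ℤ) ^ 2 - D * m ^ 2 * y ^ 2) = -1)

lemma mem_ZY {P : Set ℕ} {D : ℤ} {m y M x : ℕ} : x ∈ ZY P D m y M ↔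
    (1 ≤ x ∧ x ≤ M) ∧ IsCoprime (x : ℤ) ((m : ℤ) * y) ∧
    jacobiSym D x = 1 ∧ sgn P ((x : ℤ) ^ 2 - D * m ^ 2 * y ^ 2) = -1 := by
  classical
  unfold ZY
  rw [mem_filter, Finset.mem_Icc]

lemma zz_small (K : ℕ) : ∀ᶠ M : ℕ in atTop, ((K * (zz M + K) : ℕ) : ℝ) ^ 2 ≤ M := by
  filter_upwards [lam_facts, tendsto_lam.eventually_ge_atTop ((K * (K + 1) : ℝ) ^ 2)] with M h1 h2
  obtain ⟨lam, hlam⟩ : ∃ lam : ℝ, lam = (Real.log M) ^ (1 / 3 : ℝ) := ⟨_, rfl⟩
  obtain ⟨hM, -, hl2, -, hz⟩ := h1 lam hlam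
  rw [← hlam] at h2
  push_cast
  have hK : (0 : ℝ) ≤ K := by positivity
  have he : 1 ≤ Real.exp lam := Real.one_le_exp (by linarith)
  have h3 : (zz M : ℝ) + K ≤ (K + 1) * Real.exp lam := by nlinarith
  have h4 : ((K : ℝ) * (K + 1)) ^ 2 ≤ Real.exp (2 * lam) := by
    have := Real.add_one_le_exp (2 * lam)
    linarith
  calc ((K : ℝ) * (zz M + K)) ^ 2 ≤ ((K : ℝ) * ((K + 1) * Real.exp lam)) ^ 2 := by gcongr
    _ = ((K : ℝ) * (K + 1)) ^ 2 * Real.exp (2 * lam) := by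
        rw [two_mul lam, Real.exp_add]; ring
    _ ≤ Real.exp (2 * lam) * Real.exp (2 * lam) := by gcongr
    _ = Real.exp (4 * lam) := by rw [← Real.exp_add]; congr 1; ring
    _ ≤ Real.exp (lam ^ 3) := by
        apply Real.exp_le_exp.2
        have : 4 ≤ lam ^ 2 := by nlinarith
        nlinarith
    _ = M := hM.symm

lemma sqrt_small (A : ℕ) : ∀ᶠ M : ℕ in atTop, ∀ B : ℝ, 0 ≤ B → B ^ 2 ≤ M →
    B + 1 ≤ 1 / 2 * (M / (Real.log M) ^ A) := by
  have ht3 : ∀ᶠ M : ℕ in atTop, 3 * ((Real.log M) ^ (1 / 3 : ℝ)) ^ (3 * A) ≤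
      Real.exp ((Real.log M) ^ (1 / 3 : ℝ)) := by
    have h := Real.tendsto_pow_mul_exp_neg_atTop_nhds_zero (3 * A)
    have h2 : ∀ᶠ x : ℝ in atTop, x ^ (3 * A) * Real.exp (-x) < 1 / 3 :=
      h.eventually_lt_const (by norm_num)
    filter_upwards [tendsto_lam.eventually h2] with M hM
    rw [Real.exp_neg, ← div_eq_mul_inv, div_lt_iff₀ (Real.exp_pos _)] at hM
    linarith
  filter_upwards [lam_facts, ht3] with M h1 h2 B hB0 hB
  obtain ⟨lam, hlam⟩ : ∃ lam : ℝ, lam = (Real.log M) ^ (1 / 3 : ℝ) := ⟨_, rfl⟩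
  obtain ⟨hM, hlog, hl2, -, -⟩ := h1 lam hlam
  rw [← hlam] at h2
  have hB1 : B ≤ Real.exp (lam ^ 3 / 2) := by
    apply le_of_sq_le_sq₀ _ (Real.exp_pos _).le
    rw [← Real.exp_nat_mul]
    refine hB.trans (le_of_eq ?_)
    rw [hM]; congr 1; push_cast; ring
  have hlp : 0 < lam ^ (3 * A) := by positivity
  rw [hlog, ← pow_mul]
  have h3 : 3 * Real.exp (lam ^ 3 / 2 + 1) ≤ M / lam ^ (3 * A) := by
    rw [le_div_iff₀ hlp, hM]
    calc 3 * Real.exp (lam ^ 3 / 2 + 1) * lam ^ (3 * A)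
        = Real.exp (lam ^ 3 / 2 + 1) * (3 * lam ^ (3 * A)) := by ring
      _ ≤ Real.exp (lam ^ 3 / 2 + 1) * Real.exp lam := by gcongr
      _ = Real.exp (lam ^ 3 / 2 + 1 + lam) := by rw [← Real.exp_add]
      _ ≤ Real.exp (lam ^ 3) := by
          apply Real.exp_le_exp.2
          have h4 : 4 ≤ lam ^ 2 := by nlinarith
          have h5 : lam ^ 3 = lam * lam ^ 2 := by ring
          nlinarith
  have h6 : 1 ≤ Real.exp (lam ^ 3 / 2) := Real.one_le_exp (by positivity)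
  have h7 : 2 * Real.exp (lam ^ 3 / 2) ≤ Real.exp (lam ^ 3 / 2 + 1) := by
    rw [Real.exp_add]
    have := Real.add_one_le_exp (1 : ℝ)
    nlinarith
  linarith
where
  le_of_sq_le_sq₀ {x y : ℝ} (h : x ^ 2 ≤ y ^ 2) (hy : 0 ≤ y) : x ≤ y := abs_le_of_sq_le_sq' h hy |>.2

lemma sum_Icc_shift (g : ℕ → ℝ) (n : ℕ) : ∑ k ∈ Finset.Icc 1 n, g k = ∑ i ∈ range n, g (i + 1) := by
  induction n with
  | zero => simp
  | succ n ih => rw [Finset.sum_Icc_succ_top (by omega), sum_range_succ, ih]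

lemma exists_F (E : ℕ) (hE : 0 < E) (B : ℝ) : ∃ F : ℕ, B ≤ ∑ k ∈ Finset.Icc 1 F,
    1 / (4 * ((k : ℝ) * E)) := by
  have h := Real.tendsto_sum_range_one_div_nat_succ_atTop
  obtain ⟨F, hF⟩ := (h.eventually_ge_atTop (4 * E * B)).exists
  refine ⟨F, ?_⟩
  have hEr : (0 : ℝ) < E := by exact_mod_cast hE
  rw [sum_Icc_shift]
  have e : ∑ i ∈ range F, 1 / (4 * (((i + 1 : ℕ) : ℝ) * E)) =
      1 / (4 * E) * ∑ i ∈ range F, 1 / ((i : ℝ) + 1) := by
    rw [mul_sum]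
    apply sum_congr rfl
    intro i _
    push_cast
    field_simp
  rw [e]
  calc B = 1 / (4 * E) * (4 * E * B) := by field_simp
    _ ≤ _ := by gcongr

/-- patterns -/
def Wσ {F N0 : ℕ} (σ : Fin (F + 1) → Fin N0 × Fin N0) (k : ℕ) : ℕ :=
  if h : k < F + 1 then ((σ ⟨k, h⟩).1 : ℕ) else 1

def ρσ {F N0 : ℕ} (σ : Fin (F + 1) → Fin N0 × Fin N0) (k : ℕ) : ℕ :=
  if h : k < F + 1 then ((σ ⟨k, h⟩).2 : ℕ) else 1

theorem ZY_sparse {P : Set ℕ} {a b c : ℤ} (ha : 0 < a) {s T0 : ℤ} (hT0 : 0 ≤ T0)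
    (H : Hyp P a b c s T0) {D : ℤ} (hD : D = b ^ 2 - 4 * a * c) {m : ℕ} (hc : Ctx D m)
    (h2a : 2 * a ∣ (m : ℤ)) (A : ℕ) {y : ℕ} (hy : 0 < y) :
    ∀ᶠ M : ℕ in atTop, ((ZY P D m y M).card : ℝ) ≤ M / (Real.log M) ^ A := by
  classical
  have hm := hc.mz
  have hyz : (0 : ℤ) < y := by exact_mod_cast hy
  have hEpos : 0 < 2 * a * (m : ℤ) ^ 2 * (y : ℤ) ^ 2 := by positivity
  obtain ⟨E, hE⟩ : ∃ E : ℕ, (E : ℤ) = 2 * a * (m : ℤ) ^ 2 * (y : ℤ) ^ 2 :=
    ⟨_, Int.toNat_of_nonneg hEpos.le⟩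
  have hE0 : 0 < E := by
    have : (0 : ℤ) < E := by rw [hE]; exact hEpos
    exact_mod_cast this
  obtain ⟨F, hF⟩ := exists_F E hE0 (3 * ((A + 1 : ℕ) : ℝ) + 1)
  set N0 := F * E + 1 with hN0
  set valid : (Fin (F + 1) → Fin N0 × Fin N0) → Prop := fun σ => ∀ k ∈ Finset.Icc 1 F,
    0 < Wσ σ k ∧ Wσ σ k ≤ k * E ∧ Nat.Coprime (ρσ σ k) (Wσ σ k) ∧
    ∀ q : ℕ, q.Prime → F + m * y < q → q ≡ ρσ σ k [MOD Wσ σ k] → ∃ r : ℤ, (q : ℤ) ∣ r ^ 2 - D
    with hvalid
  set cnd : (Fin (F + 1) → Fin N0 × Fin N0) → ℕ → ℕ → Prop := fun σ M s =>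
    ∀ k ∈ Finset.Icc 1 F, ∀ q : ℕ, q.Prime → F + m * y < q → q ≤ zz M →
      q ≡ ρσ σ k [MOD Wσ σ k] → ¬ (q : ℤ) ∣ ((s : ℤ) + k * (m * y : ℕ)) ^ 2 - D * (m * y : ℕ) ^ 2
    with hcnd
  have hpat : ∀ σ, ∀ᶠ M : ℕ in atTop, valid σ →
      (((range M).filter (fun s => cnd σ M s)).card : ℝ) ≤ M / (Real.log M) ^ (A + 1) := by
    intro σ
    by_cases hv : valid σ
    · have h := pattern_count D (m * y) F (Nat.mul_pos hc.mpos hy) (Wσ σ) (ρσ σ)
        (fun k hk => ⟨(hv k hk).1, (hv k hk).2.2.1, (hv k hk).2.2.2⟩) (A + 1) (by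
          refine hF.trans (sum_le_sum ?_)
          intro k hk
          have h1 : (0 : ℝ) < Wσ σ k := by exact_mod_cast (hv k hk).1
          have h2 : (Wσ σ k : ℝ) ≤ (k : ℝ) * E := by exact_mod_cast (hv k hk).2.1
          apply one_div_le_one_div_of_le (by positivity)
          linarith)
      filter_upwards [h] with M hM _
      exact hM
    · exact Eventually.of_forall (fun M hv' => absurd hv' hv)
  have hall := eventually_all.2 hpat
  -- the constant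
  set G : ℤ := F * m * y ^ 2 with hG
  have hG0 : 0 ≤ G := by rw [hG]; positivity
  set Kz : ℤ := |b| * (m * y) + 2 * a * (m * y) * T0 + |D| * m ^ 2 * y ^ 2 + G +
    G * (|b| * m * G + 2 * a * m * G * T0) + 1 with hKz
  have hKz1 : 1 ≤ Kz := by
    have h1 : 0 ≤ |b| * (m * y) + 2 * a * (m * y) * T0 + |D| * m ^ 2 * y ^ 2 + G +
      G * (|b| * m * G + 2 * a * m * G * T0) := by positivity
    rw [hKz]; linarith
  obtain ⟨K, hK⟩ : ∃ K : ℕ, (K : ℤ) = Kz := ⟨_, Int.toNat_of_nonneg (by linarith)⟩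
  set nP := Fintype.card (Fin (F + 1) → Fin N0 × Fin N0) with hnP
  have hlogbig : ∀ᶠ M : ℕ in atTop, 2 * (nP : ℝ) + 1 ≤ Real.log M :=
    (Real.tendsto_log_atTop.comp tendsto_natCast_atTop_atTop).eventually_ge_atTop _
  filter_upwards [hall, zz_small K, sqrt_small A, hlogbig] with M hM1 hM2 hM3 hM4
  have hsub : ZY P D m y M ⊆ range (K * (zz M + K)) ∪ ({M} ∪
      ((univ : Finset (Fin (F + 1) → Fin N0 × Fin N0)).filter valid).biUnion
        (fun σ => (range M).filter (fun s => cnd σ M s))) := by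
    intro x hx
    rw [mem_ZY] at hx
    obtain ⟨⟨hx1, hxM⟩, hcop, hJ, hs⟩ := hx
    rw [mem_union, mem_union, mem_range, mem_singleton, mem_biUnion]
    by_cases hxK : x < K * (zz M + K)
    · exact Or.inl hxK
    right
    by_cases hxM' : x = M
    · exact Or.inl hxM'
    right
    push Not at hxK
    have hxKz : Kz * (zz M + Kz) ≤ (x : ℤ) := by
      rw [← hK]; exact_mod_cast hxK
    have hz0 : (0 : ℤ) ≤ (zz M : ℤ) := by positivity
    have hx1z : (1 : ℤ) ≤ x := by exact_mod_cast hx1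
    have hin0 : 0 ≤ |b| * (m * y) + 2 * a * (m * y) * T0 := by positivity
    have hin1 : 0 ≤ |D| * (m : ℤ) ^ 2 * (y : ℤ) ^ 2 := by positivity
    have hin2 : 0 ≤ G * (|b| * m * G + 2 * a * m * G * T0) := by positivity
    have hKK : Kz ≤ Kz * Kz := le_mul_of_one_le_left (by linarith) hKz1
    have hb1 : |b| * (m * y) + (zz M : ℕ) + 2 * a * (m * y) * T0 ≤ (x : ℤ) := by
      have h1 : (zz M : ℤ) ≤ Kz * zz M := le_mul_of_one_le_left hz0 hKz1
      have h2 : Kz * (zz M + Kz) = Kz * zz M + Kz * Kz := by ring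
      linarith
    have hb2 : |D| * m ^ 2 * y ^ 2 + G * (|b| * m * G + (zz M : ℕ) + 2 * a * m * G * T0) ≤
        (x : ℤ) ^ 2 := by
      have h1 : G * (zz M : ℤ) ≤ Kz * zz M := by
        have : G ≤ Kz := by linarith
        gcongr
      have h2 : Kz * (zz M + Kz) = Kz * zz M + Kz * Kz := by ring
      have h3 : (x : ℤ) ≤ x ^ 2 := by
        rw [sq]; exact le_mul_of_one_le_left (by linarith) hx1z
      have h4 : G * (|b| * m * G + (zz M : ℤ) + 2 * a * m * G * T0) =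
          G * (zz M : ℤ) + G * (|b| * m * G + 2 * a * m * G * T0) := by ring
      rw [h4]
      linarith
    have hex : ∀ k ∈ Finset.Icc 1 F, ∃ W ρ : ℕ, 0 < W ∧ (W : ℤ) ≤ k * (2 * a * m ^ 2 * y ^ 2) ∧
      ρ < W ∧ Nat.Coprime ρ W ∧
      (∀ q : ℕ, q.Prime → F + m * y < q → q ≡ ρ [MOD W] → ∃ r : ℤ, (q : ℤ) ∣ r ^ 2 - D) ∧
      ∀ q : ℕ, q.Prime → F + m * y < q → q ≤ zz M → q ≡ ρ [MOD W] →
        ¬ (q : ℤ) ∣ ((x : ℤ) + k * (m * y : ℕ)) ^ 2 - D * (m * y : ℕ) ^ 2 := by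
      intro k hk
      exact pat_of_mem ha hT0 H hD hc h2a hy (by omega) hcop hJ hs F (zz M) hb1 G hG hb2 k hk
    choose! W ρ h1 h2 h3 h4 h5 h6 using hex
    have hWE : ∀ k ∈ Finset.Icc 1 F, W k ≤ k * E := by
      intro k hk
      have := h2 k hk
      rw [← hE] at this
      exact_mod_cast this
    have hkEF : ∀ k ∈ Finset.Icc 1 F, k * E ≤ F * E := by
      intro k hk
      exact Nat.mul_le_mul_right E (Finset.mem_Icc.1 hk).2
    have hN0pos : 0 < N0 := by omega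
    set σ : Fin (F + 1) → Fin N0 × Fin N0 := fun i =>
      (⟨W i % N0, Nat.mod_lt _ hN0pos⟩, ⟨ρ i % N0, Nat.mod_lt _ hN0pos⟩) with hσ
    have hWσ : ∀ k ∈ Finset.Icc 1 F, Wσ σ k = W k := by
      intro k hk
      unfold Wσ
      have hk' := Finset.mem_Icc.1 hk
      rw [dif_pos (by omega : k < F + 1)]
      simp only [hσ]
      apply Nat.mod_eq_of_lt
      have := hWE k hk
      have := hkEF k hk
      omega
    have hρσ : ∀ k ∈ Finset.Icc 1 F, ρσ σ k = ρ k := by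
      intro k hk
      unfold ρσ
      have hk' := Finset.mem_Icc.1 hk
      rw [dif_pos (by omega : k < F + 1)]
      simp only [hσ]
      apply Nat.mod_eq_of_lt
      have := hWE k hk
      have := hkEF k hk
      have := h3 k hk
      omega
    refine ⟨σ, ?_, ?_⟩
    · rw [mem_filter]
      refine ⟨mem_univ _, ?_⟩
      intro k hk
      rw [hWσ k hk, hρσ k hk]
      exact ⟨h1 k hk, hWE k hk, h4 k hk, h5 k hk⟩
    · rw [mem_filter, mem_range]
      refine ⟨by omega, ?_⟩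
      intro k hk
      rw [hWσ k hk, hρσ k hk]
      exact h6 k hk
  have hcard := (card_le_card hsub).trans (card_union_le _ _)
  have hcard2 := card_union_le ({M} : Finset ℕ)
    (((univ : Finset (Fin (F + 1) → Fin N0 × Fin N0)).filter valid).biUnion
        (fun σ => (range M).filter (fun s => cnd σ M s)))
  rw [card_singleton] at hcard2
  rw [card_range] at hcard
  have hbi : (((((univ : Finset (Fin (F + 1) → Fin N0 × Fin N0)).filter valid).biUnion
        (fun σ => (range M).filter (fun s => cnd σ M s))).card : ℕ) : ℝ) ≤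
      nP * (M / (Real.log M) ^ (A + 1)) := by
    have h1 : (((univ : Finset (Fin (F + 1) → Fin N0 × Fin N0)).filter valid).biUnion
        (fun σ => (range M).filter (fun s => cnd σ M s))).card ≤
        ∑ σ ∈ (univ : Finset (Fin (F + 1) → Fin N0 × Fin N0)).filter valid,
          ((range M).filter (fun s => cnd σ M s)).card := card_biUnion_le
    have h2 : (((((univ : Finset (Fin (F + 1) → Fin N0 × Fin N0)).filter valid).biUnion
        (fun σ => (range M).filter (fun s => cnd σ M s))).card : ℕ) : ℝ) ≤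
        ∑ σ ∈ (univ : Finset (Fin (F + 1) → Fin N0 × Fin N0)).filter valid,
          (((range M).filter (fun s => cnd σ M s)).card : ℝ) := by exact_mod_cast h1
    refine h2.trans ?_
    calc _ ≤ ∑ _σ ∈ (univ : Finset (Fin (F + 1) → Fin N0 × Fin N0)).filter valid,
          (M : ℝ) / (Real.log M) ^ (A + 1) := by
          apply sum_le_sum
          intro σ hσ
          exact hM1 σ (mem_filter.1 hσ).2
      _ = (((univ : Finset (Fin (F + 1) → Fin N0 × Fin N0)).filter valid).card : ℝ) *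
          ((M : ℝ) / (Real.log M) ^ (A + 1)) := by rw [sum_const, nsmul_eq_mul]
      _ ≤ nP * (M / (Real.log M) ^ (A + 1)) := by
          have h3 : ((((univ : Finset (Fin (F + 1) → Fin N0 × Fin N0)).filter valid).card : ℕ) : ℝ)
              ≤ nP := by
            have := card_le_univ ((univ : Finset (Fin (F + 1) → Fin N0 × Fin N0)).filter valid)
            exact_mod_cast this
          have h4 : 0 ≤ (M : ℝ) / (Real.log M) ^ (A + 1) := by
            have : 0 ≤ Real.log M := Real.log_natCast_nonneg M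
            positivity
          gcongr
  have hlogpos : 0 < Real.log M := by
    have : (0 : ℝ) ≤ nP := by positivity
    linarith
  have hfin : (nP : ℝ) * (M / (Real.log M) ^ (A + 1)) ≤ 1 / 2 * (M / (Real.log M) ^ A) := by
    have e : (nP : ℝ) * (M / (Real.log M) ^ (A + 1)) =
        (nP / Real.log M) * (M / (Real.log M) ^ A) := by
      rw [pow_succ]; field_simp
    rw [e]
    have h5 : (nP : ℝ) / Real.log M ≤ 1 / 2 := by
      rw [div_le_iff₀ hlogpos]; linarith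
    have h6 : 0 ≤ (M : ℝ) / (Real.log M) ^ A := by positivity
    gcongr
  have h7 := hM3 ((K * (zz M + K) : ℕ) : ℝ) (by positivity) hM2
  have h8 : ((ZY P D m y M).card : ℝ) ≤ ((K * (zz M + K) : ℕ) : ℝ) + (1 +
      ((((((univ : Finset (Fin (F + 1) → Fin N0 × Fin N0)).filter valid).biUnion
        (fun σ => (range M).filter (fun s => cnd σ M s))).card : ℕ) : ℝ))) := by
    exact_mod_cast hcard.trans (Nat.add_le_add_left hcard2 _)
  linarith

end Pool.Agent.Lib.MP_a17b09_nt
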