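import Pool.Agent.Lib.MP_a17b09_nt.Z.Path
import Pool.Agent.Lib.MP_a17b09_nt.Z.Sparse
import Pool.Agent.Lib.MP_a17b09_nt.Q.LogDens

set_option autoImplicit false

open Finset Filter

namespace Pool.Agent.Lib.MP_a17b09_nt

/-- the set of labels of the colour changing pairs -/
noncomputable def ZP (P : Set ℕ) (D : ℤ) (m Dm M : ℕ) : Finset (ℕ × ℕ) := by
  classical
  exact (Finset.Icc 1 Dm ×ˢ (Finset.Icc 1 Dm).biUnion (fun y => (ZY P D m y M).image
    (fun x => (x, y)))).image (fun z => (z.1 * z.2.1, z.1 * z.2.2))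

lemma ZP_card (P : Set ℕ) (D : ℤ) (m Dm M : ℕ) (B : ℝ) (hB : 0 ≤ B)
    (h : ∀ y ∈ Finset.Icc 1 Dm, ((ZY P D m y M).card : ℝ) ≤ B) :
    ((ZP P D m Dm M).card : ℝ) ≤ Dm ^ 2 * B := by
  classical
  have h1 : (ZP P D m Dm M).card ≤ Dm * ∑ y ∈ Finset.Icc 1 Dm, (ZY P D m y M).card := by
    unfold ZP
    refine card_image_le.trans ?_
    rw [card_product, Nat.card_Icc, Nat.add_sub_cancel]
    apply Nat.mul_le_mul_left
    refine card_biUnion_le.trans (sum_le_sum ?_)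
    intro y _
    exact card_image_le
  have h2 : ((ZP P D m Dm M).card : ℝ) ≤ Dm * ∑ y ∈ Finset.Icc 1 Dm, ((ZY P D m y M).card : ℝ) := by
    exact_mod_cast h1
  refine h2.trans ?_
  have h3 : ∑ y ∈ Finset.Icc 1 Dm, ((ZY P D m y M).card : ℝ) ≤ Dm * B := by
    calc _ ≤ ∑ _y ∈ Finset.Icc 1 Dm, B := sum_le_sum h
      _ = Dm * B := by rw [sum_const, Nat.card_Icc, Nat.add_sub_cancel, nsmul_eq_mul]
  calc (Dm : ℝ) * ∑ y ∈ Finset.Icc 1 Dm, ((ZY P D m y M).card : ℝ) ≤ Dm * (Dm * B) := by gcongr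
    _ = Dm ^ 2 * B := by ring

lemma pair_ZP {P : Set ℕ} {D : ℤ} {m : ℕ} (hc : Ctx D m) {s s' : ℤ × ℤ} (hs : Sp D m s)
    (hs' : Sp D m s') (hsec : Sec 0 (c0 D m) s) (hsec' : Sec 0 (c0 D m) s') (hd : 0 < det s s')
    (hcol : col P 0 (c0 D m) s ≠ col P 0 (c0 D m) s') (Dm M : ℕ) (hDm : det s s' ≤ Dm)
    (hM : lab 0 (c0 D m) s s' ≤ M) :
    ((lab 0 (c0 D m) s s').toNat, (det s s').toNat) ∈ ZP P D m Dm M := by
  classical
  have hlab := lab_pos hsec hsec'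
  have e : mulp 0 (c0 D m) (s.1, -s.2) s' = (lab 0 (c0 D m) s s', det s s') := by
    rw [mulp_c0, lab_c0]
    apply Prod.ext
    · simp only; ring
    · simp only [det]; ring
  obtain ⟨g, hg, -, w, hw1, hw2, hw3, hw4, hw5⟩ := mul_prim hc (u := (s.1, -s.2)) (v := s')
    (hs.1.neg_right) hs.2.1 hs.2.2.1 hs'.1 hs'.2.1 hs'.2.2.1 (by rw [e]; exact hlab)
  rw [e] at hw5
  have e1 : lab 0 (c0 D m) s s' = g * w.1 := congrArg Prod.fst hw5
  have e2 : det s s' = g * w.2 := congrArg Prod.snd hw5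
  have hw2pos : 0 < w.2 := by
    rw [e2] at hd
    exact (mul_pos_iff_of_pos_left hg).1 hd
  have hJ : jacobiSym D w.1.natAbs = 1 := by
    rw [hw4]
    simp only
    rw [hs.2.2.2, hs'.2.2.2, one_mul]
  obtain ⟨gn, hgn⟩ : ∃ gn : ℕ, (gn : ℤ) = g := ⟨_, Int.toNat_of_nonneg hg.le⟩
  obtain ⟨xn, hxn⟩ : ∃ xn : ℕ, (xn : ℤ) = w.1 := ⟨_, Int.toNat_of_nonneg hw3.le⟩
  obtain ⟨yn, hyn⟩ : ∃ yn : ℕ, (yn : ℤ) = w.2 := ⟨_, Int.toNat_of_nonneg hw2pos.le⟩
  have hg1 : 1 ≤ g := hg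
  have hw31 : 1 ≤ w.1 := hw3
  have hw21 : 1 ≤ w.2 := hw2pos
  have hgD : g ≤ det s s' := by rw [e2]; exact le_mul_of_one_le_right hg.le hw21
  have hyD : w.2 ≤ det s s' := by rw [e2]; exact le_mul_of_one_le_left hw2pos.le hg1
  have hxM : w.1 ≤ lab 0 (c0 D m) s s' := by
    rw [e1]; exact le_mul_of_one_le_left hw3.le hg1
  unfold ZP
  rw [mem_image]
  refine ⟨(gn, (xn, yn)), ?_, ?_⟩
  · rw [mem_product, Finset.mem_Icc, mem_biUnion]
    refine ⟨⟨by simp only; omega, by simp only; omega⟩, yn, ?_, ?_⟩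
    · rw [Finset.mem_Icc]; omega
    · rw [mem_image]
      refine ⟨xn, ?_, rfl⟩
      rw [mem_ZY, hxn, hyn]
      refine ⟨⟨by omega, by omega⟩, ?_, ?_, ?_⟩
      · exact hw2.mul_right hw1
      · have : xn = w.1.natAbs := by omega
        rw [this]; exact hJ
      · have hN : nrm 0 (c0 D m) s * nrm 0 (c0 D m) s' =
            g ^ 2 * (w.1 ^ 2 - D * (m : ℤ) ^ 2 * w.2 ^ 2) := by
          rw [nrm_mul_nrm, e1, e2, c0]; ring
        have hns := nrm_pos hsec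
        have hns' := nrm_pos hsec'
        have hne : w.1 ^ 2 - D * (m : ℤ) ^ 2 * w.2 ^ 2 ≠ 0 := by
          intro h0
          rw [h0, mul_zero] at hN
          exact (mul_pos hns hns').ne' hN
        have h1 := congrArg (sgn P) hN
        rw [sgn_sq_mul P hg.ne' hne, sgn_mul_eq_neg_one hns.ne' hns'.ne' hcol] at h1
        exact h1.symm
  · simp only
    rw [e1, e2]
    apply Prod.ext
    · simp only
      rw [← hgn, ← hxn]
      rw [← Nat.cast_mul, Int.toNat_natCast]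
    · simp only
      rw [← hgn, ← hyn]
      rw [← Nat.cast_mul, Int.toNat_natCast]

end Pool.Agent.Lib.MP_a17b09_nt
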