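import Pool.Agent.Lib.MP_a17b09_nt.Z.Fan
import Pool.Agent.Lib.MP_a17b09_nt.Count

set_option autoImplicit false

open Finset

namespace Pool.Agent.Lib.MP_a17b09_nt

/-- the next neighbour of `u` in the direction of `v` -/
lemma next_nb {u v : ℤ × ℤ} {n X : ℤ} (hn : 1 < n) (hdet : det u v = n) (hu : IsCoprime u.1 u.2)
    (hv : IsCoprime v.1 v.2) (hu1 : 0 < u.1) (hv1 : 0 < v.1) (huX : u.1 ≤ X) (hvX : v.1 ≤ X) :
    ∃ w : ℤ × ℤ, det u w = 1 ∧ 0 < det w v ∧ det w v < n ∧ IsCoprime w.1 w.2 ∧ 0 < w.1 ∧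
      w.1 ≤ X := by
  obtain ⟨p, q, hpq⟩ := hu
  have hw0 : u.1 * p + u.2 * q = 1 := by linarith
  have hdet' : n = u.1 * v.2 - u.2 * v.1 := by rw [← hdet]; rfl
  set α : ℤ := v.1 * p + v.2 * q with hα
  have hv1' : v.1 = α * u.1 + n * (-q) := by
    rw [hα, hdet']
    linear_combination (-v.1) * hw0
  have hv2' : v.2 = α * u.2 + n * p := by
    rw [hα, hdet']
    linear_combination (-v.2) * hw0
  have hnpos : (0 : ℤ) < n := by linarith
  set j : ℤ := (-α) % n with hj
  have hj0 : 0 ≤ j := Int.emod_nonneg _ hnpos.ne'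
  have hjn : j < n := Int.emod_lt_of_pos _ hnpos
  obtain ⟨t, ht⟩ : ∃ t : ℤ, α + j = n * t := by
    refine ⟨-((-α) / n), ?_⟩
    have := Int.emod_add_mul_ediv (-α) n
    rw [hj]; linarith
  set w : ℤ × ℤ := (t * u.1 - q, t * u.2 + p) with hw
  have hw1 : n * w.1 = v.1 + j * u.1 := by
    rw [hw]; simp only
    linear_combination (-u.1) * ht - hv1'
  have hw2 : n * w.2 = v.2 + j * u.2 := by
    rw [hw]; simp only
    linear_combination (-u.2) * ht - hv2'
  have hjpos : 0 < j := by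
    rcases lt_or_eq_of_le hj0 with h | h
    · exact h
    · exfalso
      rw [← h] at hw1 hw2
      obtain ⟨r, s, hrs⟩ := hv
      have : n ∣ 1 := by
        refine ⟨r * w.1 + s * w.2, ?_⟩
        have e1 : v.1 = n * w.1 := by linarith
        have e2 : v.2 = n * w.2 := by linarith
        rw [← hrs, e1, e2]; ring
      have := Int.eq_one_of_dvd_one hnpos.le this
      omega
  have hdetuw : det u w = 1 := by
    rw [hw]; simp only [det]; linear_combination hw0
  have hdetwv : det w v = j := by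
    have h2 : n * det w v = n * j := by
      have e : n * det w v = (n * w.1) * v.2 - (n * w.2) * v.1 := by
        simp only [det]; ring
      rw [e, hw1, hw2]
      linear_combination -j * hdet'
    exact mul_left_cancel₀ hnpos.ne' h2
  have hwpos : 0 < w.1 := by
    have : 0 < n * w.1 := by rw [hw1]; positivity
    exact (mul_pos_iff_of_pos_left hnpos).1 this
  refine ⟨w, hdetuw, by rw [hdetwv]; exact hjpos, by rw [hdetwv]; exact hjn, ?_, hwpos, ?_⟩
  · refine ⟨-u.2, u.1, ?_⟩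
    simp only [det] at hdetuw
    linarith
  · have h3 : n * w.1 ≤ n * X := by
      rw [hw1]
      have : j * u.1 ≤ (n - 1) * X := by
        have hX : 0 ≤ X := by linarith
        calc j * u.1 ≤ j * X := by gcongr
          _ ≤ (n - 1) * X := by
            have : j ≤ n - 1 := by linarith
            gcongr
      linarith
    exact le_of_mul_le_mul_left h3 hnpos

/-- an edge inside a cone -/
lemma exists_edge {u v : ℤ × ℤ} {X : ℤ} (hdet : 0 < det u v) (hu : IsCoprime u.1 u.2)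
    (hv : IsCoprime v.1 v.2) (hu1 : 0 < u.1) (hv1 : 0 < v.1) (huX : u.1 ≤ X) (hvX : v.1 ≤ X) :
    ∃ w : ℤ × ℤ, det u w = 1 ∧ 0 < w.1 ∧ w.1 ≤ X ∧ slope w ≤ slope v := by
  rcases lt_or_eq_of_le (show 1 ≤ det u v from hdet) with h | h
  · obtain ⟨w, h1, h2, -, -, h5, h6⟩ := next_nb h rfl hu hv hu1 hv1 huX hvX
    exact ⟨w, h1, h5, h6, slope_le_of_det h5 hv1 h2.le⟩
  · exact ⟨v, h.symm, hv1, hvX, le_rfl⟩

section path

variable {P : Set ℕ} {D : ℤ} {m : ℕ} (hc : Ctx D m) {X : ℤ} {lo hi η : ℝ}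
  (hNC : NC P D m (2 * kap m * X) lo hi)
  (hNS : ∀ w : ℤ × ℤ, IsCoprime w.1 w.2 → 0 < w.1 → lo + η ≤ slope w → slope w ≤ hi - η →
    Mid m lo hi η w)

include hc hNC hNS

theorem tile_path : ∀ n : ℕ, ∀ u v : ℤ × ℤ, 0 < n → det u v = n → IsCoprime u.1 u.2 →
    IsCoprime v.1 v.2 → 0 < u.1 → 0 < v.1 → u.1 ≤ X → v.1 ≤ X → lo + η ≤ slope u →
    slope v ≤ hi - η →
    ∃ q p : ℤ × ℤ, det u q = 1 ∧ 0 < q.1 ∧ q.1 ≤ X ∧ det p v = 1 ∧ 0 < p.1 ∧ p.1 ≤ X ∧
      col P 0 (c0 D m) (tl D m u q) = col P 0 (c0 D m) (tl D m p v) := by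
  intro n
  induction n using Nat.strong_induction_on with
  | _ n ih =>
    intro u v hn hdet hu hv hu1 hv1 huX hvX hlo hhi
    rcases Nat.lt_or_ge 1 n with h1 | h1
    swap
    · have hn1 : n = 1 := by omega
      subst hn1
      rw [Nat.cast_one] at hdet
      exact ⟨v, u, hdet, hv1, hvX, hdet, hu1, huX, rfl⟩
    · obtain ⟨w, hw1, hw2, hw3, hw4, hw5, hw6⟩ := next_nb (n := (n : ℤ)) (by exact_mod_cast h1)
        hdet hu hv hu1 hv1 huX hvX
      have hs1 : slope u ≤ slope w := slope_le_of_det hu1 hw5 (by rw [hw1]; norm_num)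
      have hs2 : slope w ≤ slope v := slope_le_of_det hw5 hv1 hw2.le
      obtain ⟨j, hj⟩ : ∃ j : ℕ, (j : ℤ) = det w v := ⟨_, Int.toNat_of_nonneg hw2.le⟩
      obtain ⟨q', p', k1, k2, k3, k4, k5, k6, k7⟩ := ih j (by omega) w v (by omega) hj.symm hw4 hv
        hw5 hv1 hw6 hvX (hlo.trans hs1) hhi
      have hmid := hNS w hw4 hw5 (hlo.trans hs1) (hs2.trans hhi)
      have har := around hc hNC hmid hw6 hw1 hu1 huX k1 k2 k3
      exact ⟨w, p', hw1, hw5, hw6, k4, k5, k6, har.trans k7⟩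

/-- all special primitive vectors in the middle of the region have the same colour -/
theorem window_mono (hX : 0 ≤ X) {u v : ℤ × ℤ} (hu : Sp D m u) (hv : Sp D m v) (huX : u.1 ≤ X)
    (hvX : v.1 ≤ X) (hlu : lo + η ≤ slope u) (hhu : slope u ≤ hi - η) (hlv : lo + η ≤ slope v)
    (hhv : slope v ≤ hi - η) : col P 0 (c0 D m) u = col P 0 (c0 D m) v := by
  have hk := kap_pos hc
  have key : ∀ u v : ℤ × ℤ, Sp D m u → Sp D m v → u.1 ≤ X → v.1 ≤ X → lo + η ≤ slope u →
      slope u ≤ hi - η → lo + η ≤ slope v → slope v ≤ hi - η → 0 < det u v →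
      col P 0 (c0 D m) u = col P 0 (c0 D m) v := by
    intro u v hu hv huX hvX hlu hhu hlv hhv hd
    obtain ⟨n, hn⟩ : ∃ n : ℕ, (n : ℤ) = det u v := ⟨_, Int.toNat_of_nonneg hd.le⟩
    obtain ⟨q, p, h1, h2, h3, h4, h5, h6, h7⟩ := tile_path hc hNC hNS n u v (by omega) hn.symm
      hu.1 hv.1 hu.2.2.1 hv.2.2.1 huX hvX hlu hhv
    have hmu := hNS u hu.1 hu.2.2.1 hlu hhu
    have hmv := hNS v hv.1 hv.2.2.1 hlv hhv
    have hη : 0 ≤ η := by
      by_contra hcon
      push Not at hcon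
      have hu1 : (0 : ℝ) < (u.1 : ℝ) ^ 2 := by
        have : (0 : ℝ) < u.1 := by exact_mod_cast hu.2.2.1
        positivity
      have h8 := hmu.big
      have h9 : η * (u.1 : ℝ) ^ 2 < 0 := mul_neg_of_neg_of_pos hcon hu1
      have h10 : (0 : ℝ) < kap m := by exact_mod_cast (by linarith : 0 < kap m)
      linarith
    have hXk : X ≤ 2 * kap m * X := by
      have : 1 * X ≤ (2 * kap m) * X := by gcongr; linarith
      linarith
    have e1 : col P 0 (c0 D m) u = col P 0 (c0 D m) (tl D m u q) := by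
      obtain ⟨α, β, hα1, hα2, hβ1, hβ2, hs, hsp⟩ := tl_spec hc h1 hu.2.2.1 h2
      have hr := reg_right hc hmu huX h1 h2 h3
      apply hNC.abs hu hsp ⟨by linarith, by linarith, by linarith⟩ hr
      have e : det u (tl D m u q) = β := by
        rw [hs]; simp only [det] at h1 ⊢; linear_combination β * h1
      rw [e, abs_of_pos (by linarith)]
      nlinarith
    have e2 : col P 0 (c0 D m) (tl D m p v) = col P 0 (c0 D m) v := by
      obtain ⟨α, β, hα1, hα2, hβ1, hβ2, hs, hsp⟩ := tl_spec hc h4 h5 hv.2.2.1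
      have hr := reg_left hc hmv hvX h4 h5 h6
      apply hNC.abs hsp hv hr ⟨by linarith, by linarith, by linarith⟩
      have e : det (tl D m p v) v = α := by
        rw [hs]; simp only [det] at h4 ⊢; linear_combination α * h4
      rw [e, abs_of_pos (by linarith)]
      nlinarith
    rw [e1, h7, e2]
  rcases lt_trichotomy (det u v) 0 with h0 | h0 | h0
  · have e : det v u = -det u v := by simp only [det]; ring
    exact (key v u hv hu hvX huX hlv hhv hlu hhu (by rw [e]; linarith)).symm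
  · rw [eq_of_det_zero hu.1 hv.1 hu.2.2.1 hv.2.2.1 h0]
  · exact key u v hu hv huX hvX hlu hhu hlv hhv h0

end path

end Pool.Agent.Lib.MP_a17b09_nt
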