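import Pool.Agent.Lib.MP_a17b09_nt.Z.Jac
import Pool.Agent.Lib.MP_a17b09_nt.Sector

set_option autoImplicit false

namespace Pool.Agent.Lib.MP_a17b09_nt

/-- standing assumptions on the modulus -/
structure Ctx (D : ℤ) (m : ℕ) : Prop where
  nsq : ¬ IsSquare D
  mpos : 0 < m
  d4 : ((4 * D.natAbs : ℕ) : ℤ) ∣ (m : ℤ)
  d8 : 8 ∣ m

/-- the constant term of the form `x² - D m² y²` -/
def c0 (D : ℤ) (m : ℕ) : ℤ := -(D * (m : ℤ) ^ 2)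

lemma nrm_c0 (D : ℤ) (m : ℕ) (u : ℤ × ℤ) :
    nrm 0 (c0 D m) u = u.1 ^ 2 - D * (m : ℤ) ^ 2 * u.2 ^ 2 := by
  simp only [nrm, c0]; ring

lemma mulp_c0 (D : ℤ) (m : ℕ) (u v : ℤ × ℤ) :
    mulp 0 (c0 D m) u v =
      (u.1 * v.1 + D * (m : ℤ) ^ 2 * (u.2 * v.2), u.1 * v.2 + u.2 * v.1) := by
  simp only [mulp, c0]
  apply Prod.ext
  · simp only; ring
  · simp only; ring

lemma lab_c0 (D : ℤ) (m : ℕ) (u v : ℤ × ℤ) :
    lab 0 (c0 D m) u v = u.1 * v.1 - D * (m : ℤ) ^ 2 * (u.2 * v.2) := by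
  simp only [lab, c0]; ring

lemma Ctx.nsq' {D : ℤ} {m : ℕ} (h : Ctx D m) : ¬ IsSquare ((0 : ℤ) ^ 2 - 4 * c0 D m) := by
  rintro ⟨k, hk⟩
  apply h.nsq
  have hm : (2 * (m : ℤ)) ≠ 0 := by
    have := h.mpos
    have : (0 : ℤ) < m := by exact_mod_cast this
    positivity
  apply isSquare_of_sq_eq_mul_sq' D k (2 * m) hm
  rw [sq, ← hk, c0]; ring

lemma Ctx.mz {D : ℤ} {m : ℕ} (h : Ctx D m) : (0 : ℤ) < m := by exact_mod_cast h.mpos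

lemma Ctx.Dm {D : ℤ} {m : ℕ} (h : Ctx D m) : D ∣ (m : ℤ) := by
  refine dvd_trans ?_ h.d4
  rw [← Int.natAbs_dvd]
  exact_mod_cast Dvd.intro_left 4 rfl

lemma Ctx.two {D : ℤ} {m : ℕ} (h : Ctx D m) : (2 : ℤ) ∣ (m : ℤ) := by
  have : 2 ∣ m := dvd_trans (by norm_num) h.d8
  exact_mod_cast this

lemma Ctx.odd {D : ℤ} {m : ℕ} (h : Ctx D m) {x : ℤ} (hx : IsCoprime x (m : ℤ)) :
    ¬ (2 : ℤ) ∣ x := by
  intro h2
  obtain ⟨r, s, hrs⟩ := hx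
  have h3 : (2 : ℤ) ∣ 1 := by
    rw [← hrs]
    exact dvd_add (Dvd.dvd.mul_left h2 r) (Dvd.dvd.mul_left h.two s)
  norm_num at h3

/-- The key identity. -/
lemma K1 {P : Set ℕ} {a b c : ℤ} {s T0 : ℤ}
    (H : ∀ t : ℤ, T0 ≤ t → 0 < a * t ^ 2 + b * t + c ∧ sgn P (a * t ^ 2 + b * t + c) = s)
    {m x y n t : ℤ} (hm : 0 < m) (hy : 0 < y) (hn : 0 < n)
    (hdvd : n ∣ x ^ 2 - (b ^ 2 - 4 * a * c) * m ^ 2 * y ^ 2)
    (hcop : IsCoprime n (2 * a * m * y)) (ht : x - b * m * y = n + 2 * a * m * y * t)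
    (htT : T0 ≤ t) : sgn P (x ^ 2 - (b ^ 2 - 4 * a * c) * m ^ 2 * y ^ 2) = 1 := by
  have hx : x = n + 2 * a * m * y * t + b * m * y := by linarith
  set N := x ^ 2 - (b ^ 2 - 4 * a * c) * m ^ 2 * y ^ 2 with hN
  have hNeq : N = n ^ 2 + 2 * n * (m * y) * (2 * a * t + b) +
      4 * a * (m * y) ^ 2 * (a * t ^ 2 + b * t + c) := by
    rw [hN, hx]; ring
  have h1 : n ∣ a * t ^ 2 + b * t + c := by
    have h2 : n ∣ ((2 * a * m * y) * (2 * a * m * y)) * (a * t ^ 2 + b * t + c) := by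
      have e : ((2 * a * m * y) * (2 * a * m * y)) * (a * t ^ 2 + b * t + c) =
          a * (N - n * (n + 2 * (m * y) * (2 * a * t + b))) := by
        rw [hNeq]; ring
      rw [e]
      exact Dvd.dvd.mul_left (dvd_sub hdvd (Dvd.intro _ rfl)) a
    exact (hcop.mul_right hcop).dvd_of_dvd_mul_left h2
  obtain ⟨k, hk⟩ := h1
  obtain ⟨hf, hs⟩ := H t htT
  have hkpos : 0 < k := by
    rw [hk] at hf
    exact (mul_pos_iff_of_pos_left hn).1 hf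
  set t' := t + 2 * m * y * k with ht'
  have htt' : T0 ≤ t' := by
    rw [ht']
    have : 0 < 2 * m * y * k := by positivity
    linarith
  obtain ⟨hf', hs'⟩ := H t' htt'
  have hprod : (a * t ^ 2 + b * t + c) * (a * t' ^ 2 + b * t' + c) = k ^ 2 * N := by
    have e : a * t' ^ 2 + b * t' + c = k * (n + 2 * (m * y) * (2 * a * t + b) +
        4 * a * (m * y) ^ 2 * k) := by
      rw [ht']
      linear_combination hk
    rw [e, hNeq, hk]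
    ring
  have hN0 : N ≠ 0 := by
    intro h0
    rw [h0, mul_zero] at hprod
    exact (mul_pos hf hf').ne' hprod
  have h3 := congrArg (sgn P) hprod
  rw [sgn_mul P hf.ne' hf'.ne', sgn_sq_mul P hkpos.ne' hN0, hs, hs', ← hs, sgn_mul_self] at h3
  exact h3.symm

/-- primitive special vectors -/
def Sp (D : ℤ) (m : ℕ) (u : ℤ × ℤ) : Prop :=
  IsCoprime u.1 u.2 ∧ IsCoprime u.1 (m : ℤ) ∧ 0 < u.1 ∧ jacobiSym D u.1.natAbs = 1

/-- special vectors -/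
def SS (D : ℤ) (m : ℕ) (u : ℤ × ℤ) : Prop :=
  ∃ g : ℤ, 0 < g ∧ ∃ v : ℤ × ℤ, Sp D m v ∧ u = (g * v.1, g * v.2)

/-- primitive part of a vector -/
lemma prim_part {X Y : ℤ} (hX : 0 < X) : ∃ g x y : ℤ, 0 < g ∧ 0 < x ∧ IsCoprime x y ∧ X = g * x ∧
    Y = g * y := by
  have hg : 0 < Int.gcd X Y := Int.gcd_pos_of_ne_zero_left _ hX.ne'
  obtain ⟨x, y, hcop, hx, hy⟩ := Int.exists_gcd_one hg
  have hg' : (0 : ℤ) < (Int.gcd X Y : ℤ) := by exact_mod_cast hg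
  refine ⟨(Int.gcd X Y : ℤ), x, y, hg', ?_, Int.isCoprime_iff_gcd_eq_one.2 hcop, ?_, ?_⟩
  · rw [hx] at hX
    exact (mul_pos_iff_of_pos_right hg').1 hX
  · rw [mul_comm]; exact hx
  · rw [mul_comm]; exact hy

lemma mul_prim {D : ℤ} {m : ℕ} (hc : Ctx D m) {u v : ℤ × ℤ} (hu : IsCoprime u.1 u.2)
    (hum : IsCoprime u.1 (m : ℤ)) (hu0 : 0 < u.1) (hv : IsCoprime v.1 v.2)
    (hvm : IsCoprime v.1 (m : ℤ)) (hv0 : 0 < v.1) (hpos : 0 < (mulp 0 (c0 D m) u v).1) :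
    ∃ g : ℤ, 0 < g ∧ IsCoprime g (m : ℤ) ∧ ∃ w : ℤ × ℤ, IsCoprime w.1 w.2 ∧
      IsCoprime w.1 (m : ℤ) ∧ 0 < w.1 ∧
      jacobiSym D w.1.natAbs = jacobiSym D u.1.natAbs * jacobiSym D v.1.natAbs ∧
      mulp 0 (c0 D m) u v = (g * w.1, g * w.2) := by
  rw [mulp_c0] at hpos ⊢
  simp only at hpos
  set X := u.1 * v.1 + D * (m : ℤ) ^ 2 * (u.2 * v.2) with hX
  set Y := u.1 * v.2 + u.2 * v.1 with hY
  obtain ⟨g, x, y, hg, hx, hxy, hXg, hYg⟩ := prim_part (Y := Y) hpos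
  obtain ⟨hgm, hJg⟩ := content_jac D m hc.Dm hu hv hum hvm hg (by rw [← hX]; exact ⟨x, hXg⟩)
    (by rw [← hY]; exact ⟨y, hYg⟩)
  have hXm : IsCoprime X (m : ℤ) := by
    have h3 : IsCoprime (u.1 * v.1) (m : ℤ) := hum.mul_left hvm
    have e : X = u.1 * v.1 + m * (D * m * (u.2 * v.2)) := by rw [hX]; ring
    rw [e]
    exact h3.add_mul_left_left _
  have hxm : IsCoprime x (m : ℤ) := hXm.of_isCoprime_of_dvd_left ⟨g, by rw [hXg]; ring⟩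
  refine ⟨g, hg, hgm, (x, y), hxy, hxm, hx, ?_, by rw [hXg, hYg]⟩
  simp only
  have h1 : jacobiSym D X.natAbs = jacobiSym D (u.1 * v.1).natAbs := by
    apply jac_congr D hpos (mul_pos hu0 hv0) (hc.odd hXm) (m : ℤ) hc.d4 hc.two
    refine ⟨D * m * (u.2 * v.2), ?_⟩
    rw [hX]; ring
  rw [jac_mul D hu0.ne' hv0.ne', hXg, jac_mul D hg.ne' hx.ne', hJg, one_mul] at h1
  exact h1

lemma SS_mul {D : ℤ} {m : ℕ} (hc : Ctx D m) {u v : ℤ × ℤ} (hsu : Sec 0 (c0 D m) u)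
    (hsv : Sec 0 (c0 D m) v) (hu : SS D m u) (hv : SS D m v) : SS D m (mulp 0 (c0 D m) u v) := by
  obtain ⟨g, hg, u', hu', rfl⟩ := hu
  obtain ⟨g', hg', v', hv', rfl⟩ := hv
  have hpos := (mulp_fst_bounds hsu hsv).1
  have e : mulp 0 (c0 D m) (g * u'.1, g * u'.2) (g' * v'.1, g' * v'.2) =
      (g * g' * (mulp 0 (c0 D m) u' v').1, g * g' * (mulp 0 (c0 D m) u' v').2) := by
    simp only [mulp]
    apply Prod.ext
    · simp only; ring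
    · simp only; ring
  rw [e] at hpos
  simp only at hpos
  have hgg : 0 < g * g' := mul_pos hg hg'
  have hpos' : 0 < (mulp 0 (c0 D m) u' v').1 := (mul_pos_iff_of_pos_left hgg).1 hpos
  obtain ⟨h, hh, -, w, hw1, hw2, hw3, hw4, hw5⟩ := mul_prim hc hu'.1 hu'.2.1 hu'.2.2.1 hv'.1
    hv'.2.1 hv'.2.2.1 hpos'
  refine ⟨g * g' * h, by positivity, w, ⟨hw1, hw2, hw3, ?_⟩, ?_⟩
  · rw [hw4, hu'.2.2.2, hv'.2.2.2, one_mul]
  · rw [e, hw5]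
    apply Prod.ext
    · simp only; ring
    · simp only; ring

end Pool.Agent.Lib.MP_a17b09_nt
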