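import Pool.Agent.Lib.MP_a17b09_nt.Z.Spec

set_option autoImplicit false

open Finset

namespace Pool.Agent.Lib.MP_a17b09_nt

lemma coprime_shift (α β0 m : ℕ) (hα : 0 < α)
    (h : ∀ r : ℕ, r.Prime → r ∣ α → r ∣ β0 → ¬ r ∣ m) :
    ∃ j : ℕ, j ≤ α ∧ Nat.Coprime α (β0 + m * j) := by
  classical
  set S := α.primeFactors.filter (fun r => ¬ r ∣ β0 ∧ ¬ r ∣ m) with hS
  refine ⟨∏ r ∈ S, r, ?_, ?_⟩
  · apply Nat.le_of_dvd hα
    apply Finset.prod_primes_dvd
    · intro r hr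
      rw [hS, mem_filter] at hr
      exact (Nat.prime_of_mem_primeFactors hr.1).prime
    · intro r hr
      rw [hS, mem_filter] at hr
      exact Nat.dvd_of_mem_primeFactors hr.1
  · apply Nat.coprime_of_dvd
    intro r hr hrα hrβ
    by_cases h1 : r ∣ m
    · have h2 : r ∣ β0 := (Nat.dvd_add_iff_left (Dvd.dvd.mul_right h1 _)).2 hrβ
      exact h r hr hrα h2 h1
    · by_cases h2 : r ∣ β0
      · have h3 : r ∣ m * ∏ r ∈ S, r := (Nat.dvd_add_iff_right h2).2 hrβ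
        rcases (Nat.Prime.dvd_mul hr).1 h3 with h4 | h4
        · exact h1 h4
        · rw [Prime.dvd_finsetProd_iff hr.prime] at h4
          obtain ⟨r', hr', hrr⟩ := h4
          rw [hS, mem_filter] at hr'
          have : r = r' := (Nat.prime_dvd_prime_iff_eq hr (Nat.prime_of_mem_primeFactors hr'.1)).1 hrr
          exact hr'.2.1 (this ▸ h2)
      · have hmem : r ∈ S := by
          rw [hS, mem_filter]
          exact ⟨Nat.mem_primeFactors.2 ⟨hr, hrα, hα.ne'⟩, h2, h1⟩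
        have h3 : r ∣ m * ∏ r ∈ S, r := Dvd.dvd.mul_left (dvd_prod_of_mem _ hmem) m
        exact h2 ((Nat.dvd_add_iff_left h3).2 hrβ)

/-- bound for the tile coefficients -/
def kap (m : ℕ) : ℤ := (m : ℤ) * (m + 1)

/-- tile element on the edge `(p, q)` -/
def IsTile (D : ℤ) (m : ℕ) (p q s : ℤ × ℤ) : Prop :=
  ∃ α β : ℤ, 1 ≤ α ∧ α ≤ kap m ∧ 1 ≤ β ∧ β ≤ kap m ∧
    s = (α * p.1 + β * q.1, α * p.2 + β * q.2) ∧ Sp D m s

lemma exists_tile {D : ℤ} {m : ℕ} (hc : Ctx D m) {p q : ℤ × ℤ} (hdet : det p q = 1)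
    (hp : 0 < p.1) (hq : 0 < q.1) : ∃ s, IsTile D m p q s := by
  have hm := hc.mz
  set α : ℤ := (q.2 - 1) % m + 1 with hα
  set β0 : ℤ := (-p.2 - 1) % m + 1 with hβ0
  have hα1 : 1 ≤ α := by have := Int.emod_nonneg (q.2 - 1) hm.ne'; omega
  have hαm : α ≤ m := by have := Int.emod_lt_of_pos (q.2 - 1) hm; omega
  have hβ1 : 1 ≤ β0 := by have := Int.emod_nonneg (-p.2 - 1) hm.ne'; omega
  have hβm : β0 ≤ m := by have := Int.emod_lt_of_pos (-p.2 - 1) hm; omega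
  obtain ⟨k1, hk1⟩ : (m : ℤ) ∣ α - q.2 := by
    have h := (Int.dvd_self_sub_emod : (m : ℤ) ∣ (q.2 - 1) - (q.2 - 1) % m)
    have e : α - q.2 = -((q.2 - 1) - (q.2 - 1) % m) := by rw [hα]; ring
    rw [e]; exact (dvd_neg).2 h
  obtain ⟨k2, hk2⟩ : (m : ℤ) ∣ β0 + p.2 := by
    have h := (Int.dvd_self_sub_emod : (m : ℤ) ∣ (-p.2 - 1) - (-p.2 - 1) % m)
    have e : β0 + p.2 = -((-p.2 - 1) - (-p.2 - 1) % m) := by rw [hβ0]; ring
    rw [e]; exact (dvd_neg).2 h
  simp only [det] at hdet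
  -- α p.1 + β0 q.1 ≡ 1 mod m
  have hone : α * p.1 + β0 * q.1 = 1 + m * (k1 * p.1 + k2 * q.1) := by
    have e1 : α = q.2 + m * k1 := by linarith
    have e2 : β0 = -p.2 + m * k2 := by linarith
    rw [e1, e2]
    linear_combination hdet
  obtain ⟨αn, hαn⟩ : ∃ αn : ℕ, (αn : ℤ) = α := ⟨_, Int.toNat_of_nonneg (by linarith)⟩
  obtain ⟨βn, hβn⟩ : ∃ βn : ℕ, (βn : ℤ) = β0 := ⟨_, Int.toNat_of_nonneg (by linarith)⟩
  obtain ⟨j, hj, hcop⟩ := coprime_shift αn βn m (by omega) (by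
    intro r hr h1 h2 h3
    have h1' : (r : ℤ) ∣ α := by rw [← hαn]; exact_mod_cast h1
    have h2' : (r : ℤ) ∣ β0 := by rw [← hβn]; exact_mod_cast h2
    have h3' : (r : ℤ) ∣ (m : ℤ) := by exact_mod_cast h3
    have h4 : (r : ℤ) ∣ 1 := by
      have e : (1 : ℤ) = α * p.1 + β0 * q.1 - m * (k1 * p.1 + k2 * q.1) := by linarith
      rw [e]
      exact dvd_sub (dvd_add (Dvd.dvd.mul_right h1' _) (Dvd.dvd.mul_right h2' _))
        (Dvd.dvd.mul_right h3' _)
    exact (Nat.prime_iff_prime_int.1 hr).not_isUnit (isUnit_of_dvd_one h4))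
  set β : ℤ := β0 + m * j with hβ
  have hcop' : IsCoprime α β := by
    have := Nat.isCoprime_iff_coprime.2 hcop
    push_cast at this
    rw [hαn, hβn] at this
    exact this
  have hjz : (j : ℤ) ≤ m := by
    have : (j : ℤ) ≤ αn := by exact_mod_cast hj
    linarith
  have hj0 : (0 : ℤ) ≤ j := by positivity
  have hmm : (0 : ℤ) ≤ m * m := by positivity
  refine ⟨(α * p.1 + β * q.1, α * p.2 + β * q.2), α, β, hα1, ?_, ?_, ?_, rfl, ?_, ?_, ?_, ?_⟩
  · unfold kap; linarith [show (m : ℤ) * (m + 1) = m * m + m by ring]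
  · rw [hβ]
    have : (0 : ℤ) ≤ m * j := by positivity
    linarith
  · unfold kap
    have : (m : ℤ) * j ≤ m * m := by gcongr
    rw [hβ]
    linarith [show (m : ℤ) * (m + 1) = m * m + m by ring]
  · obtain ⟨u, v, huv⟩ := hcop'
    refine ⟨u * q.2 - v * p.2, -(u * q.1) + v * p.1, ?_⟩
    simp only
    linear_combination (u * α + v * β) * hdet + huv
  · simp only
    refine ⟨1, -(k1 * p.1 + k2 * q.1 + j * q.1), ?_⟩
    rw [hβ]
    linear_combination hone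
  · simp only
    have h1 : 0 < α * p.1 := by positivity
    have h2 : 0 ≤ β * q.1 := by
      have : 0 ≤ β := by rw [hβ]; positivity
      positivity
    linarith
  · simp only
    have hpos : 0 < α * p.1 + β * q.1 := by
      have h1 : 0 < α * p.1 := by positivity
      have h2 : 0 ≤ β * q.1 := by
        have : 0 ≤ β := by rw [hβ]; positivity
        positivity
      linarith
    have hcm : IsCoprime (α * p.1 + β * q.1) (m : ℤ) := by
      refine ⟨1, -(k1 * p.1 + k2 * q.1 + j * q.1), ?_⟩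
      rw [hβ]
      linear_combination hone
    have h := jac_congr D hpos one_pos (hc.odd hcm) (m : ℤ) hc.d4 hc.two (by
      refine ⟨k1 * p.1 + k2 * q.1 + j * q.1, ?_⟩
      rw [hβ]
      linear_combination hone)
    rw [h]
    simp

open Classical in
noncomputable def tl (D : ℤ) (m : ℕ) (p q : ℤ × ℤ) : ℤ × ℤ :=
  if h : ∃ s, IsTile D m p q s then h.choose else (1, 0)

lemma tl_spec {D : ℤ} {m : ℕ} (hc : Ctx D m) {p q : ℤ × ℤ} (hdet : det p q = 1)
    (hp : 0 < p.1) (hq : 0 < q.1) : IsTile D m p q (tl D m p q) := by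
  classical
  have h := exists_tile hc hdet hp hq
  unfold tl
  rw [dif_pos h]
  exact h.choose_spec

/-- region of the plane -/
def Reg (X : ℤ) (lo hi : ℝ) (s : ℤ × ℤ) : Prop := s.1 ≤ X ∧ lo ≤ slope s ∧ slope s ≤ hi

/-- no colour change inside a region -/
def NC (P : Set ℕ) (D : ℤ) (m : ℕ) (X : ℤ) (lo hi : ℝ) : Prop :=
  ∀ s s' : ℤ × ℤ, Sp D m s → Sp D m s' → Reg X lo hi s → Reg X lo hi s' → 0 < det s s' →
    det s s' ≤ 3 * kap m ^ 2 → col P 0 (c0 D m) s = col P 0 (c0 D m) s'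

lemma eq_of_det_zero {s s' : ℤ × ℤ} (h : IsCoprime s.1 s.2) (h' : IsCoprime s'.1 s'.2)
    (hs : 0 < s.1) (hs' : 0 < s'.1) (hd : det s s' = 0) : s = s' := by
  simp only [det] at hd
  have h1 : s.1 ∣ s'.1 := by
    have : s.1 ∣ s.2 * s'.1 := ⟨s'.2, by linarith⟩
    exact h.dvd_of_dvd_mul_left this
  have h2 : s'.1 ∣ s.1 := by
    have : s'.1 ∣ s'.2 * s.1 := ⟨s.2, by linarith⟩
    exact h'.dvd_of_dvd_mul_left this
  have h3 : s.1 = s'.1 := le_antisymm (Int.le_of_dvd hs' h1) (Int.le_of_dvd hs h2)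
  have h4 : s.2 = s'.2 := by
    rw [h3] at hd
    have : s'.1 * s'.2 = s'.1 * s.2 := by linarith
    exact (mul_left_cancel₀ hs'.ne' this).symm
  exact Prod.ext h3 h4

lemma NC.abs {P : Set ℕ} {D : ℤ} {m : ℕ} {X : ℤ} {lo hi : ℝ} (h : NC P D m X lo hi)
    {s s' : ℤ × ℤ} (hs : Sp D m s) (hs' : Sp D m s') (hr : Reg X lo hi s) (hr' : Reg X lo hi s')
    (hd : |det s s'| ≤ 3 * kap m ^ 2) : col P 0 (c0 D m) s = col P 0 (c0 D m) s' := by
  rcases lt_trichotomy (det s s') 0 with h0 | h0 | h0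
  · have e : det s' s = -det s s' := by simp only [det]; ring
    exact (h s' s hs' hs hr' hr (by rw [e]; linarith) (by
      rw [e, ← abs_of_neg h0]; exact hd)).symm
  · rw [eq_of_det_zero hs.1 hs'.1 hs.2.2.1 hs'.2.2.1 h0]
  · exact h s s' hs hs' hr hr' h0 (by rw [← abs_of_pos h0]; exact hd)

lemma slope_sub {u v : ℤ × ℤ} (hu : 0 < u.1) (hv : 0 < v.1) :
    slope v - slope u = (det u v : ℝ) / ((u.1 : ℝ) * v.1) := by
  unfold slope det
  have h1 : (u.1 : ℝ) ≠ 0 := by exact_mod_cast hu.ne'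
  have h2 : (v.1 : ℝ) ≠ 0 := by exact_mod_cast hv.ne'
  push_cast
  field_simp

end Pool.Agent.Lib.MP_a17b09_nt
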